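import Pool.Agent.Lib.MT.Defs

/-!
# MP_d06d57_nt, Defs: small primes, sieving primes, the classes of `p` that are removed

`LL k` is the product of the primes `≤ 4k + 4`, `QQ k y` the set of the primes in `(4k + 4, y]`, `yy δ X = ⌊X^δ⌋`.
`Om n p` is the set of the nonzero classes `c` mod `p` with `p ∣ n(n-1) - c` or `p ∣ n(n+1) + c`; it has at most
two elements. A prime `x` of `(n, 2n)` whose class mod `q` is not in `Om n q` has `q ∤ (n² - n - x)(n² + n + x)`.
-/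

set_option autoImplicit false

open Finset

namespace Pool.Agent.Lib.MP_d06d57_nt

open Pool.Agent.Lib.MT

/-- the product of the primes `≤ 4k + 4` -/
def LL (k : ℕ) : ℕ := primorial (4 * k + 4)

/-- the primes `p` with `4k + 4 < p ≤ y` -/
def QQ (k y : ℕ) : Finset ℕ := PP (4 * k + 4) y

/-- `⌊X^δ⌋` -/
noncomputable def yy (δ : ℝ) (X : ℕ) : ℕ := ⌊(X : ℝ) ^ δ⌋₊

theorem LL_pos (k : ℕ) : 0 < LL k := primorial_pos _

theorem LL_prime {k p : ℕ} (hp : p.Prime) (h : p ∣ LL k) : p ≤ 4 * k + 4 := by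
  unfold LL primorial at h
  rw [hp.prime.dvd_finsetProd_iff] at h
  obtain ⟨q, hq, hpq⟩ := h
  rw [mem_filter, mem_range] at hq
  rw [(Nat.prime_dvd_prime_iff_eq hp hq.2).1 hpq]
  omega

theorem dvd_LL {k p : ℕ} (hp : p.Prime) (h : p ≤ 4 * k + 4) : p ∣ LL k := by
  unfold LL primorial
  refine Finset.dvd_prod_of_mem _ ?_
  rw [mem_filter, mem_range]
  exact ⟨by omega, hp⟩

theorem mem_QQ {k y p : ℕ} (hp : p ∈ QQ k y) : p.Prime ∧ 4 * k + 4 < p ∧ p ≤ y := by
  unfold QQ PP at hp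
  rw [mem_filter, mem_range] at hp
  exact ⟨hp.2.1, hp.2.2, by omega⟩

/-- the nonzero classes `c` mod `p` with `p ∣ n(n-1) - c` or `p ∣ n(n+1) + c` -/
def Om (n p : ℕ) : Finset ℕ :=
  (range p).filter (fun c => c ≠ 0 ∧ (c ≡ n * (n - 1) [MOD p] ∨ p ∣ n * (n + 1) + c))

theorem mem_Om {n p c : ℕ} : c ∈ Om n p ↔
    c < p ∧ c ≠ 0 ∧ (c ≡ n * (n - 1) [MOD p] ∨ p ∣ n * (n + 1) + c) := by
  unfold Om
  rw [mem_filter, mem_range]

theorem Om_lt (n p : ℕ) : ∀ c ∈ Om n p, c < p := fun _ hc => (mem_Om.1 hc).1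

theorem Om_zero (n p : ℕ) : 0 ∉ Om n p := fun h => (mem_Om.1 h).2.1 rfl

private theorem snd_eq {m p c : ℕ} (hc : c < p) (h : p ∣ m + c) : c = (p - m % p) % p := by
  have h1 : (m % p + c) % p = 0 := by
    rw [Nat.mod_add_mod]
    exact Nat.mod_eq_zero_of_dvd h
  have h2 : m % p < p := Nat.mod_lt _ (by omega)
  rcases Nat.lt_or_ge (m % p + c) p with h3 | h3
  · rw [Nat.mod_eq_of_lt h3] at h1
    have h4 : m % p = 0 := by omega
    have h5 : c = 0 := by omega
    rw [h4, h5]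
    simp
  · have h4 : (m % p + c - p) % p = 0 := by
      rw [← Nat.mod_eq_sub_mod h3]
      exact h1
    rw [Nat.mod_eq_of_lt (by omega)] at h4
    rw [Nat.mod_eq_of_lt (by omega)]
    omega

theorem card_Om_le (n p : ℕ) : (Om n p).card ≤ 2 := by
  have h : Om n p ⊆ {(n * (n - 1)) % p, (p - (n * (n + 1)) % p) % p} := by
    intro c hc
    obtain ⟨h1, -, h3⟩ := mem_Om.1 hc
    rw [mem_insert, mem_singleton]
    rcases h3 with h3 | h3
    · left
      unfold Nat.ModEq at h3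
      rw [Nat.mod_eq_of_lt h1] at h3
      exact h3
    · right
      exact snd_eq h1 h3
  exact (card_le_card h).trans card_le_two

/-- a class that is not removed -/
theorem not_dvd {n x q : ℕ} (hn : 4 ≤ n) (hx : x.Prime) (h1 : x < 2 * n) (hq : q.Prime)
    (hqx : q < x) (h : x % q ∉ Om n q) : ¬ q ∣ (n ^ 2 - n - x) * (n ^ 2 + n + x) := by
  intro hd
  have hx0 : x % q ≠ 0 := by
    intro h0
    have := (Nat.prime_dvd_prime_iff_eq hq hx).1 (Nat.dvd_of_mod_eq_zero h0)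
    omega
  apply h
  rw [mem_Om]
  refine ⟨Nat.mod_lt _ hq.pos, hx0, ?_⟩
  have e1 : n ^ 2 - n = n * (n - 1) := by
    rw [Nat.mul_sub, mul_one, sq]
  have e2 : n ^ 2 + n + x = n * (n + 1) + x := by ring
  rcases (Nat.Prime.dvd_mul hq).1 hd with h2 | h2
  · left
    have h3 : x ≤ n * (n - 1) := by
      have : 2 ≤ n - 1 := by omega
      nlinarith
    rw [e1] at h2
    have h4 : x ≡ n * (n - 1) [MOD q] := (Nat.modEq_iff_dvd' h3).2 h2
    exact (Nat.mod_modEq x q).trans h4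
  · right
    rw [e2] at h2
    have h4 : (n * (n + 1) + x % q) % q = 0 := by
      rw [Nat.add_mod_mod]
      exact Nat.mod_eq_zero_of_dvd h2
    exact Nat.dvd_of_mod_eq_zero h4

/-- the converse -/
theorem dvd_of_mem {n x q : ℕ} (hn : 4 ≤ n) (h1 : x < 2 * n) (h : x % q ∈ Om n q) :
    q ∣ n ^ 2 - n - x ∨ q ∣ n ^ 2 + n + x := by
  obtain ⟨-, -, h2⟩ := mem_Om.1 h
  have e1 : n ^ 2 - n = n * (n - 1) := by
    rw [Nat.mul_sub, mul_one, sq]
  have e2 : n ^ 2 + n + x = n * (n + 1) + x := by ring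
  rcases h2 with h2 | h2
  · left
    have h3 : x ≤ n * (n - 1) := by
      have : 2 ≤ n - 1 := by omega
      nlinarith
    rw [e1]
    exact (Nat.modEq_iff_dvd' h3).1 ((Nat.mod_modEq x q).symm.trans h2)
  · right
    rw [e2]
    have h4 : (n * (n + 1) + x) % q = 0 := by
      rw [← Nat.add_mod_mod]
      exact Nat.mod_eq_zero_of_dvd h2
    exact Nat.dvd_of_mod_eq_zero h4

end Pool.Agent.Lib.MP_d06d57_nt
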