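import Pool.Agent.Lib.MTR.FL
import Pool.Agent.Lib.BV.Main
import Pool.Agent.Lib.MP_092512_nt.P3.B4
import Pool.Agent.Lib.MP_d06d57_nt.Defs

/-!
# MP_d06d57_nt, Core: the sieve of dimension `k` on the primes in `(X, 2X]`

`Ω p` is a set of at most `k` nonzero classes mod `p`. The primes `x` in `(X, 2X]`, `x ≡ a` mod `L`, with
`x % p ∉ Ω p` for all primes `p` with `4k + 4 < p ≤ X^δ`, weighted with `log x`, are counted up to constant
factors, uniformly in all `Ω`. Copy of `Lib/MP_092512_nt/DZ/Low.lean` with `BV.th` in place of `BV.FB g` and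
`BV.bvp` in place of `BV.bvb`.
-/

set_option autoImplicit false

open Finset

namespace Pool.Agent.Lib.MP_d06d57_nt

open Pool.Agent.Lib.MT Pool.Agent.Lib.MTR

/-! ### the worst reduced class -/

private theorem low_mod (F : ℕ → ℝ) (Y q c : ℕ) : BV.EE F Y q c = BV.EE F Y q (c % q) := by
  unfold BV.EE
  have h1 : (Icc 1 Y).filter (fun n => n ≡ c [MOD q]) =
      (Icc 1 Y).filter (fun n => n ≡ c % q [MOD q]) := by
    refine filter_congr (fun n _ => ?_)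
    have h2 : c % q ≡ c [MOD q] := Nat.mod_modEq c q
    exact ⟨fun h => h.trans h2.symm, fun h => h.trans h2⟩
  rw [h1]

private theorem low_worst (F : ℕ → ℝ) (Y q : ℕ) : ∃ l : ℕ, 1 ≤ q →
    (l.Coprime q ∧ ∀ c : ℕ, c.Coprime q → |BV.EE F Y q c| ≤ |BV.EE F Y q l|) := by
  by_cases hq : 1 ≤ q
  · have hne : ((range q).filter (fun c => c.Coprime q)).Nonempty := by
      refine ⟨1 % q, ?_⟩
      rw [mem_filter, mem_range]
      refine ⟨Nat.mod_lt _ hq, ?_⟩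
      have : Nat.Coprime 1 q := Nat.coprime_one_left q
      rw [Nat.Coprime, ← Nat.gcd_rec, Nat.gcd_comm]
      exact this
    obtain ⟨l, hl, hmax⟩ := exists_max_image _ (fun c => |BV.EE F Y q c|) hne
    refine ⟨l, fun _ => ⟨(mem_filter.mp hl).2, fun c hc => ?_⟩⟩
    rw [low_mod F Y q c]
    refine hmax (c % q) ?_
    rw [mem_filter, mem_range]
    refine ⟨Nat.mod_lt _ hq, ?_⟩
    rw [Nat.Coprime, ← Nat.gcd_rec, Nat.gcd_comm]
    exact hc
  · exact ⟨0, fun h => absurd h hq⟩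

private theorem low_diff (f : ℕ → ℝ) (A B : ℕ) (hAB : A ≤ B) :
    ∑ n ∈ Ioc A B, f n = ∑ n ∈ Icc 1 B, f n - ∑ n ∈ Icc 1 A, f n := by
  have h1 : Icc 1 B = Icc 1 A ∪ Ioc A B := by
    ext n
    simp only [mem_union, mem_Icc, mem_Ioc]
    omega
  have h2 : Disjoint (Icc 1 A) (Ioc A B) := by
    rw [disjoint_left]
    intro n hn hn'
    rw [mem_Icc] at hn
    rw [mem_Ioc] at hn'
    omega
  rw [h1, sum_union h2]
  ring

/-- one residue class -/
private theorem low_class (F : ℕ → ℝ) (X q c : ℕ) (hc : c < q)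
    (hF : ∀ x ∈ Ioc X (2 * X), F x ≠ 0 → x.Coprime q) :
    ∑ n ∈ (Ioc X (2 * X)).filter (fun n => n % q = c), F n =
      (1 / (q.totient : ℝ)) * ∑ n ∈ Ioc X (2 * X), F n +
        (BV.EE F (2 * X) q c - BV.EE F X q c) := by
  have h0 : (Ioc X (2 * X)).filter (fun n => n % q = c) =
      (Ioc X (2 * X)).filter (fun n => n ≡ c [MOD q]) := by
    refine filter_congr fun n _ => ?_
    unfold Nat.ModEq
    rw [Nat.mod_eq_of_lt hc]
  have h1 : ∑ n ∈ (Ioc X (2 * X)).filter (fun n => n ≡ c [MOD q]), F n =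
      ∑ n ∈ (Icc 1 (2 * X)).filter (fun n => n ≡ c [MOD q]), F n -
        ∑ n ∈ (Icc 1 X).filter (fun n => n ≡ c [MOD q]), F n := by
    rw [sum_filter, sum_filter, sum_filter]
    exact low_diff _ X (2 * X) (by omega)
  have h2 : ∑ n ∈ Ioc X (2 * X), F n =
      ∑ n ∈ (Icc 1 (2 * X)).filter (fun n => n.Coprime q), F n -
        ∑ n ∈ (Icc 1 X).filter (fun n => n.Coprime q), F n := by
    rw [sum_filter, sum_filter, ← low_diff _ X (2 * X) (by omega)]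
    refine sum_congr rfl fun n hn => ?_
    by_cases hp : F n = 0
    · rw [hp, ite_self]
    · rw [if_pos (hF n hn hp)]
  rw [h0, h1, h2]
  unfold BV.EE
  ring

private theorem low_tot (d : Finset ℕ) (hd : ∀ p ∈ d, p.Prime) :
    ((∏ p ∈ d, p).totient : ℝ) = ∏ p ∈ d, ((p : ℝ) - 1) := by
  classical
  induction d using Finset.induction_on with
  | empty => simp
  | insert p U hp ih =>
    have hpp := hd p (mem_insert_self p U)
    have hU : ∀ q ∈ U, q.Prime := fun q hq => hd q (mem_insert_of_mem hq)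
    have hcop : Nat.Coprime p (∏ q ∈ U, q) := by
      refine Nat.Coprime.prod_right fun q hq => ?_
      rw [Nat.coprime_primes hpp (hU q hq)]
      rintro rfl
      exact hp hq
    rw [prod_insert hp, prod_insert hp, Nat.totient_mul hcop, Nat.totient_prime hpp, Nat.cast_mul,
      ih hU, Nat.cast_sub hpp.one_le, Nat.cast_one]

/-- the sum over the classes of one `d` -/
private theorem low_one (F : ℕ → ℝ) (X k L a : ℕ) (hLk : L ∣ LL k) (ha : a < L) (haL : a.Coprime L)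
    (Ω : ℕ → Finset ℕ)
    (d : Finset ℕ) (hd : ∀ p ∈ d, p.Prime ∧ 4 * k + 4 < p) (hΩ : ∀ p, ∀ c ∈ Ω p, c < p)
    (hΩ0 : ∀ p, 0 ∉ Ω p)
    (hF : ∀ x ∈ Ioc X (2 * X), F x ≠ 0 → x.Coprime ((∏ p ∈ d, p) * L))
    (W1 W2 : ℝ)
    (hW1 : ∀ c : ℕ, c.Coprime ((∏ p ∈ d, p) * L) →
      |BV.EE F (2 * X) ((∏ p ∈ d, p) * L) c| ≤ W1)
    (hW2 : ∀ c : ℕ, c.Coprime ((∏ p ∈ d, p) * L) →
      |BV.EE F X ((∏ p ∈ d, p) * L) c| ≤ W2) :
    |∑ x ∈ (Ioc X (2 * X)).filter (fun x => x % L = a ∧ ∀ p ∈ d, x % p ∈ Ω p), F x -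
      (∑ x ∈ Ioc X (2 * X), F x) / L.totient * ∏ p ∈ d, d2 Ω p| ≤
      (∏ p ∈ d, ((Ω p).card : ℝ)) * (W1 + W2) := by
  classical
  have hL : 0 < L := by omega
  have hcopL : ∀ p ∈ d, Nat.Coprime p L := by
    intro p hp
    rw [(hd p hp).1.coprime_iff_not_dvd]
    intro h
    have := LL_prime (hd p hp).1 (h.trans hLk)
    have := (hd p hp).2
    omega
  obtain ⟨C, hC1, hC2, hC3⟩ := Pool.Agent.Lib.MP_092512_nt.P3.B.crt_classes d (fun p hp => (hd p hp).1) Ω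
    (fun p _ => hΩ p) L a hL ha hcopL
  set M := (∏ p ∈ d, p) * L with hM
  have hD0 : 0 < ∏ p ∈ d, p := prod_pos fun p hp => (hd p hp).1.pos
  have hM0 : 0 < M := Nat.mul_pos hD0 hL
  have hfil : (Ioc X (2 * X)).filter (fun x => x % L = a ∧ ∀ p ∈ d, x % p ∈ Ω p) =
      (Ioc X (2 * X)).filter (fun x => x % M ∈ C) := by
    refine filter_congr fun x _ => ?_
    rw [← hC3 x]
    exact and_comm
  have hdec : ∑ x ∈ (Ioc X (2 * X)).filter (fun x => x % M ∈ C), F x =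
      ∑ r ∈ C, ∑ x ∈ (Ioc X (2 * X)).filter (fun x => x % M = r), F x := by
    rw [← sum_fiberwise_of_maps_to (s := (Ioc X (2 * X)).filter (fun x => x % M ∈ C)) (t := C)
      (g := fun x => x % M) (fun x hx => (mem_filter.1 hx).2)]
    refine sum_congr rfl fun r hr => ?_
    rw [filter_filter]
    refine sum_congr (filter_congr fun x _ => ?_) fun _ _ => rfl
    constructor
    · exact fun h => h.2
    · exact fun h => ⟨by rw [h]; exact hr, h⟩
  have hrcop : ∀ r ∈ C, r.Coprime M := by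
    intro r hr
    have hrM : r < M := mem_range.1 (hC1 hr)
    have h1 := (hC3 r).2 (by rw [Nat.mod_eq_of_lt hrM]; exact hr)
    refine Nat.Coprime.mul_right ?_ ?_
    · refine Nat.Coprime.prod_right fun p hp => ?_
      rw [Nat.coprime_comm, (hd p hp).1.coprime_iff_not_dvd]
      intro h2
      have h3 := h1.1 p hp
      rw [Nat.mod_eq_zero_of_dvd h2] at h3
      exact hΩ0 p h3
    · have h4 : r ≡ a [MOD L] := by
        unfold Nat.ModEq
        rw [h1.2, Nat.mod_eq_of_lt ha]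
      rw [Nat.Coprime, h4.gcd_eq]
      exact haL
  have hcls : ∀ r ∈ C, ∑ x ∈ (Ioc X (2 * X)).filter (fun x => x % M = r), F x =
      (1 / (M.totient : ℝ)) * ∑ n ∈ Ioc X (2 * X), F n +
        (BV.EE F (2 * X) M r - BV.EE F X M r) := fun r hr =>
    low_class F X M r (mem_range.1 (hC1 hr)) hF
  have htot : (M.totient : ℝ) = L.totient * ∏ p ∈ d, ((p : ℝ) - 1) := by
    rw [hM, Nat.totient_mul (Nat.Coprime.prod_left hcopL), Nat.cast_mul,
      low_tot d (fun p hp => (hd p hp).1), mul_comm]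
  rw [hfil, hdec, sum_congr rfl hcls, sum_add_distrib, sum_const, nsmul_eq_mul, hC2]
  have hmain : ((∏ p ∈ d, (Ω p).card : ℕ) : ℝ) *
      ((1 / (M.totient : ℝ)) * ∑ n ∈ Ioc X (2 * X), F n) =
      (∑ x ∈ Ioc X (2 * X), F x) / L.totient * ∏ p ∈ d, d2 Ω p := by
    unfold d2
    rw [prod_div_distrib, htot, Nat.cast_prod]
    generalize ∏ p ∈ d, ((Ω p).card : ℝ) = a'
    generalize ∏ p ∈ d, ((p : ℝ) - 1) = b
    generalize (L.totient : ℝ) = c
    generalize ∑ n ∈ Ioc X (2 * X), F n = e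
    rw [one_div, mul_inv]
    ring
  rw [hmain, add_sub_cancel_left]
  have hsum : |∑ r ∈ C, (BV.EE F (2 * X) M r - BV.EE F X M r)| ≤ ∑ r ∈ C, (W1 + W2) := by
    refine (abs_sum_le_sum_abs _ _).trans (sum_le_sum fun r hr => ?_)
    exact (abs_sub _ _).trans (add_le_add (hW1 r (hrcop r hr)) (hW2 r (hrcop r hr)))
  refine hsum.trans (le_of_eq ?_)
  rw [sum_const, nsmul_eq_mul, hC2, Nat.cast_prod]

/-- the moduli of different `d` are different -/
private theorem low_inj {L : ℕ} (hL : 0 < L) {D : Finset (Finset ℕ)} (hD : ∀ d ∈ D, ∀ p ∈ d, p.Prime) :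
    Set.InjOn (fun d : Finset ℕ => (∏ p ∈ d, p) * L) (D : Set (Finset ℕ)) := by
  intro a ha b hb hab
  dsimp only at hab
  have h1 := Nat.eq_of_mul_eq_mul_right hL hab
  have h2 := Nat.primeFactors_prod (hD a ha)
  have h3 := Nat.primeFactors_prod (hD b hb)
  rw [← h2, ← h3, h1]

/-- the sum of the errors over the family `D` -/
private theorem low_err {k Y L : ℕ} (hL : 0 < L) (hk : 1 ≤ k) {D : Finset (Finset ℕ)}
    (hD : ∀ d ∈ D, ∀ p ∈ d, p.Prime) (hY : ∀ d ∈ D, ∏ p ∈ d, p ≤ Y) (W : ℕ → ℝ)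
    (hW : ∀ q, 0 ≤ W q) :
    ∑ d ∈ D, (k : ℝ) ^ d.card * W ((∏ p ∈ d, p) * L) ≤
      ∑ q ∈ Icc 1 (Y * L), (k : ℝ) ^ q.primeFactors.card * W q := by
  classical
  have hk1 : (1 : ℝ) ≤ k := by exact_mod_cast hk
  have hpos : ∀ d ∈ D, 0 < ∏ p ∈ d, p := fun d hd => prod_pos fun p hp => (hD d hd p hp).pos
  calc ∑ d ∈ D, (k : ℝ) ^ d.card * W ((∏ p ∈ d, p) * L)
      ≤ ∑ d ∈ D, (k : ℝ) ^ ((∏ p ∈ d, p) * L).primeFactors.card *
          W ((∏ p ∈ d, p) * L) := by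
        refine sum_le_sum fun d hd => mul_le_mul_of_nonneg_right ?_ (hW _)
        refine pow_le_pow_right₀ hk1 (card_le_card fun p hp => ?_)
        rw [Nat.mem_primeFactors]
        exact ⟨hD d hd p hp, (dvd_prod_of_mem _ hp).mul_right _,
          (Nat.mul_pos (hpos d hd) hL).ne'⟩
    _ = ∑ q ∈ D.image (fun d : Finset ℕ => (∏ p ∈ d, p) * L),
          (k : ℝ) ^ q.primeFactors.card * W q := by
        rw [sum_image (low_inj hL hD)]
    _ ≤ _ := by
        refine sum_le_sum_of_subset_of_nonneg ?_ ?_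
        · intro q hq
          rw [mem_image] at hq
          obtain ⟨d, hd, rfl⟩ := hq
          rw [mem_Icc]
          exact ⟨Nat.mul_pos (hpos d hd) hL, Nat.mul_le_mul_right _ (hY d hd)⟩
        · intro q _ _
          exact mul_nonneg (by positivity) (hW q)

theorem th_ne {X x p : ℕ} (hx : x ∈ Ioc X (2 * X)) (h : BV.th x ≠ 0) (hp : p.Prime) (hpx : p ∣ x) :
    X < p := by
  unfold BV.th at h
  have h1 : x.Prime := by
    by_contra h2
    exact h (if_neg h2)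
  rw [(Nat.prime_dvd_prime_iff_eq hp h1).1 hpx]
  exact (mem_Ioc.1 hx).1

theorem th_nn (x : ℕ) : 0 ≤ BV.th x := by
  unfold BV.th
  split_ifs
  · exact Real.log_natCast_nonneg x
  · exact le_rfl

/-- the expansion of the sieve weights -/
theorem expand (k : ℕ) (hk : 1 ≤ k) (s : ℕ) (δ ε : ℝ) (hδ : 0 < δ) (hε : 0 < ε)
    (hδs : δ * s + 2 * ε ≤ 1 / 2) (hδ1 : δ ≤ 1) (A : ℕ) :
    ∃ X₀ : ℕ, ∀ X : ℕ, X₀ ≤ X → 2 ≤ yy δ X ∧
    ∀ Ω : ℕ → Finset ℕ, (∀ p, ∀ c ∈ Ω p, c < p) → (∀ p, 0 ∉ Ω p) → (∀ p, (Ω p).card ≤ k) →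
    ∀ L a : ℕ, L ∣ LL k → a < L → a.Coprime L →
    ∀ (D : Finset (Finset ℕ)) (c : Finset ℕ → ℝ),
      (∀ d ∈ D, d ⊆ QQ k (yy δ X) ∧ ∏ q ∈ d, q ≤ (yy δ X) ^ s) →
      (∀ d ∈ D, |c d| ≤ 2 + 2 * Real.log (yy δ X)) →
      |∑ x ∈ (Ioc X (2 * X)).filter (fun x => x % L = a), BV.th x * Lm D c Ω x -
        (∑ x ∈ Ioc X (2 * X), BV.th x) / L.totient * Gm D c (d2 Ω)| ≤
        (X : ℝ) / (Real.log X) ^ A := by
  classical
  obtain ⟨X1, hbv⟩ := BV.bvp (A + 3) k ε hε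
  have hlim1 : Filter.Tendsto (fun X : ℕ => (X : ℝ) ^ δ) Filter.atTop Filter.atTop :=
    (tendsto_rpow_atTop hδ).comp tendsto_natCast_atTop_atTop
  have hlim2 : Filter.Tendsto (fun X : ℕ => (X : ℝ) ^ ε) Filter.atTop Filter.atTop :=
    (tendsto_rpow_atTop hε).comp tendsto_natCast_atTop_atTop
  have hlim3 : Filter.Tendsto (fun X : ℕ => Real.log (X : ℝ)) Filter.atTop Filter.atTop :=
    Real.tendsto_log_atTop.comp tendsto_natCast_atTop_atTop
  obtain ⟨X₀, hX₀⟩ := Filter.eventually_atTop.1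
    (((hlim1.eventually_ge_atTop ((4 * k + 5 : ℕ) : ℝ)).and
      (hlim2.eventually_ge_atTop ((LL k : ℕ) : ℝ))).and (hlim3.eventually_ge_atTop 4))
  refine ⟨max X₀ (max X1 2), fun X hX => ?_⟩
  have hXX₀ : X₀ ≤ X := (le_max_left _ _).trans hX
  have hXX1 : X1 ≤ X := (le_max_left _ _).trans ((le_max_right _ _).trans hX)
  have hX2 : 2 ≤ X := (le_max_right _ _).trans ((le_max_right _ _).trans hX)
  obtain ⟨⟨hA, hB⟩, hC⟩ := hX₀ X hXX₀
  have hX2r : (2 : ℝ) ≤ X := by exact_mod_cast hX2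
  have hX1r : (1 : ℝ) ≤ X := by linarith
  have hX0r : (0 : ℝ) < X := by linarith
  set y := yy δ X with hy
  have hyle : (y : ℝ) ≤ (X : ℝ) ^ δ := by
    rw [hy]
    unfold yy
    exact Nat.floor_le (by positivity)
  have hylt : (X : ℝ) ^ δ < (y : ℝ) + 1 := by
    rw [hy]
    unfold yy
    exact Nat.lt_floor_add_one _
  have hyk : 4 * k + 4 < y + 1 := by
    have : ((4 * k + 5 : ℕ) : ℝ) < ((y + 1 : ℕ) : ℝ) := by push_cast at hA hylt ⊢; linarith
    have := Nat.cast_lt.1 this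
    omega
  have hy2 : 2 ≤ y := by omega
  have hyX : (y : ℝ) ≤ X := by
    refine hyle.trans ?_
    calc (X : ℝ) ^ δ ≤ (X : ℝ) ^ (1 : ℝ) := Real.rpow_le_rpow_of_exponent_le hX1r hδ1
      _ = X := Real.rpow_one _
  have hyXn : y ≤ X := by exact_mod_cast hyX
  refine ⟨hy2, fun Ω hΩlt hΩ0 hΩk L a hLk ha haL D c hD hc => ?_⟩
  set F := BV.th with hF
  have hF0 : ∀ x, 0 ≤ F x := fun x => th_nn x
  have hFp : ∀ x ∈ Ioc X (2 * X), F x ≠ 0 → ∀ p : ℕ, p.Prime → p ∣ x → y < p := by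
    intro x hx hx0 p hp hpx
    exact lt_of_le_of_lt hyXn (th_ne hx hx0 hp hpx)
  have hL : 0 < L := by omega
  have hDp : ∀ d ∈ D, ∀ p ∈ d, p.Prime ∧ 4 * k + 4 < p ∧ p ≤ y := fun d hd p hp =>
    mem_QQ ((hD d hd).1 hp)
  -- expansion
  have hexp : ∑ x ∈ (Ioc X (2 * X)).filter (fun x => x % L = a), F x * Lm D c Ω x =
      ∑ d ∈ D, c d * ∑ x ∈ (Ioc X (2 * X)).filter
        (fun x => x % L = a ∧ ∀ p ∈ d, x % p ∈ Ω p), F x := by
    unfold Lm
    simp only [mul_sum]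
    rw [sum_comm]
    refine sum_congr rfl fun d _ => ?_
    rw [sum_filter, sum_filter]
    refine sum_congr rfl fun x _ => ?_
    by_cases h1 : x % L = a
    · by_cases h2 : ∀ p ∈ d, x % p ∈ Ω p
      · rw [if_pos h1, if_pos h2, if_pos ⟨h1, h2⟩]
        ring
      · rw [if_pos h1, if_neg h2, if_neg (fun h => h2 h.2)]
        ring
    · rw [if_neg h1, if_neg (fun h => h1 h.1)]
  rw [hexp]
  -- the worst classes
  choose l hl using low_worst F
  set W1 : ℕ → ℝ := fun q => |BV.EE F (2 * X) q (l (2 * X) q)| with hW1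
  set W2 : ℕ → ℝ := fun q => |BV.EE F X q (l X q)| with hW2
  have hMpos : ∀ d ∈ D, 1 ≤ (∏ p ∈ d, p) * L := fun d hd =>
    Nat.mul_pos (prod_pos fun p hp => (hDp d hd p hp).1.pos) hL
  have hone : ∀ d ∈ D, |∑ x ∈ (Ioc X (2 * X)).filter
      (fun x => x % L = a ∧ ∀ p ∈ d, x % p ∈ Ω p), F x -
      (∑ x ∈ Ioc X (2 * X), F x) / L.totient * ∏ p ∈ d, d2 Ω p| ≤
      (∏ p ∈ d, ((Ω p).card : ℝ)) * (W1 ((∏ p ∈ d, p) * L) + W2 ((∏ p ∈ d, p) * L)) := by
    intro d hd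
    refine low_one F X k L a hLk ha haL Ω d (fun p hp => ⟨(hDp d hd p hp).1, (hDp d hd p hp).2.1⟩)
      hΩlt hΩ0 ?_ _ _ ?_ ?_
    · intro x hx hx0
      refine Nat.Coprime.mul_right ?_ ?_
      · refine Nat.Coprime.prod_right fun p hp => ?_
        rw [Nat.coprime_comm, (hDp d hd p hp).1.coprime_iff_not_dvd]
        intro h
        have h1 := hFp x hx hx0 p (hDp d hd p hp).1 h
        have h2 := (hDp d hd p hp).2.2
        omega
      · refine Nat.Coprime.symm (Nat.coprime_of_dvd fun p hp h1 h2 => ?_)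
        have h3 := LL_prime hp (h1.trans hLk)
        have h4 := hFp x hx hx0 p hp h2
        omega
    · exact fun c hc => (hl (2 * X) _ (hMpos d hd)).2 c hc
    · exact fun c hc => (hl X _ (hMpos d hd)).2 c hc
  have hOk : ∀ p, ((Ω p).card : ℝ) ≤ k := by
    intro p
    exact_mod_cast hΩk p
  -- the error
  have hlogy : Real.log y ≤ Real.log X := Real.log_le_log (by positivity) hyX
  have hlogy0 : 0 ≤ Real.log y := Real.log_natCast_nonneg y
  have hLle : (L : ℝ) ≤ (LL k : ℝ) := by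
    exact_mod_cast Nat.le_of_dvd (LL_pos k) hLk
  have hWsum : ∀ Y : ℕ, X ≤ Y → Y ≤ 2 * X →
      ∑ q ∈ Icc 1 (y ^ s * L), (k : ℝ) ^ q.primeFactors.card *
        |BV.EE F Y q (l Y q)| ≤ 2 * X / (Real.log X) ^ (A + 3) := by
    intro Y hY hY2
    have hYr : (X : ℝ) ≤ Y := by exact_mod_cast hY
    have hY2r : (Y : ℝ) ≤ 2 * X := by exact_mod_cast hY2
    have hY0 : (0 : ℝ) < Y := by linarith
    have hY1 : (1 : ℝ) ≤ Y := by linarith
    have e0 : 0 ≤ δ * s := mul_nonneg hδ.le (Nat.cast_nonneg s)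
    have e1 : ((y ^ s * L : ℕ) : ℝ) ≤ (Y : ℝ) ^ (1 / 2 - ε : ℝ) := by
      push_cast
      calc (y : ℝ) ^ s * (L : ℝ) ≤ (X : ℝ) ^ (δ * s) * (X : ℝ) ^ ε := by
            refine mul_le_mul ?_ (hLle.trans hB) (Nat.cast_nonneg _) (by positivity)
            calc (y : ℝ) ^ s ≤ ((X : ℝ) ^ δ) ^ s := pow_le_pow_left₀ (Nat.cast_nonneg y) hyle s
              _ = (X : ℝ) ^ (δ * s) := by rw [Real.rpow_mul hX0r.le, Real.rpow_natCast]
        _ = (X : ℝ) ^ (δ * s + ε) := (Real.rpow_add hX0r _ _).symm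
        _ ≤ (X : ℝ) ^ (1 / 2 - ε) := Real.rpow_le_rpow_of_exponent_le hX1r (by linarith)
        _ ≤ (Y : ℝ) ^ (1 / 2 - ε) := Real.rpow_le_rpow hX0r.le hYr (by linarith)
    have e2 := hbv Y (by omega) (y ^ s * L) e1
      (l Y) (fun q hq => (hl Y q (mem_Icc.1 hq).1).1)
    refine e2.trans ?_
    have e3 : Real.log X ≤ Real.log Y := Real.log_le_log hX0r hYr
    have e4 : 0 < Real.log X := by linarith
    refine div_le_div₀ (by positivity) hY2r (by positivity) ?_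
    exact pow_le_pow_left₀ e4.le e3 _
  have herr : ∑ d ∈ D, |c d| * ((∏ p ∈ d, ((Ω p).card : ℝ)) *
      (W1 ((∏ p ∈ d, p) * L) + W2 ((∏ p ∈ d, p) * L))) ≤ X / (Real.log X) ^ A := by
    have h1 : ∑ d ∈ D, |c d| * ((∏ p ∈ d, ((Ω p).card : ℝ)) *
        (W1 ((∏ p ∈ d, p) * L) + W2 ((∏ p ∈ d, p) * L))) ≤
        ∑ d ∈ D, (2 + 2 * Real.log y) * ((k : ℝ) ^ d.card *
        (W1 ((∏ p ∈ d, p) * L) + W2 ((∏ p ∈ d, p) * L))) := by
      refine sum_le_sum fun d hd => ?_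
      have hW0 : 0 ≤ W1 ((∏ p ∈ d, p) * L) + W2 ((∏ p ∈ d, p) * L) :=
        add_nonneg (abs_nonneg _) (abs_nonneg _)
      refine mul_le_mul (hc d hd) ?_ ?_ (by positivity)
      · refine mul_le_mul_of_nonneg_right ?_ hW0
        calc ∏ p ∈ d, ((Ω p).card : ℝ) ≤ ∏ _p ∈ d, (k : ℝ) :=
              prod_le_prod (fun _ _ => Nat.cast_nonneg _) fun p hp => hOk p
          _ = (k : ℝ) ^ d.card := by rw [prod_const]
      · exact mul_nonneg (prod_nonneg fun _ _ => Nat.cast_nonneg _) hW0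
    rw [← mul_sum] at h1
    have h2 := low_err (Y := y ^ s) hL hk (fun d hd p hp => (hDp d hd p hp).1)
      (fun d hd => (hD d hd).2) (fun q => W1 q + W2 q)
      (fun q => add_nonneg (abs_nonneg _) (abs_nonneg _))
    have h3 := hWsum (2 * X) (by omega) le_rfl
    have h4 := hWsum X le_rfl (by omega)
    have h5 : ∑ q ∈ Icc 1 (y ^ s * L), (k : ℝ) ^ q.primeFactors.card * (W1 q + W2 q) ≤
        4 * X / (Real.log X) ^ (A + 3) := by
      have h6 : ∑ q ∈ Icc 1 (y ^ s * L), (k : ℝ) ^ q.primeFactors.card * (W1 q + W2 q) =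
          ∑ q ∈ Icc 1 (y ^ s * L), (k : ℝ) ^ q.primeFactors.card * W1 q +
          ∑ q ∈ Icc 1 (y ^ s * L), (k : ℝ) ^ q.primeFactors.card * W2 q := by
        rw [← sum_add_distrib]
        exact sum_congr rfl fun q _ => mul_add _ _ _
      rw [h6]
      refine (add_le_add h3 h4).trans (le_of_eq ?_)
      ring
    have e4 : 0 < Real.log X := by linarith
    calc _ ≤ _ := h1
      _ ≤ (2 + 2 * Real.log y) * (4 * X / (Real.log X) ^ (A + 3)) :=
          mul_le_mul_of_nonneg_left (h2.trans h5) (by linarith)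
      _ ≤ (4 * Real.log X) * (4 * X / (Real.log X) ^ (A + 3)) :=
          mul_le_mul_of_nonneg_right (by linarith) (by positivity)
      _ ≤ X / (Real.log X) ^ A := by
          have h7 : (4 * Real.log X) * (4 * X / (Real.log X) ^ (A + 3)) =
              (16 / (Real.log X) ^ 2) * (X / (Real.log X) ^ A) := by
            rw [pow_add]
            field_simp
            ring
          rw [h7]
          have h8 : 16 / (Real.log X) ^ 2 ≤ 1 := by
            rw [div_le_one (by positivity)]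
            nlinarith
          calc (16 / (Real.log X) ^ 2) * (X / (Real.log X) ^ A) ≤ 1 * (X / (Real.log X) ^ A) :=
                mul_le_mul_of_nonneg_right h8 (by positivity)
            _ = _ := one_mul _
  refine le_trans ?_ herr
  have h1 : ∑ d ∈ D, c d * ∑ x ∈ (Ioc X (2 * X)).filter
        (fun x => x % L = a ∧ ∀ p ∈ d, x % p ∈ Ω p), F x -
      (∑ x ∈ Ioc X (2 * X), F x) / L.totient * Gm D c (d2 Ω) =
      ∑ d ∈ D, c d * (∑ x ∈ (Ioc X (2 * X)).filter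
        (fun x => x % L = a ∧ ∀ p ∈ d, x % p ∈ Ω p), F x -
        (∑ x ∈ Ioc X (2 * X), F x) / L.totient * ∏ p ∈ d, d2 Ω p) := by
    unfold Gm
    rw [mul_sum, ← sum_sub_distrib]
    exact sum_congr rfl fun d _ => by ring
  rw [h1]
  refine (abs_sum_le_sum_abs _ _).trans (sum_le_sum fun d hd => ?_)
  rw [abs_mul]
  exact mul_le_mul_of_nonneg_left (hone d hd) (abs_nonneg _)

/-- **The sieve on the primes of `(X, 2X]`, in the class `a` mod `L`.** -/
theorem core (k : ℕ) (hk : 1 ≤ k) : ∃ δ1 : ℝ, 0 < δ1 ∧ δ1 ≤ 1 / 16 ∧ ∀ δ : ℝ, 0 < δ → δ ≤ δ1 →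
    ∀ A : ℕ, ∃ X₀ : ℕ, ∀ X : ℕ, X₀ ≤ X → 2 ≤ yy δ X ∧
    ∀ Ω : ℕ → Finset ℕ, (∀ p, ∀ c ∈ Ω p, c < p) → (∀ p, 0 ∉ Ω p) → (∀ p, (Ω p).card ≤ k) →
    ∀ L a : ℕ, L ∣ LL k → a < L → a.Coprime L →
      (1 / 2 * ((∑ x ∈ Ioc X (2 * X), BV.th x) / L.totient) *
          ∏ p ∈ QQ k (yy δ X), (1 - d2 Ω p) - (X : ℝ) / (Real.log X) ^ A ≤
        ∑ x ∈ (Ioc X (2 * X)).filter
          (fun x => x % L = a ∧ ∀ p ∈ QQ k (yy δ X), x % p ∉ Ω p), BV.th x) ∧
      ∑ x ∈ (Ioc X (2 * X)).filter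
          (fun x => x % L = a ∧ ∀ p ∈ QQ k (yy δ X), x % p ∉ Ω p), BV.th x ≤
        2 * ((∑ x ∈ Ioc X (2 * X), BV.th x) / L.totient) *
          ∏ p ∈ QQ k (yy δ X), (1 - d2 Ω p) + (X : ℝ) / (Real.log X) ^ A := by
  obtain ⟨s, hs, hfl⟩ := fl k
  have hs0 : (0 : ℝ) < 16 * s + 16 := by positivity
  have hδs : 1 / (16 * (s : ℝ) + 16) * s ≤ 1 / 16 := by
    rw [one_div, inv_mul_le_iff₀ hs0]
    linarith
  have hδ16 : 1 / (16 * (s : ℝ) + 16) ≤ 1 / 16 := by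
    rw [div_le_div_iff₀ hs0 (by norm_num)]
    have : (0 : ℝ) ≤ s := Nat.cast_nonneg s
    linarith
  refine ⟨1 / (16 * s + 16), by positivity, hδ16, fun δ hδ hδ1 A => ?_⟩
  obtain ⟨X₀, hX₀⟩ := expand k hk s δ (1 / 8) hδ (by norm_num)
    (by
      have := (mul_le_mul_of_nonneg_right hδ1 (Nat.cast_nonneg s)).trans hδs
      linarith) (by linarith) A
  refine ⟨X₀, fun X hX => ?_⟩
  obtain ⟨hy2, hex⟩ := hX₀ X hX
  set y := yy δ X with hy
  refine ⟨hy2, fun Ω hΩlt hΩ0 hΩk L a hLk ha haL => ?_⟩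
  obtain ⟨D, cp, cn, hD, hc, hpt, hGm⟩ := hfl y hy2 (QQ k y) (by
    intro q hq
    obtain ⟨h1, h2, h3⟩ := mem_QQ hq
    exact ⟨h1, by omega, h3⟩)
  have hp := hex Ω hΩlt hΩ0 hΩk L a hLk ha haL D cp hD (fun d hd => (hc d hd).1)
  have hn := hex Ω hΩlt hΩ0 hΩk L a hLk ha haL D cn hD (fun d hd => (hc d hd).2)
  have hOk : ∀ p, ((Ω p).card : ℝ) ≤ k := by
    intro p
    exact_mod_cast hΩk p
  obtain ⟨hG0, hG1, hG2⟩ := hGm (d2 Ω) (by
    intro q hq
    obtain ⟨h1, h2, h3⟩ := mem_QQ hq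
    have hq1 : (1 : ℝ) < q := by exact_mod_cast h1.one_lt
    have hq2 : (2 : ℝ) ≤ q := by exact_mod_cast h1.two_le
    unfold d2
    refine ⟨div_nonneg (Nat.cast_nonneg _) (by linarith), ?_⟩
    rw [div_le_div_iff₀ (by linarith) (by linarith)]
    have h4 := hOk q
    have hk0 : (0 : ℝ) ≤ k := Nat.cast_nonneg k
    nlinarith)
  have hT : 0 ≤ (∑ x ∈ Ioc X (2 * X), BV.th x) / (L.totient : ℝ) :=
    div_nonneg (sum_nonneg fun x _ => th_nn x) (Nat.cast_nonneg _)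
  have hsplit : ∑ x ∈ (Ioc X (2 * X)).filter
      (fun x => x % L = a ∧ ∀ p ∈ QQ k y, x % p ∉ Ω p), BV.th x =
      ∑ x ∈ (Ioc X (2 * X)).filter (fun x => x % L = a),
        BV.th x * (if ∀ p ∈ QQ k y, x % p ∉ Ω p then (1 : ℝ) else 0) := by
    rw [← filter_filter, sum_filter]
    refine sum_congr rfl fun x _ => ?_
    by_cases h : ∀ p ∈ QQ k y, x % p ∉ Ω p
    · rw [if_pos h, if_pos h, mul_one]
    · rw [if_neg h, if_neg h, mul_zero]
  rw [hsplit]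
  constructor
  · have h1 : ∑ x ∈ (Ioc X (2 * X)).filter (fun x => x % L = a), BV.th x * Lm D cn Ω x ≤
        ∑ x ∈ (Ioc X (2 * X)).filter (fun x => x % L = a),
          BV.th x * (if ∀ p ∈ QQ k y, x % p ∉ Ω p then (1 : ℝ) else 0) :=
      sum_le_sum fun x _ => mul_le_mul_of_nonneg_left (hpt Ω x).2 (th_nn x)
    have h2 := (abs_le.1 hn).1
    have h3 := mul_le_mul_of_nonneg_left hG2 hT
    have h4 : 1 / 2 * ((∑ x ∈ Ioc X (2 * X), BV.th x) / (L.totient : ℝ)) *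
        ∏ p ∈ QQ k y, (1 - d2 Ω p) = (∑ x ∈ Ioc X (2 * X), BV.th x) / (L.totient : ℝ) *
        (1 / 2 * ∏ p ∈ QQ k y, (1 - d2 Ω p)) := by ring
    rw [h4]
    linarith
  · have h1 : ∑ x ∈ (Ioc X (2 * X)).filter (fun x => x % L = a),
          BV.th x * (if ∀ p ∈ QQ k y, x % p ∉ Ω p then (1 : ℝ) else 0) ≤
        ∑ x ∈ (Ioc X (2 * X)).filter (fun x => x % L = a), BV.th x * Lm D cp Ω x :=
      sum_le_sum fun x _ => mul_le_mul_of_nonneg_left (hpt Ω x).1 (th_nn x)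
    have h2 := (abs_le.1 hp).2
    have h3 := mul_le_mul_of_nonneg_left hG1 hT
    have h4 : 2 * ((∑ x ∈ Ioc X (2 * X), BV.th x) / (L.totient : ℝ)) *
        ∏ p ∈ QQ k y, (1 - d2 Ω p) = (∑ x ∈ Ioc X (2 * X), BV.th x) / (L.totient : ℝ) *
        (2 * ∏ p ∈ QQ k y, (1 - d2 Ω p)) := by ring
    rw [h4]
    linarith

end Pool.Agent.Lib.MP_d06d57_nt
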