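import Pool.Agent.Lib.MP_d06d57_nt.Sharp
import Pool.Agent.Lib.MP_d06d57_nt.Core

/-!
# MP_d06d57_nt, Low: the lower bound on the primes of `(X, 2X]` up to the sieving level `X^(1/27)`

`fl2` (level `y^13`) for `y = X^(1/27)` and the Bombieri-Vinogradov theorem (`13/27 < 1/2`).
-/

set_option autoImplicit false

open Finset

namespace Pool.Agent.Lib.MP_d06d57_nt

open Pool.Agent.Lib.MT Pool.Agent.Lib.MTR

theorem low27 : ∃ k : ℕ, 2 ≤ k ∧ ∀ A : ℕ, ∃ X₀ : ℕ, ∀ X : ℕ, X₀ ≤ X →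
    ∀ Ω : ℕ → Finset ℕ, (∀ p, ∀ c ∈ Ω p, c < p) → (∀ p, 0 ∉ Ω p) → (∀ p, (Ω p).card ≤ 2) →
    ∀ L a : ℕ, L ∣ LL k → a < L → a.Coprime L →
      1 / 2 * ((∑ x ∈ Ioc X (2 * X), BV.th x) / L.totient) *
          ∏ p ∈ QQ k (yy (1 / (27 : ℕ)) X), (1 - d2 Ω p) - (X : ℝ) / (Real.log X) ^ A ≤
        ∑ x ∈ (Ioc X (2 * X)).filter
          (fun x => x % L = a ∧ ∀ p ∈ QQ k (yy (1 / (27 : ℕ)) X), x % p ∉ Ω p), BV.th x := by
  classical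
  obtain ⟨w, hw⟩ := fl2
  refine ⟨max 2 w, le_max_left _ _, fun A => ?_⟩
  set k := max 2 w with hk
  have hk2 : 2 ≤ k := le_max_left _ _
  have hkw : w ≤ k := le_max_right _ _
  obtain ⟨X₀, hX₀⟩ := expand k (by omega) 13 (1 / (27 : ℕ)) (1 / 120) (by norm_num) (by norm_num)
    (by norm_num) (by norm_num) A
  refine ⟨X₀, fun X hX => ?_⟩
  obtain ⟨hy2, hex⟩ := hX₀ X hX
  set y := yy (1 / (27 : ℕ)) X with hy
  intro Ω hΩlt hΩ0 hΩ2 L a hLk ha haL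
  obtain ⟨D, cn, hD, hc, hpt, hGm⟩ := hw y hy2 (QQ k y) (by
    intro q hq
    obtain ⟨h1, h2, h3⟩ := mem_QQ hq
    exact ⟨h1, by omega, h3⟩)
  have hn := hex Ω hΩlt hΩ0 (fun p => (hΩ2 p).trans hk2) L a hLk ha haL D cn hD hc
  have hO2 : ∀ p, ((Ω p).card : ℝ) ≤ 2 := by
    intro p
    exact_mod_cast hΩ2 p
  have hG2 := hGm (d2 Ω) (by
    intro q hq
    obtain ⟨h1, h2, h3⟩ := mem_QQ hq
    have hq1 : (1 : ℝ) < q := by exact_mod_cast h1.one_lt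
    unfold d2
    exact ⟨div_nonneg (Nat.cast_nonneg _) (by linarith),
      div_le_div_of_nonneg_right (hO2 q) (by linarith)⟩)
  have hT : 0 ≤ (∑ x ∈ Ioc X (2 * X), BV.th x) / (L.totient : ℝ) :=
    div_nonneg (sum_nonneg fun x _ => th_nn x) (Nat.cast_nonneg _)
  have hsplit : ∑ x ∈ (Ioc X (2 * X)).filter
      (fun x => x % L = a ∧ ∀ p ∈ QQ k y, x % p ∉ Ω p), BV.th x =
      ∑ x ∈ (Ioc X (2 * X)).filter (fun x => x % L = a),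
        BV.th x * (if ∀ p ∈ QQ k y, x % p ∉ Ω p then (1 : ℝ) else 0) := by
    rw [← filter_filter, sum_filter]
    refine sum_congr rfl fun x _ => ?_
    by_cases h : ∀ p ∈ QQ k y, x % p ∉ Ω p
    · rw [if_pos h, if_pos h, mul_one]
    · rw [if_neg h, if_neg h, mul_zero]
  rw [hsplit]
  have h1 : ∑ x ∈ (Ioc X (2 * X)).filter (fun x => x % L = a), BV.th x * Lm D cn Ω x ≤
      ∑ x ∈ (Ioc X (2 * X)).filter (fun x => x % L = a),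
        BV.th x * (if ∀ p ∈ QQ k y, x % p ∉ Ω p then (1 : ℝ) else 0) :=
    sum_le_sum fun x _ => mul_le_mul_of_nonneg_left (hpt Ω x) (th_nn x)
  have h2 := (abs_le.1 hn).1
  have h3 := mul_le_mul_of_nonneg_left hG2 hT
  have h4 : 1 / 2 * ((∑ x ∈ Ioc X (2 * X), BV.th x) / (L.totient : ℝ)) *
      ∏ p ∈ QQ k y, (1 - d2 Ω p) = (∑ x ∈ Ioc X (2 * X), BV.th x) / (L.totient : ℝ) *
      (1 / 2 * ∏ p ∈ QQ k y, (1 - d2 Ω p)) := by ring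
  rw [h4]
  linarith

end Pool.Agent.Lib.MP_d06d57_nt
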