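import Pool.Agent.Lib.MP_d06d57_nt.Defs
import Pool.Agent.Lib.MTR.Defs
import Pool.Agent.Lib.MT.LayA
import Pool.Agent.Lib.Sieve.Smooth

/-!
# MP_d06d57_nt, Num: the products of the local densities

`GG n = ∏_{q ∣ n} (1 + 2/q) ∏_{q ∣ n² - 1} (1 + 1/q)`. `prod_low`: `∏ (1 - d2 (Om n) q) ≥ c / (log X)² ∏ ff n q`;
`GG_le`: `GG n ≤ C ∏_{q ≤ n^(1/r)} ff n q`; `prod_up`: `∏ (1 - d2 (Om n) q) ≤ C / (log y)² GG n`.
-/

set_option autoImplicit false

open Finset

namespace Pool.Agent.Lib.MP_d06d57_nt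

open Pool.Agent.Lib.MT Pool.Agent.Lib.MTR

private theorem num_tele (z n : ℕ) (hz : 1 ≤ z) :
    ∑ q ∈ (range (n + 1)).filter (fun q => z < q), 1 / ((q : ℝ) * (q - 1)) ≤
      1 / z - 1 / (max z n : ℕ) := by
  induction n with
  | zero =>
    have h1 : (range (0 + 1)).filter (fun q => z < q) = ∅ := by
      ext q
      simp only [mem_filter, mem_range, notMem_empty, iff_false]
      omega
    rw [h1, sum_empty]
    have h2 : max z 0 = z := by omega
    rw [h2]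
    simp
  | succ n ih =>
    rw [range_add_one, filter_insert]
    split_ifs with h
    · rw [sum_insert (by simp)]
      have h1 : max z (n + 1) = n + 1 := by omega
      have h2 : max z n = n := by omega
      rw [h1]
      rw [h2] at ih
      have hn : (0 : ℝ) < n := by
        have : 0 < n := by omega
        exact_mod_cast this
      have h3 : 1 / (((n + 1 : ℕ) : ℝ) * (((n + 1 : ℕ) : ℝ) - 1)) =
          1 / (n : ℝ) - 1 / ((n + 1 : ℕ) : ℝ) := by
        push_cast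
        have h4 : ((n : ℝ) + 1) ≠ 0 := by positivity
        have h5 : (n : ℝ) + 1 - 1 = n := by ring
        rw [h5]
        field_simp
        ring
      linarith
    · have h1 : max z (n + 1) = max z n := by omega
      rw [h1]
      exact ih

private theorem num_prod (s : Finset ℕ) (a : ℕ → ℝ) (h0 : ∀ q ∈ s, 0 ≤ a q)
    (h1 : ∀ q ∈ s, a q ≤ 1) : 1 - ∑ q ∈ s, a q ≤ ∏ q ∈ s, (1 - a q) ∧ ∏ q ∈ s, (1 - a q) ≤ 1 := by
  classical
  induction s using Finset.induction_on with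
  | empty => simp
  | insert q s hq ih =>
    obtain ⟨h2, h3⟩ := ih (fun p hp => h0 p (mem_insert_of_mem hp))
      (fun p hp => h1 p (mem_insert_of_mem hp))
    have h4 := h0 q (mem_insert_self q s)
    have h5 := h1 q (mem_insert_self q s)
    have h6 : 0 ≤ ∏ q ∈ s, (1 - a q) :=
      prod_nonneg fun p hp => by linarith [h1 p (mem_insert_of_mem hp)]
    rw [sum_insert hq, prod_insert hq]
    constructor
    · nlinarith
    · nlinarith

/-- `∏ (1 - t/(q(q-1))) ≥ 1/2` for `t ≤ 6` -/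
private theorem num_sq (k : ℕ) (hk : 2 ≤ k) (y : ℕ) (t : ℝ) (ht0 : 0 ≤ t) (ht : t ≤ 6) :
    1 / 2 ≤ ∏ q ∈ QQ k y, (1 - t / ((q : ℝ) * (q - 1))) := by
  have hq13 : ∀ q ∈ QQ k y, (13 : ℝ) ≤ q := by
    intro q hq
    have := (mem_QQ hq).2.1
    exact_mod_cast (by omega : 13 ≤ q)
  have h1 : ∑ q ∈ QQ k y, 1 / ((q : ℝ) * (q - 1)) ≤ 1 / 12 := by
    calc ∑ q ∈ QQ k y, 1 / ((q : ℝ) * (q - 1))
        ≤ ∑ q ∈ (range (y + 1)).filter (fun q => 12 < q), 1 / ((q : ℝ) * (q - 1)) := by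
          refine sum_le_sum_of_subset_of_nonneg ?_ ?_
          · intro q hq
            have := mem_QQ hq
            rw [mem_filter, mem_range]
            omega
          · intro q hq _
            rw [mem_filter, mem_range] at hq
            have h2 : (13 : ℝ) ≤ q := by exact_mod_cast (by omega : 13 ≤ q)
            have h3 : (0 : ℝ) < q - 1 := by linarith
            positivity
      _ ≤ 1 / (12 : ℕ) - 1 / (max 12 y : ℕ) := num_tele 12 y (by norm_num)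
      _ ≤ 1 / 12 := by
          have : (0 : ℝ) ≤ 1 / (max 12 y : ℕ) := by positivity
          push_cast at this ⊢
          linarith
  have h2 := (num_prod (QQ k y) (fun q => t / ((q : ℝ) * (q - 1))) (by
    intro q hq
    have h3 := hq13 q hq
    have h4 : (0 : ℝ) < q - 1 := by linarith
    positivity) (by
    intro q hq
    have h3 := hq13 q hq
    have h4 : (0 : ℝ) < q - 1 := by linarith
    have h5 : (6 : ℝ) ≤ (q : ℝ) * (q - 1) := by nlinarith
    rw [div_le_one (by linarith)]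
    linarith)).1
  have h3 : ∑ q ∈ QQ k y, t / ((q : ℝ) * (q - 1)) = t * ∑ q ∈ QQ k y, 1 / ((q : ℝ) * (q - 1)) := by
    rw [mul_sum]
    exact sum_congr rfl fun q _ => by ring
  rw [h3] at h2
  refine le_trans ?_ h2
  nlinarith

/-- the local factor of the singular series -/
noncomputable def ff (n q : ℕ) : ℝ :=
  (if q ∣ n then 1 + 2 / (q : ℝ) else 1) * (if q ∣ n ^ 2 - 1 then 1 + 1 / (q : ℝ) else 1)

theorem ff_one_le (n q : ℕ) : 1 ≤ ff n q := by
  unfold ff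
  have h1 : (1 : ℝ) ≤ (if q ∣ n then 1 + 2 / (q : ℝ) else 1) := by
    split_ifs
    · have : (0 : ℝ) ≤ 2 / (q : ℝ) := by positivity
      linarith
    · exact le_rfl
  have h2 : (1 : ℝ) ≤ (if q ∣ n ^ 2 - 1 then 1 + 1 / (q : ℝ) else 1) := by
    split_ifs
    · have : (0 : ℝ) ≤ 1 / (q : ℝ) := by positivity
      linarith
    · exact le_rfl
  exact one_le_mul_of_one_le_of_one_le h1 h2

private theorem card_zero {n q : ℕ} (h : q ∣ n) : (Om n q).card = 0 := by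
  rw [card_eq_zero, eq_empty_iff_forall_notMem]
  intro c hc
  obtain ⟨h1, h2, h3⟩ := mem_Om.1 hc
  rcases h3 with h3 | h3
  · have h4 : c ≡ 0 [MOD q] := h3.trans ((Nat.modEq_zero_iff_dvd).2 (h.mul_right _))
    have h5 := Nat.le_of_dvd (by omega) ((Nat.modEq_zero_iff_dvd).1 h4)
    omega
  · have h4 : q ∣ c := (Nat.dvd_add_right (h.mul_right _)).1 h3
    have h5 := Nat.le_of_dvd (by omega) h4
    omega

private theorem card_le_one' {n q : ℕ} (hn : 1 ≤ n) (hq : q.Prime) (h : q ∣ n ^ 2 - 1) :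
    (Om n q).card ≤ 1 := by
  have e : n ^ 2 - 1 = (n - 1) * (n + 1) := by
    obtain ⟨m, rfl⟩ := Nat.exists_eq_add_of_le' hn
    rw [Nat.add_sub_cancel]
    have : (m + 1) ^ 2 = m * (m + 1 + 1) + 1 := by ring
    rw [this, Nat.add_sub_cancel]
  rw [e] at h
  rw [card_le_one]
  intro a ha b hb
  obtain ⟨ha1, ha2, ha3⟩ := mem_Om.1 ha
  obtain ⟨hb1, hb2, hb3⟩ := mem_Om.1 hb
  rcases (Nat.Prime.dvd_mul hq).1 h with h1 | h1
  · have key : ∀ c : ℕ, c < q → c ≠ 0 → (c ≡ n * (n - 1) [MOD q] ∨ q ∣ n * (n + 1) + c) →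
        q ∣ n * (n + 1) + c := by
      intro c hc hc0 h2
      rcases h2 with h2 | h2
      · exfalso
        have h4 : c ≡ 0 [MOD q] := h2.trans ((Nat.modEq_zero_iff_dvd).2 (h1.mul_left _))
        have h5 := Nat.le_of_dvd (by omega) ((Nat.modEq_zero_iff_dvd).1 h4)
        omega
      · exact h2
    have k1 := key a ha1 ha2 ha3
    have k2 := key b hb1 hb2 hb3
    have h5 : n * (n + 1) + a ≡ n * (n + 1) + b [MOD q] :=
      ((Nat.modEq_zero_iff_dvd).2 k1).trans ((Nat.modEq_zero_iff_dvd).2 k2).symm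
    exact Nat.ModEq.eq_of_lt_of_lt (Nat.ModEq.add_left_cancel' _ h5) ha1 hb1
  · have key : ∀ c : ℕ, c < q → c ≠ 0 → (c ≡ n * (n - 1) [MOD q] ∨ q ∣ n * (n + 1) + c) →
        c ≡ n * (n - 1) [MOD q] := by
      intro c hc hc0 h2
      rcases h2 with h2 | h2
      · exact h2
      · exfalso
        have h4 : q ∣ c := (Nat.dvd_add_right (h1.mul_left _)).1 h2
        have h5 := Nat.le_of_dvd (by omega) h4
        omega
    have k1 := key a ha1 ha2 ha3
    have k2 := key b hb1 hb2 hb3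
    exact Nat.ModEq.eq_of_lt_of_lt (k1.trans k2.symm) ha1 hb1

/-- **lower bound for the product of the densities** -/
theorem prod_low (k : ℕ) (hk : 2 ≤ k) : ∃ c : ℝ, 0 < c ∧ ∀ n X y : ℕ, 1 ≤ n → 3 ≤ X → y ≤ X →
    c / (Real.log X) ^ 2 * ∏ q ∈ QQ k y, ff n q ≤ ∏ p ∈ QQ k y, (1 - d2 (Om n) p) := by
  obtain ⟨C, hC1, hC⟩ := layA_prod 2
  have hC0 : 0 < C := by linarith
  refine ⟨1 / (2 * C ^ 2), by positivity, fun n X y hn hX hy => ?_⟩
  have hlog : 0 < Real.log X := Real.log_pos (by exact_mod_cast (by omega : 1 < X))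
  have h1 := hC X (4 * k + 4) y hX hy
  rw [Finset.prod_coe_sort (PP (4 * k + 4) y) (fun p => (1 + ((2 : ℕ) : ℝ) / (p : ℝ)))] at h1
  have hQ : QQ k y = PP (4 * k + 4) y := rfl
  rw [← hQ] at h1
  have hq13 : ∀ q ∈ QQ k y, (13 : ℝ) ≤ q := by
    intro q hq
    have := (mem_QQ hq).2.1
    exact_mod_cast (by omega : 13 ≤ q)
  have hfac : ∀ q ∈ QQ k y, (1 + ((2 : ℕ) : ℝ) / (q : ℝ))⁻¹ * (1 - 6 / ((q : ℝ) * (q - 1))) * ff n q ≤
      1 - d2 (Om n) q := by
    intro q hq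
    have hqp := (mem_QQ hq).1
    have h2 := hq13 q hq
    have h3 : (0 : ℝ) < q := by linarith
    have h4 : (0 : ℝ) < q - 1 := by linarith
    have h6 : (1 + ((2 : ℕ) : ℝ) / (q : ℝ))⁻¹ * (1 - 6 / ((q : ℝ) * (q - 1))) = 1 - 2 / ((q : ℝ) - 1) := by
      push_cast
      have h7 : (1 + 2 / (q : ℝ)) ≠ 0 := by positivity
      have h8 : (q : ℝ) + 2 ≠ 0 := by positivity
      have h9 : (1 + 2 / (q : ℝ)) = (q + 2) / q := by field_simp
      rw [h9, inv_div]
      field_simp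
      ring
    rw [h6]
    have hu : 2 / ((q : ℝ) - 1) ≤ 1 / 6 := by
      rw [div_le_div_iff₀ h4 (by norm_num)]
      linarith
    by_cases hqn : q ∣ n
    · have hq1 : ¬ q ∣ n ^ 2 - 1 := by
        intro h
        have h7 : q ∣ n ^ 2 := hqn.trans (dvd_pow_self n (by norm_num))
        have h8 : q ∣ n ^ 2 - (n ^ 2 - 1) := Nat.dvd_sub h7 h
        have h9 : n ^ 2 - (n ^ 2 - 1) = 1 := by
          have : 1 ≤ n ^ 2 := Nat.one_le_pow _ _ hn
          omega
        rw [h9] at h8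
        exact hqp.one_lt.ne' (Nat.dvd_one.1 h8)
      unfold ff d2
      rw [if_pos hqn, if_neg hq1, mul_one, card_zero hqn, Nat.cast_zero, zero_div, sub_zero]
      have h7 : (1 - 2 / ((q : ℝ) - 1)) * (1 + 2 / (q : ℝ)) = 1 - 6 / ((q : ℝ) * (q - 1)) := by
        field_simp
        ring
      rw [h7]
      have : 0 ≤ 6 / ((q : ℝ) * (q - 1)) := by positivity
      linarith
    · by_cases hq1 : q ∣ n ^ 2 - 1
      · have h5 : ((Om n q).card : ℝ) ≤ 1 := by exact_mod_cast card_le_one' hn hqp hq1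
        unfold ff d2
        rw [if_neg hqn, if_pos hq1, one_mul]
        have h7 : (1 - 2 / ((q : ℝ) - 1)) * (1 + 1 / (q : ℝ)) ≤ 1 - 1 / ((q : ℝ) - 1) := by
          have h8 : 1 - 1 / ((q : ℝ) - 1) - (1 - 2 / ((q : ℝ) - 1)) * (1 + 1 / (q : ℝ)) =
              3 / ((q : ℝ) * (q - 1)) := by
            field_simp
            ring
          have : 0 ≤ 3 / ((q : ℝ) * (q - 1)) := by positivity
          linarith
        have h8 : ((Om n q).card : ℝ) / ((q : ℝ) - 1) ≤ 1 / ((q : ℝ) - 1) := by gcongr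
        linarith
      · have h5 : ((Om n q).card : ℝ) ≤ 2 := by exact_mod_cast card_Om_le n q
        unfold ff d2
        rw [if_neg hqn, if_neg hq1, mul_one, mul_one]
        have h7 : ((Om n q).card : ℝ) / ((q : ℝ) - 1) ≤ 2 / ((q : ℝ) - 1) := by gcongr
        linarith
  have hpos : ∀ q ∈ QQ k y, 0 ≤ (1 + ((2 : ℕ) : ℝ) / (q : ℝ))⁻¹ * (1 - 6 / ((q : ℝ) * (q - 1))) := by
    intro q hq
    have h2 := hq13 q hq
    have h3 : (0 : ℝ) < q := by linarith
    have h5 : (6 : ℝ) ≤ (q : ℝ) * (q - 1) := by nlinarith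
    have h6 : 0 ≤ 1 - 6 / ((q : ℝ) * (q - 1)) := by
      rw [sub_nonneg, div_le_one (by linarith)]
      exact h5
    positivity
  have h2 := prod_le_prod (fun q hq => mul_nonneg (hpos q hq) (by linarith [ff_one_le n q])) hfac
  rw [prod_mul_distrib, prod_mul_distrib, prod_inv_distrib] at h2
  have h3 := num_sq k hk y 6 (by norm_num) le_rfl
  have h4 : 0 < ∏ q ∈ QQ k y, (1 + ((2 : ℕ) : ℝ) / (q : ℝ)) :=
    prod_pos fun q hq => by
      have := hq13 q hq
      positivity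
  have h5 : ((C * Real.log X) ^ 2)⁻¹ ≤ (∏ q ∈ QQ k y, (1 + ((2 : ℕ) : ℝ) / (q : ℝ)))⁻¹ :=
    inv_anti₀ h4 h1
  refine le_trans ?_ h2
  refine mul_le_mul_of_nonneg_right ?_ (prod_nonneg fun q _ => by linarith [ff_one_le n q])
  calc 1 / (2 * C ^ 2) / (Real.log X) ^ 2 = ((C * Real.log X) ^ 2)⁻¹ * (1 / 2) := by
        field_simp
    _ ≤ (∏ q ∈ QQ k y, (1 + ((2 : ℕ) : ℝ) / (q : ℝ)))⁻¹ *
        ∏ q ∈ QQ k y, (1 - 6 / ((q : ℝ) * (q - 1))) := by
        refine mul_le_mul h5 h3 (by norm_num) (by positivity)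

/-! ### the singular series is determined by the primes up to `n^(1/r)` -/

/-- the number of large prime factors -/
private theorem card_large {m y R : ℕ} (hm : m ≠ 0) (h : m < (y + 1) ^ (R + 1)) :
    (m.primeFactors.filter (fun q => y < q)).card ≤ R := by
  by_contra hcon
  push Not at hcon
  set S := m.primeFactors.filter (fun q => y < q) with hS
  have h1 : (y + 1) ^ S.card ≤ ∏ q ∈ S, q := by
    calc (y + 1) ^ S.card = ∏ q ∈ S, (y + 1) := by rw [prod_const]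
      _ ≤ _ := prod_le_prod' fun q hq => by
          rw [hS, mem_filter] at hq
          omega
  have h2 : ∏ q ∈ S, q ≤ m := by
    have h3 : ∏ q ∈ S, q ∣ ∏ q ∈ m.primeFactors, q := prod_dvd_prod_of_subset _ _ _ (filter_subset _ _)
    exact Nat.le_of_dvd (Nat.pos_of_ne_zero hm) (h3.trans (Nat.prod_primeFactors_dvd m))
  have h3 : (y + 1) ^ (R + 1) ≤ (y + 1) ^ S.card := Nat.pow_le_pow_right (by omega) (by omega)
  omega

private theorem pf_split {m y k R : ℕ} (hm : m ≠ 0) (h : m < (y + 1) ^ (R + 1)) (f : ℕ → ℝ)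
    (hf1 : ∀ q, 1 ≤ f q) (hf2 : ∀ q, q.Prime → f q ≤ 2) :
    ∏ q ∈ m.primeFactors, f q ≤ 2 ^ (4 * k + 4 + R) * ∏ q ∈ QQ k y, (if q ∣ m then f q else 1) := by
  have hf0 : ∀ q, 0 ≤ f q := fun q => by linarith [hf1 q]
  have hc2 : ∀ S ⊆ m.primeFactors, ∏ q ∈ S, f q ≤ 2 ^ S.card := by
    intro S hS
    calc ∏ q ∈ S, f q ≤ ∏ q ∈ S, (2 : ℝ) :=
          prod_le_prod (fun q _ => hf0 q) fun q hq => hf2 q (Nat.prime_of_mem_primeFactors (hS hq))
      _ = 2 ^ S.card := by rw [prod_const]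
  set A := m.primeFactors.filter (fun q => q ≤ 4 * k + 4) with hA
  set B := m.primeFactors.filter (fun q => ¬ q ≤ 4 * k + 4) with hB
  have h1 : (∏ q ∈ A, f q) * ∏ q ∈ B, f q = ∏ q ∈ m.primeFactors, f q :=
    prod_filter_mul_prod_filter_not _ _ _
  have h2 : (∏ q ∈ B.filter (fun q => q ≤ y), f q) * ∏ q ∈ B.filter (fun q => ¬ q ≤ y), f q =
      ∏ q ∈ B, f q := prod_filter_mul_prod_filter_not _ _ _
  have h3 : ∏ q ∈ A, f q ≤ 2 ^ (4 * k + 4) := by
    refine (hc2 A (filter_subset _ _)).trans (pow_le_pow_right₀ (by norm_num) ?_)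
    have h4 : A ⊆ Icc 1 (4 * k + 4) := by
      intro q hq
      rw [hA, mem_filter] at hq
      rw [mem_Icc]
      exact ⟨(Nat.prime_of_mem_primeFactors hq.1).pos, hq.2⟩
    have := card_le_card h4
    simpa using this
  have h4 : ∏ q ∈ B.filter (fun q => ¬ q ≤ y), f q ≤ 2 ^ R := by
    refine (hc2 _ ((filter_subset _ _).trans (filter_subset _ _))).trans
      (pow_le_pow_right₀ (by norm_num) ?_)
    refine le_trans (card_le_card ?_) (card_large hm h)
    intro q hq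
    rw [mem_filter, mem_filter] at hq
    rw [mem_filter]
    exact ⟨hq.1.1, by omega⟩
  have h5 : ∏ q ∈ B.filter (fun q => q ≤ y), f q ≤ ∏ q ∈ QQ k y, (if q ∣ m then f q else 1) := by
    rw [← prod_filter]
    have h6 : B.filter (fun q => q ≤ y) = (QQ k y).filter (fun q => q ∣ m) := by
      ext q
      unfold QQ PP
      rw [mem_filter, hB, mem_filter, mem_filter, mem_filter, mem_range, Nat.mem_primeFactors]
      constructor
      · rintro ⟨⟨⟨h7, h8, h9⟩, h10⟩, h11⟩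
        exact ⟨⟨by omega, h7, by omega⟩, h8⟩
      · rintro ⟨⟨h7, h8, h9⟩, h10⟩
        exact ⟨⟨⟨h8, h10, hm⟩, by omega⟩, by omega⟩
    rw [h6]
  have h6 : 0 ≤ ∏ q ∈ QQ k y, (if q ∣ m then f q else 1) := by
    refine prod_nonneg fun q _ => ?_
    split_ifs
    · exact hf0 q
    · norm_num
  rw [← h1, ← h2, pow_add]
  have h7 : 0 ≤ ∏ q ∈ B.filter (fun q => ¬ q ≤ y), f q := prod_nonneg fun q _ => hf0 q
  calc (∏ q ∈ A, f q) * ((∏ q ∈ B.filter (fun q => q ≤ y), f q) *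
        ∏ q ∈ B.filter (fun q => ¬ q ≤ y), f q)
      ≤ 2 ^ (4 * k + 4) * ((∏ q ∈ QQ k y, (if q ∣ m then f q else 1)) * 2 ^ R) := by
        refine mul_le_mul h3 (mul_le_mul h5 h4 h7 h6) (mul_nonneg (prod_nonneg fun q _ => hf0 q) h7)
          (by positivity)
    _ = _ := by ring

/-- the order of the singular series -/
noncomputable def GG (n : ℕ) : ℝ :=
  (∏ q ∈ n.primeFactors, (1 + 2 / (q : ℝ))) * ∏ q ∈ Nat.primeFactors (n ^ 2 - 1), (1 + 1 / (q : ℝ))

theorem GG_le (k r : ℕ) (hr : 1 ≤ r) {n y : ℕ} (hn : 2 ≤ n) (h : n < (y + 1) ^ r) :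
    GG n ≤ 2 ^ (2 * (4 * k + 4 + 2 * r)) * ∏ q ∈ QQ k y, ff n q := by
  have hn2 : n ^ 2 - 1 ≠ 0 := by
    have : 4 ≤ n ^ 2 := by nlinarith
    omega
  have h1 : n ^ 2 - 1 < (y + 1) ^ (2 * r - 1 + 1) := by
    have h2 : n ^ 2 < ((y + 1) ^ r) ^ 2 := Nat.pow_lt_pow_left h (by norm_num)
    rw [← pow_mul] at h2
    have h3 : 2 * r - 1 + 1 = r * 2 := by omega
    rw [h3]
    omega
  have h2 : n < (y + 1) ^ (2 * r - 1 + 1) := by
    refine lt_of_lt_of_le h (Nat.pow_le_pow_right (by omega) (by omega))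
  have hdiv : ∀ (t : ℝ), 0 ≤ t → t ≤ 2 → (∀ q : ℕ, 1 ≤ 1 + t / (q : ℝ)) ∧
      ∀ q : ℕ, q.Prime → 1 + t / (q : ℝ) ≤ 2 := by
    intro t ht0 ht
    constructor
    · intro q
      have : 0 ≤ t / (q : ℝ) := by positivity
      linarith
    · intro q hq
      have h3 : (2 : ℝ) ≤ q := by exact_mod_cast hq.two_le
      have : t / (q : ℝ) ≤ 1 := by
        rw [div_le_one (by linarith)]
        linarith
      linarith
  obtain ⟨a1, a2⟩ := hdiv 2 (by norm_num) le_rfl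
  obtain ⟨b1, b2⟩ := hdiv 1 (by norm_num) (by norm_num)
  have h3 := pf_split (k := k) (m := n) (by omega) h2 (fun q => 1 + 2 / (q : ℝ)) a1 a2
  have h4 := pf_split (k := k) hn2 h1 (fun q => 1 + 1 / (q : ℝ)) b1 b2
  unfold GG ff
  rw [prod_mul_distrib]
  have h5 : (2 : ℝ) ^ (4 * k + 4 + (2 * r - 1)) ≤ 2 ^ (4 * k + 4 + 2 * r) :=
    pow_le_pow_right₀ (by norm_num) (by omega)
  have h6 : 0 ≤ ∏ q ∈ QQ k y, (if q ∣ n then 1 + 2 / (q : ℝ) else 1) := by
    refine prod_nonneg fun q _ => ?_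
    split_ifs <;> positivity
  have h7 : 0 ≤ ∏ q ∈ QQ k y, (if q ∣ n ^ 2 - 1 then 1 + 1 / (q : ℝ) else 1) := by
    refine prod_nonneg fun q _ => ?_
    split_ifs <;> positivity
  have h8 := h3.trans (mul_le_mul_of_nonneg_right h5 h6)
  have h9 := h4.trans (mul_le_mul_of_nonneg_right h5 h7)
  calc _ ≤ (2 ^ (4 * k + 4 + 2 * r) * ∏ q ∈ QQ k y, (if q ∣ n then 1 + 2 / (q : ℝ) else 1)) *
        (2 ^ (4 * k + 4 + 2 * r) * ∏ q ∈ QQ k y, (if q ∣ n ^ 2 - 1 then 1 + 1 / (q : ℝ) else 1)) :=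
        mul_le_mul h8 h9 (prod_nonneg fun q _ => by positivity) (by positivity)
    _ = _ := by
        rw [two_mul (4 * k + 4 + 2 * r), pow_add 2 (4 * k + 4 + 2 * r)]
        ring

theorem GG_one_le (n : ℕ) : 1 ≤ GG n := by
  have h1 : (1 : ℝ) ≤ ∏ q ∈ n.primeFactors, (1 + 2 / (q : ℝ)) := by
    calc (1 : ℝ) = ∏ q ∈ n.primeFactors, (1 : ℝ) := by simp
      _ ≤ _ := prod_le_prod (fun _ _ => zero_le_one) fun q _ => by
          have : (0 : ℝ) ≤ 2 / (q : ℝ) := by positivity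
          linarith
  have h2 : (1 : ℝ) ≤ ∏ q ∈ Nat.primeFactors (n ^ 2 - 1), (1 + 1 / (q : ℝ)) := by
    calc (1 : ℝ) = ∏ q ∈ Nat.primeFactors (n ^ 2 - 1), (1 : ℝ) := by simp
      _ ≤ _ := prod_le_prod (fun _ _ => zero_le_one) fun q _ => by
          have : (0 : ℝ) ≤ 1 / (q : ℝ) := by positivity
          linarith
  unfold GG
  exact one_le_mul_of_one_le_of_one_le h1 h2

/-! ### the upper bound -/

private theorem num_ite (S T : Finset ℕ) (P : ℕ → Prop) [DecidablePred P] (f : ℕ → ℝ)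
    (hf : ∀ q, 1 ≤ f q) (h : ∀ q ∈ S, P q → q ∈ T) :
    ∏ q ∈ S, (if P q then f q else 1) ≤ ∏ q ∈ T, f q := by
  rw [← prod_filter]
  have hsub : S.filter P ⊆ T := fun q hq => h q (mem_filter.1 hq).1 (mem_filter.1 hq).2
  rw [← prod_sdiff hsub]
  have h1 : 1 ≤ ∏ q ∈ T \ S.filter P, f q := by
    calc (1 : ℝ) = ∏ q ∈ T \ S.filter P, (1 : ℝ) := by simp
      _ ≤ _ := prod_le_prod (fun _ _ => zero_le_one) fun q _ => hf q
  have h2 : 0 ≤ ∏ q ∈ S.filter P, f q := prod_nonneg fun q _ => by linarith [hf q]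
  exact le_mul_of_one_le_left h2 h1

/-- the first class -/
private theorem fst_mem {n q : ℕ} (hq : q.Prime) (h1 : ¬ q ∣ n) (h2 : ¬ q ∣ n - 1) :
    (n * (n - 1)) % q ∈ Om n q := by
  rw [mem_Om]
  refine ⟨Nat.mod_lt _ hq.pos, ?_, Or.inl (Nat.mod_modEq _ _)⟩
  intro h
  rcases (Nat.Prime.dvd_mul hq).1 (Nat.dvd_of_mod_eq_zero h) with h3 | h3
  · exact h1 h3
  · exact h2 h3

/-- the second class -/
private theorem snd_mem {n q : ℕ} (hq : q.Prime) (h1 : ¬ q ∣ n) (h2 : ¬ q ∣ n + 1) :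
    q - (n * (n + 1)) % q ∈ Om n q := by
  have h0 : (n * (n + 1)) % q ≠ 0 := by
    intro h
    rcases (Nat.Prime.dvd_mul hq).1 (Nat.dvd_of_mod_eq_zero h) with h3 | h3
    · exact h1 h3
    · exact h2 h3
  have h3 : (n * (n + 1)) % q < q := Nat.mod_lt _ hq.pos
  rw [mem_Om]
  refine ⟨by omega, by omega, Or.inr ?_⟩
  apply Nat.dvd_of_mod_eq_zero
  rw [← Nat.mod_add_mod]
  have h4 : n * (n + 1) % q + (q - n * (n + 1) % q) = q := by omega
  rw [h4, Nat.mod_self]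

private theorem card_two {n q : ℕ} (hn : 2 ≤ n) (hq : q.Prime) (hq3 : 3 ≤ q) (h1 : ¬ q ∣ n)
    (h2 : ¬ q ∣ n ^ 2 - 1) : 2 ≤ (Om n q).card := by
  have e : n ^ 2 - 1 = (n - 1) * (n + 1) := by
    obtain ⟨m, rfl⟩ := Nat.exists_eq_add_of_le' (show 1 ≤ n by omega)
    rw [Nat.add_sub_cancel]
    have : (m + 1) ^ 2 = m * (m + 1 + 1) + 1 := by ring
    rw [this, Nat.add_sub_cancel]
  rw [e] at h2
  have h3 : ¬ q ∣ n - 1 := fun h => h2 (h.mul_right _)
  have h4 : ¬ q ∣ n + 1 := fun h => h2 (h.mul_left _)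
  have hne : (n * (n - 1)) % q ≠ q - (n * (n + 1)) % q := by
    intro h
    have h5 : (n * (n - 1)) % q + (n * (n + 1)) % q = q := by
      have : (n * (n + 1)) % q < q := Nat.mod_lt _ hq.pos
      omega
    have h6 : (n * (n - 1) + n * (n + 1)) % q = 0 := by
      rw [Nat.add_mod, h5, Nat.mod_self]
    have h7 : n * (n - 1) + n * (n + 1) = 2 * (n * n) := by
      obtain ⟨m, rfl⟩ := Nat.exists_eq_add_of_le' (show 1 ≤ n by omega)
      rw [Nat.add_sub_cancel]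
      ring
    rw [h7] at h6
    rcases (Nat.Prime.dvd_mul hq).1 (Nat.dvd_of_mod_eq_zero h6) with h8 | h8
    · have := Nat.le_of_dvd (by norm_num) h8
      omega
    · rcases (Nat.Prime.dvd_mul hq).1 h8 with h9 | h9 <;> exact h1 h9
  have h5 : ({(n * (n - 1)) % q, q - (n * (n + 1)) % q} : Finset ℕ) ⊆ Om n q := by
    intro c hc
    rw [mem_insert, mem_singleton] at hc
    rcases hc with rfl | rfl
    · exact fst_mem hq h1 h3
    · exact snd_mem hq h1 h4
  have h6 := card_le_card h5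
  rw [card_pair hne] at h6
  exact h6

private theorem card_one {n q : ℕ} (hq : q.Prime) (hq3 : 3 ≤ q) (h1 : ¬ q ∣ n) :
    1 ≤ (Om n q).card := by
  rw [Nat.one_le_iff_ne_zero, Ne, card_eq_zero, ← Ne, ← nonempty_iff_ne_empty]
  by_cases h2 : q ∣ n - 1
  · have h3 : ¬ q ∣ n + 1 := by
      intro h3
      rcases Nat.eq_zero_or_pos n with rfl | hn
      · exact h1 (dvd_zero q)
      · have h4 : q ∣ (n + 1) - (n - 1) := Nat.dvd_sub h3 h2
        have h5 : (n + 1) - (n - 1) = 2 := by omega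
        rw [h5] at h4
        have := Nat.le_of_dvd (by norm_num) h4
        omega
    exact ⟨_, snd_mem hq h1 h3⟩
  · exact ⟨_, fst_mem hq h1 h2⟩

private theorem fac_up {n q : ℕ} (hn : 2 ≤ n) (hq : q.Prime) (hq13 : 13 ≤ q) :
    (1 - d2 (Om n) q) * (1 - 3 / ((q : ℝ) * (q - 1))) ≤
      (1 - 1 / (q : ℝ)) ^ 2 * ((if q ∣ n then 1 + 2 / (q : ℝ) else 1) *
        (if q ∣ n ^ 2 - 1 then 1 + 1 / (q : ℝ) else 1)) := by
  have h2 : (13 : ℝ) ≤ q := by exact_mod_cast hq13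
  have h3 : (0 : ℝ) < q := by linarith
  have h4 : (0 : ℝ) < q - 1 := by linarith
  have h5 : (6 : ℝ) ≤ (q : ℝ) * (q - 1) := by nlinarith
  have hb0 : 0 ≤ 1 - 3 / ((q : ℝ) * (q - 1)) := by
    rw [sub_nonneg, div_le_one (by linarith)]
    linarith
  have hb1 : 1 - 3 / ((q : ℝ) * (q - 1)) ≤ 1 := by
    have : 0 ≤ 3 / ((q : ℝ) * (q - 1)) := by positivity
    linarith
  have hsq : 3 / (q : ℝ) ^ 2 ≤ 3 / ((q : ℝ) * (q - 1)) := by
    apply div_le_div_of_nonneg_left (by norm_num) (by positivity)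
    nlinarith
  have hd0 : 0 ≤ d2 (Om n) q := by
    unfold d2
    positivity
  have e1 : 1 ≤ (if q ∣ n ^ 2 - 1 then 1 + 1 / (q : ℝ) else 1) := by
    split_ifs
    · have : 0 ≤ 1 / (q : ℝ) := by positivity
      linarith
    · exact le_rfl
  have hu : 0 < 1 / (q : ℝ) := by positivity
  have hu1 : 1 / (q : ℝ) ≤ 1 / 13 := one_div_le_one_div_of_le (by norm_num) h2
  by_cases hqn : q ∣ n
  · rw [if_pos hqn]
    have h6 : (1 - d2 (Om n) q) * (1 - 3 / ((q : ℝ) * (q - 1))) ≤ 1 - 3 / (q : ℝ) ^ 2 := by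
      calc (1 - d2 (Om n) q) * (1 - 3 / ((q : ℝ) * (q - 1))) ≤ 1 * (1 - 3 / ((q : ℝ) * (q - 1))) :=
            mul_le_mul_of_nonneg_right (by linarith) hb0
        _ ≤ 1 - 3 / (q : ℝ) ^ 2 := by linarith
    have h7 : 1 - 3 / (q : ℝ) ^ 2 ≤ (1 - 1 / (q : ℝ)) ^ 2 * (1 + 2 / (q : ℝ)) := by
      have h8 : (1 - 1 / (q : ℝ)) ^ 2 * (1 + 2 / (q : ℝ)) = 1 - 3 / (q : ℝ) ^ 2 + 2 / (q : ℝ) ^ 3 := by
        field_simp
        ring
      rw [h8]
      have : 0 ≤ 2 / (q : ℝ) ^ 3 := by positivity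
      linarith
    have h9 : 0 ≤ (1 - 1 / (q : ℝ)) ^ 2 * (1 + 2 / (q : ℝ)) := by positivity
    calc _ ≤ (1 - 1 / (q : ℝ)) ^ 2 * (1 + 2 / (q : ℝ)) := h6.trans h7
      _ ≤ ((1 - 1 / (q : ℝ)) ^ 2 * (1 + 2 / (q : ℝ))) *
          (if q ∣ n ^ 2 - 1 then 1 + 1 / (q : ℝ) else 1) := le_mul_of_one_le_right h9 e1
      _ = _ := by ring
  · rw [if_neg hqn, one_mul]
    by_cases hq1 : q ∣ n ^ 2 - 1
    · rw [if_pos hq1]
      have h6 : (1 : ℝ) ≤ ((Om n q).card : ℝ) := by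
        exact_mod_cast card_one hq (by omega) hqn
      have h7 : 1 / (q : ℝ) ≤ d2 (Om n) q := by
        unfold d2
        rw [div_le_div_iff₀ h3 h4]
        nlinarith
      have h8 : (1 - d2 (Om n) q) * (1 - 3 / ((q : ℝ) * (q - 1))) ≤
          (1 - 1 / (q : ℝ)) * (1 - 1 / (q : ℝ) ^ 2) := by
        refine mul_le_mul (by linarith) ?_ hb0 (by linarith)
        have h9 : 1 / (q : ℝ) ^ 2 ≤ 3 / (q : ℝ) ^ 2 := by gcongr; norm_num
        linarith
      refine h8.trans (le_of_eq ?_)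
      field_simp
      ring
    · rw [if_neg hq1, mul_one]
      have h6 : (2 : ℝ) ≤ ((Om n q).card : ℝ) := by
        exact_mod_cast card_two hn hq (by omega) hqn hq1
      have h7 : 2 / (q : ℝ) ≤ d2 (Om n) q := by
        unfold d2
        rw [div_le_div_iff₀ h3 h4]
        nlinarith
      have h8 : 0 ≤ 1 - 2 / (q : ℝ) := by
        have : 2 / (q : ℝ) = 2 * (1 / (q : ℝ)) := by ring
        rw [this]
        linarith
      calc (1 - d2 (Om n) q) * (1 - 3 / ((q : ℝ) * (q - 1))) ≤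
            (1 - 2 / (q : ℝ)) * 1 := mul_le_mul (by linarith) hb1 hb0 h8
        _ ≤ (1 - 1 / (q : ℝ)) ^ 2 := by
            have : (1 - 1 / (q : ℝ)) ^ 2 = 1 - 2 / (q : ℝ) + 1 / (q : ℝ) ^ 2 := by
              field_simp
              ring
            rw [this, mul_one]
            have : 0 ≤ 1 / (q : ℝ) ^ 2 := by positivity
            linarith

/-- **upper bound for the product of the densities** -/
theorem prod_up : ∃ C : ℝ, 0 < C ∧ ∀ n y : ℕ, 2 ≤ n → 2 ≤ y →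
    ∏ q ∈ QQ 2 y, (1 - d2 (Om n) q) ≤ C / (Real.log y) ^ 2 * GG n := by
  unfold GG
  refine ⟨2 * (2 ^ 12) ^ 2, by positivity, fun n y hn hy => ?_⟩
  have hlog : 0 < Real.log y := Real.log_pos (by exact_mod_cast (by omega : 1 < y))
  set G : ℝ := (∏ q ∈ n.primeFactors, (1 + 2 / (q : ℝ))) *
    ∏ q ∈ Nat.primeFactors (n ^ 2 - 1), (1 + 1 / (q : ℝ)) with hG
  have hn2 : n ^ 2 - 1 ≠ 0 := by
    have : 4 ≤ n ^ 2 := by nlinarith
    omega
  have hq13 : ∀ q ∈ QQ 2 y, q.Prime ∧ 13 ≤ q := by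
    intro q hq
    have := mem_QQ hq
    exact ⟨this.1, by omega⟩
  have hq13r : ∀ q ∈ QQ 2 y, (13 : ℝ) ≤ q := fun q hq => by exact_mod_cast (hq13 q hq).2
  -- product of the factor bounds
  have h1 : (∏ q ∈ QQ 2 y, (1 - d2 (Om n) q)) * ∏ q ∈ QQ 2 y, (1 - 3 / ((q : ℝ) * (q - 1))) ≤
      (∏ q ∈ QQ 2 y, (1 - 1 / (q : ℝ))) ^ 2 * G := by
    rw [← prod_mul_distrib]
    calc ∏ q ∈ QQ 2 y, (1 - d2 (Om n) q) * (1 - 3 / ((q : ℝ) * (q - 1)))
        ≤ ∏ q ∈ QQ 2 y, ((1 - 1 / (q : ℝ)) ^ 2 * ((if q ∣ n then 1 + 2 / (q : ℝ) else 1) *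
        (if q ∣ n ^ 2 - 1 then 1 + 1 / (q : ℝ) else 1))) := by
          refine prod_le_prod (fun q hq => ?_) fun q hq => fac_up hn (hq13 q hq).1 (hq13 q hq).2
          have h2 := hq13r q hq
          have h3 : (0 : ℝ) < q := by linarith
          have h4 : (0 : ℝ) < q - 1 := by linarith
          have h5 : (6 : ℝ) ≤ (q : ℝ) * (q - 1) := by nlinarith
          refine mul_nonneg ?_ ?_
          · have h6 : ((Om n q).card : ℝ) ≤ 2 := by exact_mod_cast card_Om_le n q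
            unfold d2
            rw [sub_nonneg, div_le_one h4]
            linarith
          · rw [sub_nonneg, div_le_one (by linarith)]
            linarith
      _ = (∏ q ∈ QQ 2 y, (1 - 1 / (q : ℝ))) ^ 2 *
          ((∏ q ∈ QQ 2 y, (if q ∣ n then 1 + 2 / (q : ℝ) else 1)) *
          ∏ q ∈ QQ 2 y, (if q ∣ n ^ 2 - 1 then 1 + 1 / (q : ℝ) else 1)) := by
          rw [prod_mul_distrib, prod_mul_distrib, prod_pow]
      _ ≤ _ := by
          refine mul_le_mul_of_nonneg_left ?_ (by positivity)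
          rw [hG]
          refine mul_le_mul ?_ ?_ ?_ ?_
          · refine num_ite _ _ (fun q => q ∣ n) (fun q => 1 + 2 / (q : ℝ)) (fun q => ?_) ?_
            · have : (0 : ℝ) ≤ 2 / (q : ℝ) := by positivity
              linarith
            · intro q hq hqn
              rw [Nat.mem_primeFactors]
              exact ⟨(hq13 q hq).1, hqn, by omega⟩
          · refine num_ite _ _ (fun q => q ∣ n ^ 2 - 1) (fun q => 1 + 1 / (q : ℝ)) (fun q => ?_) ?_
            · have : (0 : ℝ) ≤ 1 / (q : ℝ) := by positivity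
              linarith
            · intro q hq hqn
              rw [Nat.mem_primeFactors]
              exact ⟨(hq13 q hq).1, hqn, hn2⟩
          · refine prod_nonneg fun q _ => ?_
            split_ifs <;> positivity
          · exact prod_nonneg fun q _ => by positivity
  have h2 := num_sq 2 le_rfl y 3 (by norm_num) (by norm_num)
  have h3 : ∏ q ∈ QQ 2 y, (1 - 1 / (q : ℝ)) ≤ 2 ^ 12 / Real.log y := by
    have h4 := Sieve.log_le_prod y
    rw [Finset.prod_inv_distrib] at h4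
    have hpos : ∀ p ∈ (Icc 1 y).filter Nat.Prime, (0 : ℝ) < 1 - 1 / (p : ℝ) ∧ 1 / 2 ≤ 1 - 1 / (p : ℝ) ∧
        1 - 1 / (p : ℝ) ≤ 1 := by
      intro p hp
      have h5 : (2 : ℝ) ≤ p := by exact_mod_cast (mem_filter.1 hp).2.two_le
      have h6 : 1 / (p : ℝ) ≤ 1 / 2 := one_div_le_one_div_of_le (by norm_num) h5
      have h7 : 0 ≤ 1 / (p : ℝ) := by positivity
      exact ⟨by linarith, by linarith, by linarith⟩
    have hP : 0 < ∏ p ∈ (Icc 1 y).filter Nat.Prime, (1 - 1 / (p : ℝ)) :=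
      prod_pos fun p hp => (hpos p hp).1
    have h5 : Real.log y ≤ (∏ p ∈ (Icc 1 y).filter Nat.Prime, (1 - 1 / (p : ℝ)))⁻¹ := by
      refine le_trans ?_ h4
      exact Real.log_le_log (by exact_mod_cast (by omega : 0 < y)) (by linarith)
    have h6 : ∏ p ∈ (Icc 1 y).filter Nat.Prime, (1 - 1 / (p : ℝ)) ≤ 1 / Real.log y := by
      rw [le_div_iff₀ hlog]
      calc (∏ p ∈ (Icc 1 y).filter Nat.Prime, (1 - 1 / (p : ℝ))) * Real.log y
          ≤ (∏ p ∈ (Icc 1 y).filter Nat.Prime, (1 - 1 / (p : ℝ)))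
            * (∏ p ∈ (Icc 1 y).filter Nat.Prime, (1 - 1 / (p : ℝ)))⁻¹ :=
            mul_le_mul_of_nonneg_left h5 hP.le
        _ = 1 := mul_inv_cancel₀ hP.ne'
    have hsub : QQ 2 y ⊆ (Icc 1 y).filter Nat.Prime := by
      intro q hq
      have := mem_QQ hq
      rw [mem_filter, mem_Icc]
      exact ⟨⟨by omega, by omega⟩, this.1⟩
    have h7 := prod_sdiff (f := fun q : ℕ => (1 - 1 / (q : ℝ))) hsub
    have h8 : (1 / 2 : ℝ) ^ 12 ≤ ∏ q ∈ (Icc 1 y).filter Nat.Prime \ QQ 2 y, (1 - 1 / (q : ℝ)) := by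
      have h9 : ((Icc 1 y).filter Nat.Prime \ QQ 2 y).card ≤ 12 := by
        have h10 : (Icc 1 y).filter Nat.Prime \ QQ 2 y ⊆ Icc 1 12 := by
          intro q hq
          rw [mem_sdiff, mem_filter, mem_Icc] at hq
          rw [mem_Icc]
          refine ⟨hq.1.1.1, ?_⟩
          by_contra h11
          apply hq.2
          unfold QQ PP
          rw [mem_filter, mem_range]
          exact ⟨by omega, hq.1.2, by omega⟩
        have := card_le_card h10
        simpa using this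
      calc (1 / 2 : ℝ) ^ 12 ≤ (1 / 2 : ℝ) ^ ((Icc 1 y).filter Nat.Prime \ QQ 2 y).card :=
            pow_le_pow_of_le_one (by norm_num) (by norm_num) h9
        _ = ∏ q ∈ (Icc 1 y).filter Nat.Prime \ QQ 2 y, (1 / 2 : ℝ) := by rw [prod_const]
        _ ≤ _ := prod_le_prod (fun _ _ => by norm_num) fun q hq =>
            (hpos q (mem_sdiff.1 hq).1).2.1
    have h9 : 0 ≤ ∏ q ∈ QQ 2 y, (1 - 1 / (q : ℝ)) :=
      prod_nonneg fun q hq => (hpos q (hsub hq)).1.le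
    have h10 : (1 / 2 : ℝ) ^ 12 * ∏ q ∈ QQ 2 y, (1 - 1 / (q : ℝ)) ≤ 1 / Real.log y := by
      calc (1 / 2 : ℝ) ^ 12 * ∏ q ∈ QQ 2 y, (1 - 1 / (q : ℝ))
          ≤ (∏ q ∈ (Icc 1 y).filter Nat.Prime \ QQ 2 y, (1 - 1 / (q : ℝ))) *
            ∏ q ∈ QQ 2 y, (1 - 1 / (q : ℝ)) := mul_le_mul_of_nonneg_right h8 h9
        _ = ∏ p ∈ (Icc 1 y).filter Nat.Prime, (1 - 1 / (p : ℝ)) := h7
        _ ≤ _ := h6
    calc ∏ q ∈ QQ 2 y, (1 - 1 / (q : ℝ)) =
          2 ^ 12 * ((1 / 2 : ℝ) ^ 12 * ∏ q ∈ QQ 2 y, (1 - 1 / (q : ℝ))) := by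
          rw [← mul_assoc, ← mul_pow]
          norm_num
      _ ≤ 2 ^ 12 * (1 / Real.log y) := mul_le_mul_of_nonneg_left h10 (by positivity)
      _ = _ := by ring
  have hG1 : 0 ≤ G := by
    rw [hG]
    exact mul_nonneg (prod_nonneg fun q _ => by positivity) (prod_nonneg fun q _ => by positivity)
  have hD0 : 0 ≤ ∏ q ∈ QQ 2 y, (1 - d2 (Om n) q) := by
    refine prod_nonneg fun q hq => ?_
    have h2 := hq13r q hq
    have h4 : (0 : ℝ) < q - 1 := by linarith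
    have h6 : ((Om n q).card : ℝ) ≤ 2 := by exact_mod_cast card_Om_le n q
    unfold d2
    rw [sub_nonneg, div_le_one h4]
    linarith
  have h30 : 0 ≤ ∏ q ∈ QQ 2 y, (1 - 1 / (q : ℝ)) := by
    refine prod_nonneg fun q hq => ?_
    have h2 := hq13r q hq
    have : 1 / (q : ℝ) ≤ 1 / 13 := one_div_le_one_div_of_le (by norm_num) h2
    linarith
  have h4 : (∏ q ∈ QQ 2 y, (1 - d2 (Om n) q)) * (1 / 2) ≤ (2 ^ 12 / Real.log y) ^ 2 * G := by
    calc (∏ q ∈ QQ 2 y, (1 - d2 (Om n) q)) * (1 / 2)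
        ≤ (∏ q ∈ QQ 2 y, (1 - d2 (Om n) q)) * ∏ q ∈ QQ 2 y, (1 - 3 / ((q : ℝ) * (q - 1))) :=
          mul_le_mul_of_nonneg_left h2 hD0
      _ ≤ (∏ q ∈ QQ 2 y, (1 - 1 / (q : ℝ))) ^ 2 * G := h1
      _ ≤ _ := mul_le_mul_of_nonneg_right (pow_le_pow_left₀ h30 h3 2) hG1
  calc ∏ q ∈ QQ 2 y, (1 - d2 (Om n) q) = 2 * ((∏ q ∈ QQ 2 y, (1 - d2 (Om n) q)) * (1 / 2)) := by ring
    _ ≤ 2 * ((2 ^ 12 / Real.log y) ^ 2 * G) := mul_le_mul_of_nonneg_left h4 (by norm_num)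
    _ = _ := by
        rw [div_pow]
        ring

end Pool.Agent.Lib.MP_d06d57_nt
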