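import Pool.Agent.Lib.MP_d06d57_nt.Defs
import Pool.Agent.Lib.MP_092512_nt.P3.B4

/-!
# MP_d06d57_nt, Small: a good class for the small primes

For every `n` there is a class `a` mod `LL k` which is coprime to `LL k` and is not in `Om n q` for the primes
`q ≤ 4k + 4`.
-/

set_option autoImplicit false

open Finset

namespace Pool.Agent.Lib.MP_d06d57_nt

/-- the classes that remain -/
private def good (n q : ℕ) : Finset ℕ := (range q).filter (fun c => c ≠ 0 ∧ c ∉ Om n q)

private theorem good_two (n : ℕ) (hn : 1 ≤ n) : (good n 2).Nonempty := by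
  obtain ⟨m, rfl⟩ := Nat.exists_eq_add_of_le' hn
  refine ⟨1, ?_⟩
  unfold good
  rw [mem_filter, mem_range, mem_Om]
  refine ⟨by norm_num, by norm_num, ?_⟩
  rintro ⟨-, -, h⟩
  rw [Nat.add_sub_cancel] at h
  have hm : m % 2 = 0 ∨ m % 2 = 1 := by omega
  rcases h with h | h
  · unfold Nat.ModEq at h
    rcases hm with hm | hm <;> simp [Nat.mul_mod, Nat.add_mod, hm] at h
  · have h2 := Nat.mod_eq_zero_of_dvd h
    rcases hm with hm | hm <;> simp [Nat.mul_mod, Nat.add_mod, hm] at h2

private theorem good_three (n : ℕ) (hn : 1 ≤ n) : (good n 3).Nonempty := by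
  obtain ⟨m, rfl⟩ := Nat.exists_eq_add_of_le' hn
  have hm : m % 3 = 0 ∨ m % 3 = 1 ∨ m % 3 = 2 := by omega
  have key : ∀ c : ℕ, c < 3 → c ≠ 0 → ¬ c % 3 = ((m + 1) * m) % 3 →
      ((m + 1) * (m + 1 + 1) + c) % 3 ≠ 0 → (good (m + 1) 3).Nonempty := by
    intro c hc hc0 h1 h2
    refine ⟨c, ?_⟩
    unfold good
    rw [mem_filter, mem_range, mem_Om]
    refine ⟨hc, hc0, ?_⟩
    rintro ⟨-, -, h⟩
    rw [Nat.add_sub_cancel] at h
    rcases h with h | h
    · exact h1 h
    · exact h2 (Nat.mod_eq_zero_of_dvd h)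
  rcases hm with hm | hm | hm
  · refine key 2 (by norm_num) (by norm_num) ?_ ?_ <;> simp [Nat.mul_mod, Nat.add_mod, hm]
  · refine key 1 (by norm_num) (by norm_num) ?_ ?_ <;> simp [Nat.mul_mod, Nat.add_mod, hm]
  · refine key 1 (by norm_num) (by norm_num) ?_ ?_ <;> simp [Nat.mul_mod, Nat.add_mod, hm]

private theorem good_large (n q : ℕ) (hq : 4 ≤ q) : (good n q).Nonempty := by
  have h1 : good n q = ((range q).erase 0) \ Om n q := by
    ext c
    unfold good
    rw [mem_filter, mem_sdiff, mem_erase]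
    tauto
  rw [h1]
  have h2 : ((range q).erase 0).card = q - 1 := by
    rw [card_erase_of_mem (by rw [mem_range]; omega), card_range]
  have h3 := card_Om_le n q
  have h4 := le_card_sdiff (Om n q) ((range q).erase 0)
  rw [← card_pos]
  omega

private theorem good_all (n q : ℕ) (hn : 1 ≤ n) (hq : q.Prime) : (good n q).Nonempty := by
  rcases Nat.lt_or_ge q 4 with h | h
  · have h2 := hq.two_le
    have h3 : q = 2 ∨ q = 3 := by omega
    rcases h3 with rfl | rfl
    · exact good_two n hn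
    · exact good_three n hn
  · exact good_large n q h

/-- **a good class for the small primes** -/
theorem small (k n : ℕ) (hn : 1 ≤ n) : ∃ a : ℕ, a < LL k ∧ a.Coprime (LL k) ∧
    ∀ q : ℕ, q.Prime → q ≤ 4 * k + 4 → a % q ≠ 0 ∧ a % q ∉ Om n q := by
  set d : Finset ℕ := (range (4 * k + 4 + 1)).filter Nat.Prime with hd
  have hdp : ∀ p ∈ d, p.Prime := fun p hp => (mem_filter.1 hp).2
  have hLL : LL k = ∏ p ∈ d, p := rfl
  obtain ⟨C, hC1, hC2, hC3⟩ := Pool.Agent.Lib.MP_092512_nt.P3.B.crt_classes d hdp (good n)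
    (fun p _ c hc => by
      unfold good at hc
      rw [mem_filter, mem_range] at hc
      exact hc.1) 1 0 (by norm_num) (by norm_num) (fun p _ => Nat.coprime_one_right p)
  rw [mul_one, ← hLL] at hC1 hC3
  have hCne : C.Nonempty := by
    rw [← card_pos, hC2]
    exact prod_pos fun p hp => card_pos.2 (good_all n p hn (hdp p hp))
  obtain ⟨a, ha⟩ := hCne
  have haL : a < LL k := mem_range.1 (hC1 ha)
  have h1 := ((hC3 a).2 (by rw [Nat.mod_eq_of_lt haL]; exact ha)).1
  have h2 : ∀ q : ℕ, q.Prime → q ≤ 4 * k + 4 → a % q ≠ 0 ∧ a % q ∉ Om n q := by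
    intro q hq hq12
    have h3 : q ∈ d := by
      rw [hd, mem_filter, mem_range]
      exact ⟨by omega, hq⟩
    have h4 := h1 q h3
    unfold good at h4
    rw [mem_filter] at h4
    exact h4.2
  refine ⟨a, haL, ?_, h2⟩
  refine Nat.Coprime.symm (Nat.coprime_of_dvd fun q hq h3 h4 => ?_)
  have h5 := LL_prime hq h3
  exact (h2 q hq (by omega)).1 (Nat.mod_eq_zero_of_dvd h4)

end Pool.Agent.Lib.MP_d06d57_nt
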