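import Pool.Agent.Lib.MP_d06d57_nt.Core
import Pool.Agent.Lib.MP_d06d57_nt.Low
import Pool.Agent.Lib.MP_d06d57_nt.Small
import Pool.Agent.Lib.MP_d06d57_nt.Num
import Pool.Agent.Lib.MT.Theta

/-!
# MP_d06d57_nt, App: the two bounds for the number of the primes of `(n, 2n)` with almost prime values

`AP n r` is the set of the primes `p` in `(n, 2n)` such that all prime factors of `(n² - n - p)(n² + n + p)` are
larger than `n^(1/r)`.
-/

set_option autoImplicit false

open Finset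

namespace Pool.Agent.Lib.MP_d06d57_nt

open Pool.Agent.Lib.MT Pool.Agent.Lib.MTR

/-- the primes `p` in `(n, 2n)` such that `(n² - n - p)(n² + n + p)` has only prime factors `> n^(1/r)` -/
def AP (n r : ℕ) : Finset ℕ := (Ioo n (2 * n)).filter (fun p => p.Prime ∧
  ∀ q ∈ ((n ^ 2 - n - p) * (n ^ 2 + n + p)).primeFactors, n < q ^ r)

/-- the values are positive -/
theorem val_bound {n x : ℕ} (hn : 5 ≤ n) (h2 : x < 2 * n) : n < n ^ 2 - n - x := by
  have : n * 5 ≤ n ^ 2 := by nlinarith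
  omega

private theorem pow_len (b r : ℕ) (l : List ℕ) (h : ∀ q ∈ l, b ≤ q ^ r) :
    b ^ l.length ≤ l.prod ^ r := by
  induction l with
  | nil => simp
  | cons q l ih =>
    have h1 := ih fun p hp => h p (List.mem_cons_of_mem _ hp)
    have h2 := h q List.mem_cons_self
    rw [List.length_cons, List.prod_cons, pow_succ, mul_pow, mul_comm]
    exact Nat.mul_le_mul h2 h1

/-- at most `2 r` prime factors -/
theorem len_le {n m r : ℕ} (hr : 1 ≤ r) (hn : 2 * r ≤ n) (hn3 : 3 ≤ n) (hm : m ≠ 0)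
    (hm2 : m ≤ n ^ 2 + 3 * n) (h : ∀ q ∈ m.primeFactors, n < q ^ r) :
    m.primeFactorsList.length ≤ 2 * r := by
  by_contra hcon
  push Not at hcon
  have h1 := pow_len (n + 1) r m.primeFactorsList (fun q hq => by
    have := h q (Nat.mem_primeFactors.2 ⟨Nat.prime_of_mem_primeFactorsList hq,
      Nat.dvd_of_mem_primeFactorsList hq, hm⟩)
    omega)
  rw [Nat.prod_primeFactorsList hm] at h1
  have h2 : m ^ r ≤ ((n + 2) ^ 2) ^ r := Nat.pow_le_pow_left (by nlinarith) r
  rw [← pow_mul] at h2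
  have h3 : (n + 1) ^ (2 * r + 1) ≤ (n + 1) ^ m.primeFactorsList.length :=
    Nat.pow_le_pow_right (by omega) (by omega)
  have h4 : (n + 1) ^ (2 * r + 1) ≤ (n + 2) ^ (2 * r) := h3.trans (h1.trans h2)
  have h5 : ((n : ℝ) + 1) ^ (2 * r + 1) ≤ ((n : ℝ) + 2) ^ (2 * r) := by exact_mod_cast h4
  have hn0 : (0 : ℝ) < (n : ℝ) + 1 := by positivity
  have h6 : ((n : ℝ) + 2) ^ (2 * r) ≤ ((n : ℝ) + 1) ^ (2 * r) * 3 := by
    have h7 : (n : ℝ) + 2 = ((n : ℝ) + 1) * (1 + 1 / ((n : ℝ) + 1)) := by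
      field_simp
      ring
    rw [h7, mul_pow]
    refine mul_le_mul_of_nonneg_left ?_ (by positivity)
    calc (1 + 1 / ((n : ℝ) + 1)) ^ (2 * r) ≤ (Real.exp (1 / ((n : ℝ) + 1))) ^ (2 * r) := by
          refine pow_le_pow_left₀ (by positivity) ?_ _
          have := Real.add_one_le_exp (1 / ((n : ℝ) + 1))
          linarith
      _ = Real.exp ((2 * r : ℕ) * (1 / ((n : ℝ) + 1))) := by rw [← Real.exp_nat_mul]
      _ ≤ Real.exp 1 := by
          apply Real.exp_le_exp.2
          rw [mul_one_div, div_le_one hn0]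
          have : ((2 * r : ℕ) : ℝ) ≤ (n : ℝ) := by exact_mod_cast hn
          linarith
      _ ≤ 3 := by
          have := Real.exp_one_lt_d9
          linarith
  have h8 : ((n : ℝ) + 1) ^ (2 * r + 1) = ((n : ℝ) + 1) ^ (2 * r) * ((n : ℝ) + 1) := pow_succ _ _
  have h9 : (0 : ℝ) < ((n : ℝ) + 1) ^ (2 * r) := by positivity
  have h10 : (3 : ℝ) ≤ n := by exact_mod_cast hn3
  rw [h8] at h5
  have h11 := h5.trans h6
  have h12 := le_of_mul_le_mul_left h11 h9
  linarith

theorem AP_len {n r p : ℕ} (hr : 1 ≤ r) (hn : 2 * r ≤ n) (hn5 : 5 ≤ n) (hp : p ∈ AP n r) :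
    (n ^ 2 - n - p).primeFactorsList.length ≤ 2 * r ∧
      (n ^ 2 + n + p).primeFactorsList.length ≤ 2 * r := by
  unfold AP at hp
  rw [mem_filter, mem_Ioo] at hp
  obtain ⟨⟨h1, h2⟩, -, h3⟩ := hp
  have hA := val_bound hn5 h2
  have hA0 : n ^ 2 - n - p ≠ 0 := by omega
  have hB0 : n ^ 2 + n + p ≠ 0 := by omega
  constructor
  · refine len_le hr hn (by omega) hA0 (by omega) fun q hq => h3 q ?_
    rw [Nat.primeFactors_mul hA0 hB0]
    exact mem_union_left _ hq
  · refine len_le hr hn (by omega) hB0 (by omega) fun q hq => h3 q ?_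
    rw [Nat.primeFactors_mul hA0 hB0]
    exact mem_union_right _ hq

/-- the sum of the logarithms -/
theorem theta_up (n : ℕ) : ∑ x ∈ Ioc n (2 * n), BV.th x ≤ 3 * n := by
  have h1 : ∑ x ∈ Ioc n (2 * n), BV.th x ≤ ∑ x ∈ range (2 * n + 1) with x.Prime, Real.log x := by
    rw [sum_filter]
    refine (sum_le_sum_of_subset_of_nonneg (f := BV.th) (t := range (2 * n + 1)) ?_ ?_).trans ?_
    · intro x hx
      rw [mem_Ioc] at hx
      rw [mem_range]
      omega
    · intro x _ _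
      exact th_nn x
    · exact le_of_eq (sum_congr rfl fun x _ => rfl)
  have h2 : ∑ x ∈ range (2 * n + 1) with x.Prime, Real.log x = Real.log (primorial (2 * n)) := by
    unfold primorial
    rw [Nat.cast_prod, Real.log_prod]
    intro x hx
    have := (mem_filter.1 hx).2.pos
    positivity
  have h3 : Real.log (primorial (2 * n)) ≤ (2 * n : ℕ) * Real.log 4 := by
    rw [← Real.log_pow]
    apply Real.log_le_log
    · exact_mod_cast primorial_pos _
    · exact_mod_cast primorial_le_four_pow (2 * n)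
  have h4 : Real.log 4 ≤ 3 / 2 := by
    have : Real.log 4 = 2 * Real.log 2 := by
      rw [show (4 : ℝ) = 2 ^ 2 by norm_num, Real.log_pow]
      norm_num
    rw [this]
    have := Real.log_two_lt_d9
    linarith
  rw [h2] at h1
  refine h1.trans (h3.trans ?_)
  push_cast
  nlinarith [Nat.cast_nonneg (α := ℝ) n]

/-- `q ≤ ⌊n^(1/r)⌋` if and only if `q ^ r ≤ n` -/
theorem le_yy {n q r : ℕ} (hr : 1 ≤ r) : q ≤ yy (1 / (r : ℝ)) n ↔ q ^ r ≤ n := by
  have hr0 : (r : ℝ) ≠ 0 := by
    have : 0 < r := hr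
    positivity
  unfold yy
  rw [Nat.le_floor_iff (by positivity)]
  constructor
  · intro h
    have h1 : (q : ℝ) ^ r ≤ ((n : ℝ) ^ (1 / (r : ℝ))) ^ r := pow_le_pow_left₀ (by positivity) h r
    rw [← Real.rpow_natCast ((n : ℝ) ^ (1 / (r : ℝ))), ← Real.rpow_mul (by positivity),
      one_div_mul_cancel hr0, Real.rpow_one] at h1
    exact_mod_cast h1
  · intro h
    have h1 : (q : ℝ) ^ r ≤ n := by exact_mod_cast h
    calc (q : ℝ) = ((q : ℝ) ^ r) ^ (1 / (r : ℝ)) := by
          rw [← Real.rpow_natCast (q : ℝ), ← Real.rpow_mul (by positivity), mul_one_div_cancel hr0,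
            Real.rpow_one]
      _ ≤ (n : ℝ) ^ (1 / (r : ℝ)) := Real.rpow_le_rpow (by positivity) h1 (by positivity)

/-- **Lower bound**, from a lower bound for the sieve. -/
theorem AP_low (k : ℕ) (hk : 2 ≤ k) (r : ℕ) (hr : 1 ≤ r) (c1 : ℝ) (hc1 : 0 < c1) (X1 : ℕ)
    (H : ∀ n : ℕ, X1 ≤ n → ∀ a : ℕ, a < LL k → a.Coprime (LL k) →
      c1 * ((∑ x ∈ Ioc n (2 * n), BV.th x) / (LL k).totient) *
          ∏ p ∈ QQ k (yy (1 / (r : ℝ)) n), (1 - d2 (Om n) p) - (n : ℝ) / (Real.log n) ^ 3 ≤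
        ∑ x ∈ (Ioc n (2 * n)).filter
          (fun x => x % LL k = a ∧ ∀ p ∈ QQ k (yy (1 / (r : ℝ)) n), x % p ∉ Om n p), BV.th x) :
    ∃ (c : ℝ) (n₀ : ℕ), 0 < c ∧ ∀ n : ℕ, n₀ ≤ n →
      c * GG n * n / (Real.log n) ^ 3 ≤ ((AP n r).card : ℝ) := by
  classical
  obtain ⟨c0, hc0, hprod⟩ := prod_low k hk
  obtain ⟨X2, hX2⟩ := theta_low
  obtain ⟨φ, hφ⟩ : ∃ φ : ℝ, φ = ((LL k).totient : ℝ) := ⟨_, rfl⟩
  have hφ0 : 0 < φ := by
    rw [hφ]
    exact_mod_cast Nat.totient_pos.2 (LL_pos k)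
  set K : ℝ := 2 ^ (2 * (4 * k + 4 + 2 * r)) with hK
  have hK0 : 0 < K := by positivity
  obtain ⟨c2, hc2⟩ : ∃ c2 : ℝ, c2 = c1 * c0 / (2 * φ * K) := ⟨_, rfl⟩
  have hc20 : 0 < c2 := by
    rw [hc2]
    positivity
  have hlim3 : Filter.Tendsto (fun X : ℕ => Real.log (X : ℝ)) Filter.atTop Filter.atTop :=
    Real.tendsto_log_atTop.comp tendsto_natCast_atTop_atTop
  obtain ⟨X3, hX3⟩ := Filter.eventually_atTop.1 (hlim3.eventually_ge_atTop (max (2 / c2) 1))
  refine ⟨c2 / 4, max (max X1 X2) (max X3 (4 * k + 13)), by positivity, fun n hn => ?_⟩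
  have hn1 : X1 ≤ n := (le_max_left _ _).trans ((le_max_left _ _).trans hn)
  have hn2 : X2 ≤ n := (le_max_right _ _).trans ((le_max_left _ _).trans hn)
  have hn3 : X3 ≤ n := (le_max_left _ _).trans ((le_max_right _ _).trans hn)
  have hn13 : 4 * k + 13 ≤ n := (le_max_right _ _).trans ((le_max_right _ _).trans hn)
  have hnr : (13 : ℝ) ≤ n := by exact_mod_cast (by omega : 13 ≤ n)
  have hn0 : (0 : ℝ) < n := by linarith
  have hn1r : (1 : ℝ) < n := by linarith
  have hlog1 := hX3 n hn3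
  have hlogA : 2 / c2 ≤ Real.log n := (le_max_left _ _).trans hlog1
  have hlogB : 1 ≤ Real.log n := (le_max_right _ _).trans hlog1
  have hlog : 0 < Real.log n := by linarith
  obtain ⟨a, haL, hac, hasm⟩ := small k n (by omega)
  have hlow := H n hn1 a haL hac
  have hLq : ∀ q : ℕ, q.Prime → q ≤ 4 * k + 4 → q ∣ LL k := fun q hq h12 => dvd_LL hq h12
  rw [← hφ] at hlow
  generalize LL k = L at haL hac hlow hLq
  have hyq : ∀ q : ℕ, q ≤ yy (1 / (r : ℝ)) n ↔ q ^ r ≤ n := fun q => le_yy hr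
  set y := yy (1 / (r : ℝ)) n with hy
  have hyn : y ≤ n := by
    rcases Nat.lt_or_ge y 1 with h | h
    · omega
    · exact (Nat.le_self_pow (by omega) y).trans ((hyq y).1 le_rfl)
  have hyr : n < (y + 1) ^ r := by
    by_contra h
    push Not at h
    have := (hyq (y + 1)).2 h
    omega
  have hT : (n : ℝ) / 2 ≤ ∑ x ∈ Ioc n (2 * n), BV.th x := by
    have := hX2 n 0 hn2 (by
      push_cast
      positivity)
    simpa using this
  have hP := hprod n n y (by omega) (by omega) hyn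
  have hGG := GG_le k r hr (by omega : 2 ≤ n) hyr
  rw [← hK] at hGG
  have hG1 := GG_one_le n
  have hff : 0 ≤ ∏ q ∈ QQ k y, ff n q := prod_nonneg fun q _ => by linarith [ff_one_le n q]
  set S := ∑ x ∈ (Ioc n (2 * n)).filter
      (fun x => x % L = a ∧ ∀ p ∈ QQ k y, x % p ∉ Om n p), BV.th x with hS
  -- lower bound for S
  have hS1 : c2 / 2 * GG n * n / (Real.log n) ^ 2 ≤ S := by
    have h0 : GG n / K ≤ ∏ q ∈ QQ k y, ff n q := by
      rw [div_le_iff₀ hK0]
      linarith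
    have h1 : c1 * ((n : ℝ) / 2 / φ) * (c0 / (Real.log n) ^ 2 * (GG n / K)) ≤
        c1 * ((∑ x ∈ Ioc n (2 * n), BV.th x) / φ) * ∏ p ∈ QQ k y, (1 - d2 (Om n) p) := by
      refine mul_le_mul ?_ ?_ (by positivity) ?_
      · gcongr
      · refine le_trans ?_ hP
        exact mul_le_mul_of_nonneg_left h0 (by positivity)
      · have : 0 ≤ (∑ x ∈ Ioc n (2 * n), BV.th x) := by linarith
        positivity
    have h2 : (n : ℝ) / (Real.log n) ^ 3 ≤ c2 / 2 * GG n * n / (Real.log n) ^ 2 := by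
      rw [div_le_div_iff₀ (by positivity) (by positivity)]
      have h3 : 1 ≤ c2 / 2 * Real.log n := by
        rw [div_le_iff₀ hc20] at hlogA
        linarith
      have h3' : 1 ≤ c2 / 2 * Real.log n * GG n := one_le_mul_of_one_le_of_one_le h3 hG1
      have h4 : (n : ℝ) * Real.log n ^ 2 * 1 ≤
          (n : ℝ) * Real.log n ^ 2 * (c2 / 2 * Real.log n * GG n) :=
        mul_le_mul_of_nonneg_left h3' (by positivity)
      calc (n : ℝ) * Real.log n ^ 2 = (n : ℝ) * Real.log n ^ 2 * 1 := by ring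
        _ ≤ _ := h4
        _ = _ := by ring
    have h5 : c1 * ((n : ℝ) / 2 / φ) * (c0 / (Real.log n) ^ 2 * (GG n / K)) =
        2 * (c2 / 2 * GG n * n / (Real.log n) ^ 2) := by
      rw [hc2]
      field_simp
    linarith
  -- upper bound for S
  have hS2 : S ≤ ((AP n r).card : ℝ) * (2 * Real.log n) := by
    rw [hS, ← sum_filter_ne_zero]
    have h1 : ((Ioc n (2 * n)).filter
        (fun x => x % L = a ∧ ∀ p ∈ QQ k y, x % p ∉ Om n p)).filter (fun x => BV.th x ≠ 0) ⊆
          AP n r := by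
      intro x hx
      rw [mem_filter, mem_filter, mem_Ioc] at hx
      obtain ⟨⟨⟨h1, h2⟩, h3, h4⟩, h5⟩ := hx
      have hxp : x.Prime := by
        by_contra h6
        exact h5 (if_neg h6)
      have h2' : x < 2 * n := by
        rcases Nat.lt_or_ge x (2 * n) with h6 | h6
        · exact h6
        · exfalso
          have h7 : x = 2 * n := by omega
          rw [h7] at hxp
          exact Nat.not_prime_mul (by norm_num) (by omega) hxp
      unfold AP
      rw [mem_filter, mem_Ioo]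
      refine ⟨⟨h1, h2'⟩, hxp, fun q hq => ?_⟩
      have hqp := Nat.prime_of_mem_primeFactors hq
      have hqd := Nat.dvd_of_mem_primeFactors hq
      by_contra hlt
      push Not at hlt
      have hqy : q ≤ y := (hyq q).2 hlt
      rcases Nat.lt_or_ge (4 * k + 4) q with h12 | h12
      · have hqQ : q ∈ QQ k y := by
          unfold QQ PP
          rw [mem_filter, mem_range]
          exact ⟨by omega, hqp, by omega⟩
        exact not_dvd (by omega) hxp h2' hqp (by omega) (h4 q hqQ) hqd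
      · have h6 := (hasm q hqp h12).2
        have h7 : x % q = a % q := by
          rw [← h3, Nat.mod_mod_of_dvd x (hLq q hqp h12)]
        rw [← h7] at h6
        exact not_dvd (by omega) hxp h2' hqp (by omega) h6 hqd
    calc ∑ x ∈ ((Ioc n (2 * n)).filter
        (fun x => x % L = a ∧ ∀ p ∈ QQ k y, x % p ∉ Om n p)).filter (fun x => BV.th x ≠ 0), BV.th x
        ≤ ∑ x ∈ AP n r, BV.th x := sum_le_sum_of_subset_of_nonneg h1 fun x _ _ => th_nn x
      _ ≤ ∑ x ∈ AP n r, 2 * Real.log n := by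
          refine sum_le_sum fun x hx => ?_
          unfold AP at hx
          rw [mem_filter, mem_Ioo] at hx
          have hx1 : (x : ℝ) ≤ (n : ℝ) ^ 2 := by
            have : x ≤ n ^ 2 := by nlinarith [hx.1.2]
            exact_mod_cast this
          unfold BV.th
          rw [if_pos hx.2.1]
          calc Real.log x ≤ Real.log ((n : ℝ) ^ 2) := Real.log_le_log (by
                exact_mod_cast hx.2.1.pos) hx1
            _ = 2 * Real.log n := by
                rw [Real.log_pow]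
                norm_num
      _ = ((AP n r).card : ℝ) * (2 * Real.log n) := by rw [sum_const, nsmul_eq_mul]
  have hfin := hS1.trans hS2
  calc c2 / 4 * GG n * n / (Real.log n) ^ 3 =
        (c2 / 2 * GG n * n / (Real.log n) ^ 2) / (2 * Real.log n) := by
        field_simp
        ring
    _ ≤ ((AP n r).card : ℝ) := by
        rw [div_le_iff₀ (by positivity)]
        exact hfin

/-- **Upper bound.** -/
theorem AP_up (r : ℕ) (hr : 1 ≤ r) : ∃ (C : ℝ) (n₀ : ℕ), 0 < C ∧ ∀ n : ℕ, n₀ ≤ n →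
    ((AP n r).card : ℝ) ≤ C * GG n * n / (Real.log n) ^ 3 := by
  classical
  obtain ⟨δ1, hδ1, hδ16, hcore⟩ := core 2 (by norm_num)
  obtain ⟨R, hR⟩ : ∃ R : ℕ, R = max r ⌈1 / δ1⌉₊ := ⟨_, rfl⟩
  have hRr : r ≤ R := by rw [hR]; exact le_max_left _ _
  have hR1 : 1 ≤ R := hr.trans hRr
  have hRpos : (0 : ℝ) < R := by exact_mod_cast hR1
  have hRδ : 1 / (R : ℝ) ≤ δ1 := by
    have h1 : 1 / δ1 ≤ (R : ℝ) := by
      refine (Nat.le_ceil _).trans ?_
      rw [hR]
      exact_mod_cast le_max_right _ _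
    rw [div_le_iff₀ hδ1] at h1
    rw [div_le_iff₀ hRpos]
    linarith
  obtain ⟨δ, hδdef⟩ : ∃ δ : ℝ, δ = 1 / (R : ℝ) := ⟨_, rfl⟩
  have hδ : 0 < δ := by
    rw [hδdef]
    positivity
  obtain ⟨X1, hX1⟩ := hcore δ hδ (by rw [hδdef]; exact hRδ) 3
  obtain ⟨C0, hC0, hprod⟩ := prod_up
  have hlim3 : Filter.Tendsto (fun X : ℕ => Real.log (X : ℝ)) Filter.atTop Filter.atTop :=
    Real.tendsto_log_atTop.comp tendsto_natCast_atTop_atTop
  have hlim1 : Filter.Tendsto (fun X : ℕ => (X : ℝ) ^ (δ / 2)) Filter.atTop Filter.atTop :=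
    (tendsto_rpow_atTop (by positivity)).comp tendsto_natCast_atTop_atTop
  obtain ⟨X3, hX3⟩ := Filter.eventually_atTop.1
    ((hlim3.eventually_ge_atTop 1).and (hlim1.eventually_ge_atTop 2))
  refine ⟨24 * C0 / δ ^ 2 + 1, max X1 (max X3 13), by positivity, fun n hn => ?_⟩
  have hn1 : X1 ≤ n := (le_max_left _ _).trans hn
  have hn3 : X3 ≤ n := (le_max_left _ _).trans ((le_max_right _ _).trans hn)
  have hn13 : 13 ≤ n := (le_max_right _ _).trans ((le_max_right _ _).trans hn)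
  have hnr : (13 : ℝ) ≤ n := by exact_mod_cast hn13
  have hn0 : (0 : ℝ) < n := by linarith
  have hn1r : (1 : ℝ) < n := by linarith
  obtain ⟨hlogB, hpow⟩ := hX3 n hn3
  have hlog : 0 < Real.log n := by linarith
  obtain ⟨hy2, hmain⟩ := hX1 n hn1
  have hyq : ∀ q : ℕ, q ≤ yy δ n ↔ q ^ R ≤ n := fun q => by
    rw [hδdef]
    exact le_yy hR1
  set y := yy δ n with hy
  have hylt : (n : ℝ) ^ δ < (y : ℝ) + 1 := by
    rw [hy]
    unfold yy
    exact Nat.lt_floor_add_one _
  have hylog : δ / 2 * Real.log n ≤ Real.log y := by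
    have h1 : (n : ℝ) ^ (δ / 2) ≤ y := by
      have h2 : (n : ℝ) ^ δ = (n : ℝ) ^ (δ / 2) * (n : ℝ) ^ (δ / 2) := by
        rw [← Real.rpow_add hn0]
        congr 1
        ring
      rw [h2] at hylt
      set u := (n : ℝ) ^ (δ / 2) with hu
      have h3 : 2 * u ≤ u * u := by nlinarith
      linarith
    have h2 : Real.log ((n : ℝ) ^ (δ / 2)) ≤ Real.log y := Real.log_le_log (by positivity) h1
    rwa [Real.log_rpow hn0] at h2
  have hup := (hmain (Om n) (Om_lt n) (Om_zero n) (card_Om_le n) 1 0 (one_dvd _) (by norm_num)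
    (Nat.coprime_one_right 0)).2
  have hP := hprod n y (by omega) hy2
  have hG1 := GG_one_le n
  set G : ℝ := GG n with hG
  have h1 : ((AP n r).card : ℝ) * Real.log n ≤ ∑ x ∈ (Ioc n (2 * n)).filter
      (fun x => x % 1 = 0 ∧ ∀ p ∈ QQ 2 y, x % p ∉ Om n p), BV.th x := by
    calc ((AP n r).card : ℝ) * Real.log n = ∑ x ∈ AP n r, Real.log n := by
          rw [sum_const, nsmul_eq_mul]
      _ ≤ ∑ x ∈ AP n r, BV.th x := by
          refine sum_le_sum fun x hx => ?_
          unfold AP at hx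
          rw [mem_filter, mem_Ioo] at hx
          unfold BV.th
          rw [if_pos hx.2.1]
          exact Real.log_le_log hn0 (by exact_mod_cast hx.1.1.le)
      _ ≤ _ := by
          refine sum_le_sum_of_subset_of_nonneg ?_ fun x _ _ => th_nn x
          intro x hx
          unfold AP at hx
          rw [mem_filter, mem_Ioo] at hx
          obtain ⟨⟨h2, h3⟩, h4, h5⟩ := hx
          rw [mem_filter, mem_Ioc]
          refine ⟨⟨h2, h3.le⟩, Nat.mod_one _, fun p hp hmem => ?_⟩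
          obtain ⟨h7, h8, h9⟩ := mem_QQ hp
          have h10 := val_bound (x := x) (by omega : 5 ≤ n) h3
          have hd : p ∣ (n ^ 2 - n - x) * (n ^ 2 + n + x) := by
            rcases dvd_of_mem (by omega) h3 hmem with h | h
            · exact h.mul_right _
            · exact h.mul_left _
          have h11 : (n ^ 2 - n - x) * (n ^ 2 + n + x) ≠ 0 :=
            Nat.mul_ne_zero (by omega) (by omega)
          have h12 := h5 p (Nat.mem_primeFactors.2 ⟨h7, hd, h11⟩)
          have h13 : p ^ R ≤ n := (hyq p).1 h9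
          have h14 : p ^ r ≤ p ^ R := Nat.pow_le_pow_right h7.pos hRr
          omega
  have h2 : ∑ x ∈ (Ioc n (2 * n)).filter
      (fun x => x % 1 = 0 ∧ ∀ p ∈ QQ 2 y, x % p ∉ Om n p), BV.th x ≤
      (24 * C0 / δ ^ 2 + 1) * G * n / (Real.log n) ^ 2 := by
    refine hup.trans ?_
    rw [Nat.totient_one, Nat.cast_one, div_one]
    have hT := theta_up n
    have hT0 : 0 ≤ ∑ x ∈ Ioc n (2 * n), BV.th x := sum_nonneg fun x _ => th_nn x
    have hly : 0 < Real.log y := lt_of_lt_of_le (by positivity) hylog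
    have h3 : C0 / (Real.log y) ^ 2 * G ≤ C0 / (δ / 2 * Real.log n) ^ 2 * G := by
      have : C0 / (Real.log y) ^ 2 ≤ C0 / (δ / 2 * Real.log n) ^ 2 := by
        apply div_le_div_of_nonneg_left hC0.le (by positivity)
        exact pow_le_pow_left₀ (by positivity) hylog 2
      exact mul_le_mul_of_nonneg_right this (by linarith)
    have h4 : 2 * (∑ x ∈ Ioc n (2 * n), BV.th x) * ∏ p ∈ QQ 2 y, (1 - d2 (Om n) p) ≤
        2 * (3 * n) * (C0 / (δ / 2 * Real.log n) ^ 2 * G) := by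
      calc 2 * (∑ x ∈ Ioc n (2 * n), BV.th x) * ∏ p ∈ QQ 2 y, (1 - d2 (Om n) p)
          ≤ 2 * (∑ x ∈ Ioc n (2 * n), BV.th x) * (C0 / (δ / 2 * Real.log n) ^ 2 * G) :=
            mul_le_mul_of_nonneg_left (hP.trans h3) (by positivity)
        _ ≤ _ := by
            refine mul_le_mul_of_nonneg_right (by linarith) ?_
            have : 0 ≤ G := by linarith
            positivity
    have h5 : 2 * (3 * (n : ℝ)) * (C0 / (δ / 2 * Real.log n) ^ 2 * G) =
        24 * C0 / δ ^ 2 * G * n / (Real.log n) ^ 2 := by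
      field_simp
      ring
    have h6 : (n : ℝ) / (Real.log n) ^ 3 ≤ 1 * G * n / (Real.log n) ^ 2 := by
      rw [div_le_div_iff₀ (by positivity) (by positivity)]
      have h7 : (n : ℝ) * Real.log n ^ 2 * 1 ≤ (n : ℝ) * Real.log n ^ 2 * (G * Real.log n) := by
        refine mul_le_mul_of_nonneg_left ?_ (by positivity)
        nlinarith
      calc (n : ℝ) * Real.log n ^ 2 = (n : ℝ) * Real.log n ^ 2 * 1 := by ring
        _ ≤ _ := h7
        _ = _ := by ring
    have h8 : (24 * C0 / δ ^ 2 + 1) * G * n / (Real.log n) ^ 2 =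
        24 * C0 / δ ^ 2 * G * n / (Real.log n) ^ 2 + 1 * G * n / (Real.log n) ^ 2 := by ring
    rw [h8, ← h5]
    exact add_le_add h4 h6
  have h3 := h1.trans h2
  calc ((AP n r).card : ℝ) = ((AP n r).card : ℝ) * Real.log n / Real.log n := by
        rw [mul_div_assoc, div_self hlog.ne', mul_one]
    _ ≤ ((24 * C0 / δ ^ 2 + 1) * G * n / (Real.log n) ^ 2) / Real.log n :=
        div_le_div_of_nonneg_right h3 hlog.le
    _ = _ := by
        rw [div_div, ← pow_succ]

theorem AP_mono {n r r' : ℕ} (h : r ≤ r') : AP n r ⊆ AP n r' := by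
  intro p hp
  unfold AP at hp ⊢
  rw [mem_filter] at hp ⊢
  exact ⟨hp.1, hp.2.1, fun q hq => lt_of_lt_of_le (hp.2.2 q hq)
    (Nat.pow_le_pow_right (Nat.prime_of_mem_primeFactors hq).pos h)⟩

/-- the lower bound for `r = 27` -/
theorem AP_low_27 : ∃ (c : ℝ) (n₀ : ℕ), 0 < c ∧
    ∀ n : ℕ, n₀ ≤ n → c * GG n * n / (Real.log n) ^ 3 ≤ ((AP n 27).card : ℝ) := by
  obtain ⟨k, hk, hlow⟩ := low27
  obtain ⟨X1, hX1⟩ := hlow 3
  exact AP_low k hk 27 (by norm_num) (1 / 2) (by norm_num) X1 fun n hn a ha hac =>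
    hX1 n hn (Om n) (Om_lt n) (Om_zero n) (card_Om_le n) (LL k) a dvd_rfl ha hac

end Pool.Agent.Lib.MP_d06d57_nt
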