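import Pool.Agent.Lib.MP_d06d57_nt.Wt

/-!
# MP_d06d57_nt, Ten: the weighted sieve with ten intervals

`u = 1/56`, `v = 23/50`, `K = 53/10`: the sum of the ten constants is less than `99/100 * 53/10`.
-/

set_option autoImplicit false

open Finset

namespace Pool.Agent.Lib.MP_d06d57_nt

open Pool.Agent.Lib.MT Pool.Agent.Lib.MTR

theorem log_le_of (r L : ℝ) (m : ℕ) (hm : 0 < m) (hr : 0 < r) (hL : 0 ≤ L)
    (h : r ≤ (1 + L / m) ^ m) : Real.log r ≤ L := by
  have hm' : (0 : ℝ) < m := by exact_mod_cast hm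
  have h0 : 0 < 1 + L / m := by positivity
  calc Real.log r ≤ Real.log ((1 + L / m) ^ m) := Real.log_le_log hr h
    _ = m * Real.log (1 + L / m) := by rw [Real.log_pow]
    _ ≤ m * (L / m) := by
        refine mul_le_mul_of_nonneg_left ?_ hm'.le
        have := Real.log_le_sub_one_of_pos h0
        linarith
    _ = L := by field_simp

private theorem num2 : NumOk 2 (1726 / 10000) := by
  unfold NumOk
  norm_num [Nat.factorial]

private theorem num3 : NumOk 3 (8 / 1000) := by
  unfold NumOk
  norm_num [Nat.factorial]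

set_option exponentiation.threshold 1100 in
private theorem I0 : ∃ w : ℕ, ∀ k : ℕ, w ≤ k → 2 ≤ k →
    Ival (1 / 56) (23 / 50) (1 / 56) (107 / 500) (415593 / 100000) k := by
  have hl := log_le_of ((107 / 500) / (1 / 56)) (248659 / 100000) 1024 (by norm_num) (by norm_num) (by norm_num)
    (by norm_num)
  refine interval (b := 3) (by norm_num) (e := 8 / 1000) (by norm_num) num3 (1 / 56) (23 / 50)
    (1 / 56) (107 / 500) (1 / 56) (1 / 10000) (1 / 10000) (412049 / 100000) (2017 / 2000) (415593 / 100000)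
    (by norm_num) (by norm_num) (by norm_num) (by norm_num) (by norm_num) (by norm_num)
    (by norm_num) (by norm_num) (by norm_num) (by norm_num) ?_ (by norm_num) (by norm_num)
    (by norm_num) (by norm_num)
  linarith

private theorem I1 : ∃ w : ℕ, ∀ k : ℕ, w ≤ k → 2 ≤ k →
    Ival (1 / 56) (23 / 50) (107 / 500) (571 / 2000) (31613 / 100000) k := by
  have hl := log_le_of ((571 / 2000) / (107 / 500)) (7223 / 25000) 64 (by norm_num) (by norm_num) (by norm_num)
    (by norm_num)
  refine interval (b := 2) (by norm_num) (e := 1726 / 10000) (by norm_num) num2 (1 / 56) (23 / 50)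
    (107 / 500) (571 / 2000) (1 / 56) (1 / 10000) (1 / 10000) (6677 / 25000) (2367 / 2000) (31613 / 100000)
    (by norm_num) (by norm_num) (by norm_num) (by norm_num) (by norm_num) (by norm_num)
    (by norm_num) (by norm_num) (by norm_num) (by norm_num) ?_ (by norm_num) (by norm_num)
    (by norm_num) (by norm_num)
  linarith

private theorem I2 : ∃ w : ℕ, ∀ k : ℕ, w ≤ k → 2 ≤ k →
    Ival (1 / 56) (23 / 50) (571 / 2000) (631 / 2000) (11237 / 100000) k := by
  have hl := log_le_of ((631 / 2000) / (571 / 2000)) (1253 / 12500) 16 (by norm_num) (by norm_num) (by norm_num)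
    (by norm_num)
  refine interval (b := 2) (by norm_num) (e := 1726 / 10000) (by norm_num) num2 (1 / 56) (23 / 50)
    (571 / 2000) (631 / 2000) (307 / 20000) (1 / 10000) (1 / 10000) (1403 / 20000) (2367 / 2000) (11237 / 100000)
    (by norm_num) (by norm_num) (by norm_num) (by norm_num) (by norm_num) (by norm_num)
    (by norm_num) (by norm_num) (by norm_num) (by norm_num) ?_ (by norm_num) (by norm_num)
    (by norm_num) (by norm_num)
  linarith

private theorem I3 : ∃ w : ℕ, ∀ k : ℕ, w ≤ k → 2 ≤ k →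
    Ival (1 / 56) (23 / 50) (631 / 2000) (3431 / 10000) (107 / 1000) k := by
  have hl := log_le_of ((3431 / 10000) / (631 / 2000)) (8409 / 100000) 16 (by norm_num) (by norm_num) (by norm_num)
    (by norm_num)
  refine interval (b := 2) (by norm_num) (e := 1726 / 10000) (by norm_num) num2 (1 / 56) (23 / 50)
    (631 / 2000) (3431 / 10000) (261 / 20000) (1 / 10000) (1 / 10000) (1207 / 25000) (2367 / 2000) (107 / 1000)
    (by norm_num) (by norm_num) (by norm_num) (by norm_num) (by norm_num) (by norm_num)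
    (by norm_num) (by norm_num) (by norm_num) (by norm_num) ?_ (by norm_num) (by norm_num)
    (by norm_num) (by norm_num)
  linarith

private theorem I4 : ∃ w : ℕ, ∀ k : ℕ, w ≤ k → 2 ≤ k →
    Ival (1 / 56) (23 / 50) (3431 / 10000) (46 / 125) (5053 / 50000) k := by
  have hl := log_le_of ((46 / 125) / (3431 / 10000)) (3511 / 50000) 16 (by norm_num) (by norm_num) (by norm_num)
    (by norm_num)
  refine interval (b := 2) (by norm_num) (e := 1726 / 10000) (by norm_num) num2 (1 / 56) (23 / 50)
    (3431 / 10000) (46 / 125) (549 / 50000) (1 / 10000) (1 / 10000) (807 / 25000) (2367 / 2000) (5053 / 50000)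
    (by norm_num) (by norm_num) (by norm_num) (by norm_num) (by norm_num) (by norm_num)
    (by norm_num) (by norm_num) (by norm_num) (by norm_num) ?_ (by norm_num) (by norm_num)
    (by norm_num) (by norm_num)
  linarith

private theorem I5 : ∃ w : ℕ, ∀ k : ℕ, w ≤ k → 2 ≤ k →
    Ival (1 / 56) (23 / 50) (46 / 125) (244 / 625) (9601 / 100000) k := by
  have hl := log_le_of ((244 / 625) / (46 / 125)) (37 / 625) 16 (by norm_num) (by norm_num) (by norm_num)
    (by norm_num)
  refine interval (b := 2) (by norm_num) (e := 1726 / 10000) (by norm_num) num2 (1 / 56) (23 / 50)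
    (46 / 125) (244 / 625) (911 / 100000) (1 / 10000) (1 / 10000) (2111 / 100000) (2367 / 2000) (9601 / 100000)
    (by norm_num) (by norm_num) (by norm_num) (by norm_num) (by norm_num) (by norm_num)
    (by norm_num) (by norm_num) (by norm_num) (by norm_num) ?_ (by norm_num) (by norm_num)
    (by norm_num) (by norm_num)
  linarith

private theorem I6 : ∃ w : ℕ, ∀ k : ℕ, w ≤ k → 2 ≤ k →
    Ival (1 / 56) (23 / 50) (244 / 625) (4103 / 10000) (8963 / 100000) k := by
  have hl := log_le_of ((4103 / 10000) / (244 / 625)) (249 / 5000) 16 (by norm_num) (by norm_num) (by norm_num)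
    (by norm_num)
  refine interval (b := 2) (by norm_num) (e := 1726 / 10000) (by norm_num) num2 (1 / 56) (23 / 50)
    (244 / 625) (4103 / 10000) (149 / 20000) (1 / 10000) (1 / 10000) (659 / 50000) (2367 / 2000) (8963 / 100000)
    (by norm_num) (by norm_num) (by norm_num) (by norm_num) (by norm_num) (by norm_num)
    (by norm_num) (by norm_num) (by norm_num) (by norm_num) ?_ (by norm_num) (by norm_num)
    (by norm_num) (by norm_num)
  linarith

private theorem I7 : ∃ w : ℕ, ∀ k : ℕ, w ≤ k → 2 ≤ k →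
    Ival (1 / 56) (23 / 50) (4103 / 10000) (2141 / 5000) (259 / 3125) k := by
  have hl := log_le_of ((2141 / 5000) / (4103 / 10000)) (1069 / 25000) 16 (by norm_num) (by norm_num) (by norm_num)
    (by norm_num)
  refine interval (b := 2) (by norm_num) (e := 1726 / 10000) (by norm_num) num2 (1 / 56) (23 / 50)
    (4103 / 10000) (2141 / 5000) (149 / 25000) (1 / 10000) (1 / 10000) (39 / 5000) (2367 / 2000) (259 / 3125)
    (by norm_num) (by norm_num) (by norm_num) (by norm_num) (by norm_num) (by norm_num)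
    (by norm_num) (by norm_num) (by norm_num) (by norm_num) ?_ (by norm_num) (by norm_num)
    (by norm_num) (by norm_num)
  linarith

private theorem I8 : ∃ w : ℕ, ∀ k : ℕ, w ≤ k → 2 ≤ k →
    Ival (1 / 56) (23 / 50) (2141 / 5000) (889 / 2000) (3621 / 50000) k := by
  have hl := log_le_of ((889 / 2000) / (2141 / 5000)) (3741 / 100000) 16 (by norm_num) (by norm_num) (by norm_num)
    (by norm_num)
  refine interval (b := 2) (by norm_num) (e := 1726 / 10000) (by norm_num) num2 (1 / 56) (23 / 50)
    (2141 / 5000) (889 / 2000) (23 / 5000) (1 / 10000) (1 / 10000) (203 / 50000) (2367 / 2000) (3621 / 50000)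
    (by norm_num) (by norm_num) (by norm_num) (by norm_num) (by norm_num) (by norm_num)
    (by norm_num) (by norm_num) (by norm_num) (by norm_num) ?_ (by norm_num) (by norm_num)
    (by norm_num) (by norm_num)
  linarith

private theorem I9 : ∃ w : ℕ, ∀ k : ℕ, w ≤ k → 2 ≤ k →
    Ival (1 / 56) (23 / 50) (889 / 2000) (23 / 50) (4651 / 100000) k := by
  have hl := log_le_of ((23 / 50) / (889 / 2000)) (429 / 12500) 16 (by norm_num) (by norm_num) (by norm_num)
    (by norm_num)
  refine interval (b := 2) (by norm_num) (e := 1726 / 10000) (by norm_num) num2 (1 / 56) (23 / 50)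
    (889 / 2000) (23 / 50) (331 / 100000) (1 / 10000) (1 / 10000) (27 / 20000) (2367 / 2000) (4651 / 100000)
    (by norm_num) (by norm_num) (by norm_num) (by norm_num) (by norm_num) (by norm_num)
    (by norm_num) (by norm_num) (by norm_num) (by norm_num) ?_ (by norm_num) (by norm_num)
    (by norm_num) (by norm_num)
  linarith

/-- the cut points -/
private noncomputable def tt (j : ℕ) : ℝ := [(1 / 56 : ℝ), (107 / 500 : ℝ), (571 / 2000 : ℝ), (631 / 2000 : ℝ), (3431 / 10000 : ℝ), (46 / 125 : ℝ), (244 / 625 : ℝ), (4103 / 10000 : ℝ), (2141 / 5000 : ℝ), (889 / 2000 : ℝ), (23 / 50 : ℝ)].getD j 0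

/-- the constants -/
private noncomputable def MM (j : ℕ) : ℝ := [(415593 / 100000 : ℝ), (31613 / 100000 : ℝ), (11237 / 100000 : ℝ), (107 / 1000 : ℝ), (5053 / 50000 : ℝ), (9601 / 100000 : ℝ), (8963 / 100000 : ℝ), (259 / 3125 : ℝ), (3621 / 50000 : ℝ), (4651 / 100000 : ℝ)].getD j 0

/-- the weighted sieve with `n^(1/56)`, `n^(23/50)` and threshold `53/10` -/
theorem weighted13 : ∃ k : ℕ, 2 ≤ k ∧ ∃ (c : ℝ) (N₀ : ℕ), 0 < c ∧ ∀ n : ℕ, N₀ ≤ n →
    ∀ Ω : ℕ → Finset ℕ, (∀ p, ∀ c ∈ Ω p, c < p) → (∀ p, 0 ∉ Ω p) → (∀ p, (Ω p).card ≤ 2) →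
    ∀ L a : ℕ, L ∣ LL k → a < L → a.Coprime L →
      c * ((∑ x ∈ Ioc n (2 * n), BV.th x) / L.totient) *
          ∏ p ∈ QQ k (yy (1 / 56) n), (1 - d2 Ω p) - (n : ℝ) / (Real.log n) ^ 3 ≤
        ∑ x ∈ (Ioc n (2 * n)).filter (fun x => x % L = a ∧
          (∀ p ∈ QQ k (yy (1 / 56) n), x % p ∉ Ω p) ∧
            wts (1 / 56) (23 / 50) (23 / 50) Ω n x < 53 / 10), BV.th x := by
  refine combine (1 / 56) (23 / 50) (53 / 10) 10 tt MM (by norm_num) (by norm_num) ?_ ?_ ?_
    (by norm_num) ?_ (by norm_num) ?_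
  · simp [tt]
  · simp [tt]
    try norm_num
  · intro j hj
    interval_cases j <;> simp [tt] <;> norm_num
  · intro j hj
    interval_cases j

    · simpa [tt, MM] using I0

    · simpa [tt, MM] using I1

    · simpa [tt, MM] using I2

    · simpa [tt, MM] using I3

    · simpa [tt, MM] using I4

    · simpa [tt, MM] using I5

    · simpa [tt, MM] using I6

    · simpa [tt, MM] using I7

    · simpa [tt, MM] using I8

    · simpa [tt, MM] using I9

  · simp [MM, sum_range_succ]
    norm_num

end Pool.Agent.Lib.MP_d06d57_nt
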