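import Pool.Agent.Lib.MP_d06d57_nt.App
import Pool.Agent.Lib.MP_d06d57_nt.Ten

/-!
# MP_d06d57_nt, App2: lower bound with an additional property, and the exceptional set

`AP_lowP` is `AP_low` with an additional property of the primes. `exc_small`: there are few `p` with a prime `q` of
`(n^(1/56), n^(23/50)]` whose square divides `n² - n - p` or `n² + n + p`.
-/

set_option autoImplicit false

open Finset

namespace Pool.Agent.Lib.MP_d06d57_nt

open Pool.Agent.Lib.MT Pool.Agent.Lib.MTR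

open Classical in
/-- **Lower bound**, from a lower bound for the sieve, with an additional property `P n x`. -/
theorem AP_lowP (P : ℕ → ℕ → Prop) (k : ℕ) (hk : 2 ≤ k) (r : ℕ) (hr : 1 ≤ r) (c1 : ℝ) (hc1 : 0 < c1)
    (X1 : ℕ)
    (H : ∀ n : ℕ, X1 ≤ n → ∀ a : ℕ, a < LL k → a.Coprime (LL k) →
      c1 * ((∑ x ∈ Ioc n (2 * n), BV.th x) / (LL k).totient) *
          ∏ p ∈ QQ k (yy (1 / (r : ℝ)) n), (1 - d2 (Om n) p) - (n : ℝ) / (Real.log n) ^ 3 ≤
        ∑ x ∈ (Ioc n (2 * n)).filter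
          (fun x => x % LL k = a ∧ (∀ p ∈ QQ k (yy (1 / (r : ℝ)) n), x % p ∉ Om n p) ∧ P n x),
          BV.th x) :
    ∃ (c : ℝ) (n₀ : ℕ), 0 < c ∧ ∀ n : ℕ, n₀ ≤ n →
      c * GG n * n / (Real.log n) ^ 3 ≤ (((AP n r).filter (P n)).card : ℝ) := by
  classical
  obtain ⟨c0, hc0, hprod⟩ := prod_low k hk
  obtain ⟨X2, hX2⟩ := theta_low
  obtain ⟨φ, hφ⟩ : ∃ φ : ℝ, φ = ((LL k).totient : ℝ) := ⟨_, rfl⟩
  have hφ0 : 0 < φ := by
    rw [hφ]
    exact_mod_cast Nat.totient_pos.2 (LL_pos k)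
  set K : ℝ := 2 ^ (2 * (4 * k + 4 + 2 * r)) with hK
  have hK0 : 0 < K := by positivity
  obtain ⟨c2, hc2⟩ : ∃ c2 : ℝ, c2 = c1 * c0 / (2 * φ * K) := ⟨_, rfl⟩
  have hc20 : 0 < c2 := by
    rw [hc2]
    positivity
  have hlim3 : Filter.Tendsto (fun X : ℕ => Real.log (X : ℝ)) Filter.atTop Filter.atTop :=
    Real.tendsto_log_atTop.comp tendsto_natCast_atTop_atTop
  obtain ⟨X3, hX3⟩ := Filter.eventually_atTop.1 (hlim3.eventually_ge_atTop (max (2 / c2) 1))
  refine ⟨c2 / 4, max (max X1 X2) (max X3 (4 * k + 13)), by positivity, fun n hn => ?_⟩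
  have hn1 : X1 ≤ n := (le_max_left _ _).trans ((le_max_left _ _).trans hn)
  have hn2 : X2 ≤ n := (le_max_right _ _).trans ((le_max_left _ _).trans hn)
  have hn3 : X3 ≤ n := (le_max_left _ _).trans ((le_max_right _ _).trans hn)
  have hn13 : 4 * k + 13 ≤ n := (le_max_right _ _).trans ((le_max_right _ _).trans hn)
  have hnr : (13 : ℝ) ≤ n := by exact_mod_cast (by omega : 13 ≤ n)
  have hn0 : (0 : ℝ) < n := by linarith
  have hn1r : (1 : ℝ) < n := by linarith
  have hlog1 := hX3 n hn3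
  have hlogA : 2 / c2 ≤ Real.log n := (le_max_left _ _).trans hlog1
  have hlogB : 1 ≤ Real.log n := (le_max_right _ _).trans hlog1
  have hlog : 0 < Real.log n := by linarith
  obtain ⟨a, haL, hac, hasm⟩ := small k n (by omega)
  have hlow := H n hn1 a haL hac
  have hLq : ∀ q : ℕ, q.Prime → q ≤ 4 * k + 4 → q ∣ LL k := fun q hq h12 => dvd_LL hq h12
  rw [← hφ] at hlow
  generalize LL k = L at haL hac hlow hLq
  have hyq : ∀ q : ℕ, q ≤ yy (1 / (r : ℝ)) n ↔ q ^ r ≤ n := fun q => le_yy hr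
  set y := yy (1 / (r : ℝ)) n with hy
  have hyn : y ≤ n := by
    rcases Nat.lt_or_ge y 1 with h | h
    · omega
    · exact (Nat.le_self_pow (by omega) y).trans ((hyq y).1 le_rfl)
  have hyr : n < (y + 1) ^ r := by
    by_contra h
    push Not at h
    have := (hyq (y + 1)).2 h
    omega
  have hT : (n : ℝ) / 2 ≤ ∑ x ∈ Ioc n (2 * n), BV.th x := by
    have := hX2 n 0 hn2 (by
      push_cast
      positivity)
    simpa using this
  have hP := hprod n n y (by omega) (by omega) hyn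
  have hGG := GG_le k r hr (by omega : 2 ≤ n) hyr
  rw [← hK] at hGG
  have hG1 := GG_one_le n
  have hff : 0 ≤ ∏ q ∈ QQ k y, ff n q := prod_nonneg fun q _ => by linarith [ff_one_le n q]
  set S := ∑ x ∈ (Ioc n (2 * n)).filter
      (fun x => x % L = a ∧ (∀ p ∈ QQ k y, x % p ∉ Om n p) ∧ P n x), BV.th x with hS
  -- lower bound for S
  have hS1 : c2 / 2 * GG n * n / (Real.log n) ^ 2 ≤ S := by
    have h0 : GG n / K ≤ ∏ q ∈ QQ k y, ff n q := by
      rw [div_le_iff₀ hK0]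
      linarith
    have h1 : c1 * ((n : ℝ) / 2 / φ) * (c0 / (Real.log n) ^ 2 * (GG n / K)) ≤
        c1 * ((∑ x ∈ Ioc n (2 * n), BV.th x) / φ) * ∏ p ∈ QQ k y, (1 - d2 (Om n) p) := by
      refine mul_le_mul ?_ ?_ (by positivity) ?_
      · gcongr
      · refine le_trans ?_ hP
        exact mul_le_mul_of_nonneg_left h0 (by positivity)
      · have : 0 ≤ (∑ x ∈ Ioc n (2 * n), BV.th x) := by linarith
        positivity
    have h2 : (n : ℝ) / (Real.log n) ^ 3 ≤ c2 / 2 * GG n * n / (Real.log n) ^ 2 := by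
      rw [div_le_div_iff₀ (by positivity) (by positivity)]
      have h3 : 1 ≤ c2 / 2 * Real.log n := by
        rw [div_le_iff₀ hc20] at hlogA
        linarith
      have h3' : 1 ≤ c2 / 2 * Real.log n * GG n := one_le_mul_of_one_le_of_one_le h3 hG1
      have h4 : (n : ℝ) * Real.log n ^ 2 * 1 ≤
          (n : ℝ) * Real.log n ^ 2 * (c2 / 2 * Real.log n * GG n) :=
        mul_le_mul_of_nonneg_left h3' (by positivity)
      calc (n : ℝ) * Real.log n ^ 2 = (n : ℝ) * Real.log n ^ 2 * 1 := by ring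
        _ ≤ _ := h4
        _ = _ := by ring
    have h5 : c1 * ((n : ℝ) / 2 / φ) * (c0 / (Real.log n) ^ 2 * (GG n / K)) =
        2 * (c2 / 2 * GG n * n / (Real.log n) ^ 2) := by
      rw [hc2]
      field_simp
    linarith
  -- upper bound for S
  have hS2 : S ≤ (((AP n r).filter (P n)).card : ℝ) * (2 * Real.log n) := by
    rw [hS, ← sum_filter_ne_zero]
    have h1 : ((Ioc n (2 * n)).filter (fun x => x % L = a ∧
        (∀ p ∈ QQ k y, x % p ∉ Om n p) ∧ P n x)).filter (fun x => BV.th x ≠ 0) ⊆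
          (AP n r).filter (P n) := by
      intro x hx
      rw [mem_filter, mem_filter, mem_Ioc] at hx
      obtain ⟨⟨⟨h1, h2⟩, h3, h4, hPx⟩, h5⟩ := hx
      have hxp : x.Prime := by
        by_contra h6
        exact h5 (if_neg h6)
      have h2' : x < 2 * n := by
        rcases Nat.lt_or_ge x (2 * n) with h6 | h6
        · exact h6
        · exfalso
          have h7 : x = 2 * n := by omega
          rw [h7] at hxp
          exact Nat.not_prime_mul (by norm_num) (by omega) hxp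
      rw [mem_filter]
      refine ⟨?_, hPx⟩
      unfold AP
      rw [mem_filter, mem_Ioo]
      refine ⟨⟨h1, h2'⟩, hxp, fun q hq => ?_⟩
      have hqp := Nat.prime_of_mem_primeFactors hq
      have hqd := Nat.dvd_of_mem_primeFactors hq
      by_contra hlt
      push Not at hlt
      have hqy : q ≤ y := (hyq q).2 hlt
      rcases Nat.lt_or_ge (4 * k + 4) q with h12 | h12
      · have hqQ : q ∈ QQ k y := by
          unfold QQ PP
          rw [mem_filter, mem_range]
          exact ⟨by omega, hqp, by omega⟩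
        exact not_dvd (by omega) hxp h2' hqp (by omega) (h4 q hqQ) hqd
      · have h6 := (hasm q hqp h12).2
        have h7 : x % q = a % q := by
          rw [← h3, Nat.mod_mod_of_dvd x (hLq q hqp h12)]
        rw [← h7] at h6
        exact not_dvd (by omega) hxp h2' hqp (by omega) h6 hqd
    calc ∑ x ∈ ((Ioc n (2 * n)).filter (fun x => x % L = a ∧
        (∀ p ∈ QQ k y, x % p ∉ Om n p) ∧ P n x)).filter (fun x => BV.th x ≠ 0), BV.th x
        ≤ ∑ x ∈ (AP n r).filter (P n), BV.th x :=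
          sum_le_sum_of_subset_of_nonneg h1 fun x _ _ => th_nn x
      _ ≤ ∑ x ∈ (AP n r).filter (P n), 2 * Real.log n := by
          refine sum_le_sum fun x hx => ?_
          replace hx := (mem_filter.1 hx).1
          unfold AP at hx
          rw [mem_filter, mem_Ioo] at hx
          have hx1 : (x : ℝ) ≤ (n : ℝ) ^ 2 := by
            have : x ≤ n ^ 2 := by nlinarith [hx.1.2]
            exact_mod_cast this
          unfold BV.th
          rw [if_pos hx.2.1]
          calc Real.log x ≤ Real.log ((n : ℝ) ^ 2) := Real.log_le_log (by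
                exact_mod_cast hx.2.1.pos) hx1
            _ = 2 * Real.log n := by
                rw [Real.log_pow]
                norm_num
      _ = (((AP n r).filter (P n)).card : ℝ) * (2 * Real.log n) := by rw [sum_const, nsmul_eq_mul]
  have hfin := hS1.trans hS2
  calc c2 / 4 * GG n * n / (Real.log n) ^ 3 =
        (c2 / 2 * GG n * n / (Real.log n) ^ 2) / (2 * Real.log n) := by
        field_simp
        ring
    _ ≤ (((AP n r).filter (P n)).card : ℝ) := by
        rw [div_le_iff₀ (by positivity)]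
        exact hfin


/-- the values of `x` with a square factor -/
private theorem card_class_le (m : ℕ) (hm : 0 < m) (c : ℕ) (hc : c < m) (n : ℕ) (hn : 1 ≤ n) :
    (((Ioo n (2 * n)).filter (fun x => x % m = c)).card : ℝ) ≤ n / m + 1 := by
  have h := Pool.Agent.Lib.GT.abs_card_class m hm c hc (n + 1) (n - 1)
  have h1 : Ico (n + 1) (n + 1 + (n - 1)) = Ioo n (2 * n) := by
    ext x
    rw [mem_Ico, mem_Ioo]
    omega
  rw [h1] at h
  have h2 := (abs_le.1 h).2
  have h3 : (((n - 1 : ℕ) : ℝ)) / m ≤ n / m := by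
    refine div_le_div_of_nonneg_right ?_ (Nat.cast_nonneg m)
    exact_mod_cast Nat.sub_le n 1
  linarith

private theorem sec_eq {m t x : ℕ} (hm : 0 < m) (h : m ∣ t + x) : x % m = (m - t % m) % m := by
  have h1 : (t % m + x % m) % m = 0 := by
    rw [← Nat.add_mod]
    exact Nat.mod_eq_zero_of_dvd h
  have h2 : t % m < m := Nat.mod_lt _ hm
  have h3 : x % m < m := Nat.mod_lt _ hm
  generalize t % m = u at h1 h2 ⊢
  generalize x % m = w at h1 h3 ⊢
  rcases Nat.lt_or_ge (u + w) m with h4 | h4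
  · rw [Nat.mod_eq_of_lt h4] at h1
    have h5 : u = 0 := by omega
    have h6 : w = 0 := by omega
    rw [h5, h6]
    simp
  · have h5 : (u + w - m) % m = 0 := by
      rw [← Nat.mod_eq_sub_mod h4]
      exact h1
    have h6 : (u + w - m) % m = u + w - m := Nat.mod_eq_of_lt (by omega)
    have h7 : (m - u) % m = m - u := Nat.mod_eq_of_lt (by omega)
    omega

private theorem sum_sq_le (y z : ℕ) (hy : 1 ≤ y) :
    ∑ q ∈ PP y z, 1 / ((q : ℝ) ^ 2) ≤ 1 / (y : ℝ) := by
  classical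
  rcases Nat.lt_or_ge z y with hzy | hyz
  · have h1 : PP y z = ∅ := by
      rw [eq_empty_iff_forall_notMem]
      intro q hq
      have := mem_PP'.1 hq
      omega
    rw [h1, sum_empty]
    positivity
  have hy0 : (1 : ℝ) ≤ y := by exact_mod_cast hy
  have h2 : ∑ q ∈ PP y z, 1 / ((q : ℝ) ^ 2) ≤
      ∑ q ∈ Ico (y + 1) (z + 1), (1 / ((q : ℝ) - 1) - 1 / q) := by
    refine (sum_le_sum_of_subset_of_nonneg (f := fun q : ℕ => 1 / ((q : ℝ) ^ 2))
      (t := Ico (y + 1) (z + 1)) ?_ fun _ _ _ => by positivity).trans ?_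
    · intro q hq
      obtain ⟨h1, h2, h3⟩ := mem_PP'.1 hq
      rw [mem_Ico]
      omega
    · refine sum_le_sum fun q hq => ?_
      rw [mem_Ico] at hq
      have h3 : (y : ℝ) + 1 ≤ q := by exact_mod_cast hq.1
      have h4 : 1 / ((q : ℝ) - 1) - 1 / q = 1 / (((q : ℝ) - 1) * q) := by
        have : (q : ℝ) - 1 ≠ 0 := by linarith
        have : (q : ℝ) ≠ 0 := by linarith
        field_simp
        ring
      rw [h4]
      apply one_div_le_one_div_of_le
      · have : 0 < (q : ℝ) - 1 := by linarith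
        have : 0 < (q : ℝ) := by linarith
        positivity
      · nlinarith
  have h3 : ∀ m : ℕ, ∑ q ∈ Ico (y + 1) (y + 1 + m), (1 / ((q : ℝ) - 1) - 1 / q) =
      1 / y - 1 / ((y : ℝ) + m) := by
    intro m
    induction m with
    | zero => simp
    | succ m ih =>
      rw [← add_assoc, sum_Ico_succ_top (by omega), ih]
      push_cast
      have e1 : (y : ℝ) + 1 + m - 1 = y + m := by ring
      have e2 : (y : ℝ) + (m + 1) = y + 1 + m := by ring
      rw [e1, e2]
      ring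
  have h4 := h3 (z - y)
  have h5 : y + 1 + (z - y) = z + 1 := by omega
  rw [h5] at h4
  rw [h4] at h2
  have h6 : (0 : ℝ) ≤ 1 / ((y : ℝ) + ((z - y : ℕ) : ℝ)) := by positivity
  linarith

/-- `x` has a prime `q` in `(y, z]` with `q ^ 2` dividing one of the two values -/
def Sqf (y z n x : ℕ) : Prop := ∃ q ∈ PP y z, q ^ 2 ∣ n ^ 2 - n - x ∨ q ^ 2 ∣ n ^ 2 + n + x

open Classical in
theorem card_exc_le (y z n : ℕ) (hy : 1 ≤ y) (hn : 5 ≤ n) :
    (((Ioo n (2 * n)).filter (Sqf y z n)).card : ℝ) ≤ 2 * ((n : ℝ) / y) + 2 * z := by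
  set A : ℕ → Finset ℕ := fun q => (Ioo n (2 * n)).filter
    (fun x => x % (q ^ 2) = (n ^ 2 - n) % (q ^ 2)) with hA
  set B : ℕ → Finset ℕ := fun q => (Ioo n (2 * n)).filter
    (fun x => x % (q ^ 2) = (q ^ 2 - (n ^ 2 + n) % (q ^ 2)) % (q ^ 2)) with hB
  have hsub : (Ioo n (2 * n)).filter (Sqf y z n) ⊆ (PP y z).biUnion fun q => A q ∪ B q := by
    intro x hx
    rw [mem_filter] at hx
    obtain ⟨hx1, q, hq, hx2⟩ := hx
    have hx1' := mem_Ioo.1 hx1
    have hq0 : 0 < q ^ 2 := pow_pos (mem_PP'.1 hq).1.pos 2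
    rw [mem_biUnion]
    refine ⟨q, hq, ?_⟩
    rw [mem_union]
    have hv := val_bound hn hx1'.2
    rcases hx2 with h | h
    · left
      rw [hA, mem_filter]
      refine ⟨hx1, ?_⟩
      have h3 : x ≤ n ^ 2 - n := by omega
      exact (Nat.modEq_iff_dvd' h3).2 h
    · right
      rw [hB, mem_filter]
      exact ⟨hx1, sec_eq hq0 h⟩
  have hcard : (((Ioo n (2 * n)).filter (Sqf y z n)).card : ℝ) ≤
      ∑ q ∈ PP y z, (2 * ((n : ℝ) * (1 / ((q : ℝ) ^ 2))) + 2) := by
    have h1 : ((Ioo n (2 * n)).filter (Sqf y z n)).card ≤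
        ∑ q ∈ PP y z, ((A q).card + (B q).card) := by
      refine (card_le_card hsub).trans (card_biUnion_le.trans ?_)
      exact sum_le_sum fun q _ => card_union_le _ _
    have h2 : (((Ioo n (2 * n)).filter (Sqf y z n)).card : ℝ) ≤
        ∑ q ∈ PP y z, (((A q).card : ℝ) + ((B q).card : ℝ)) := by exact_mod_cast h1
    refine h2.trans (sum_le_sum fun q hq => ?_)
    have hq0 : 0 < q ^ 2 := pow_pos (mem_PP'.1 hq).1.pos 2
    have h3 := card_class_le (q ^ 2) hq0 ((n ^ 2 - n) % (q ^ 2)) (Nat.mod_lt _ hq0) n (by omega)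
    have h4 := card_class_le (q ^ 2) hq0 ((q ^ 2 - (n ^ 2 + n) % (q ^ 2)) % (q ^ 2))
      (Nat.mod_lt _ hq0) n (by omega)
    have h5 : (n : ℝ) / ((q ^ 2 : ℕ) : ℝ) = (n : ℝ) * (1 / ((q : ℝ) ^ 2)) := by
      push_cast
      ring
    rw [h5] at h3 h4
    simp only [hA, hB]
    linarith
  refine hcard.trans ?_
  rw [sum_add_distrib, ← mul_sum, ← mul_sum, sum_const, nsmul_eq_mul]
  have h1 := mul_le_mul_of_nonneg_left (sum_sq_le y z hy) (Nat.cast_nonneg (α := ℝ) n)
  have h2 : ((PP y z).card : ℝ) ≤ z := by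
    have h3 : PP y z ⊆ Icc 1 z := by
      intro q hq
      obtain ⟨h1, h2, h3⟩ := mem_PP'.1 hq
      rw [mem_Icc]
      exact ⟨h1.one_le, h3⟩
    have h4 := card_le_card h3
    rw [Nat.card_Icc, Nat.add_sub_cancel] at h4
    exact_mod_cast h4
  have h3 : (n : ℝ) * (1 / (y : ℝ)) = n / y := by ring
  rw [h3] at h1
  linarith

theorem exc_small (c : ℝ) (hc : 0 < c) : ∃ N₀ : ℕ, ∀ n : ℕ, N₀ ≤ n →
    2 * ((n : ℝ) / (yy (1 / 56) n)) + 2 * (yy (23 / 50) n) ≤ c * n / (Real.log n) ^ 3 := by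
  obtain ⟨N1, hN1⟩ := log_yy (1 / 56) (1 / 10) (by norm_num) (by norm_num) 2
  have hlim1 : Filter.Tendsto (fun X : ℕ => (X : ℝ) ^ (1 / 100 : ℝ)) Filter.atTop Filter.atTop :=
    (tendsto_rpow_atTop (by norm_num)).comp tendsto_natCast_atTop_atTop
  have hlim3 : Filter.Tendsto (fun X : ℕ => Real.log (X : ℝ)) Filter.atTop Filter.atTop :=
    Real.tendsto_log_atTop.comp tendsto_natCast_atTop_atTop
  obtain ⟨N2, hN2⟩ := Filter.eventually_atTop.1
    ((hlim1.eventually_ge_atTop (4 * 10 ^ 9 / c)).and (hlim3.eventually_ge_atTop 1))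
  refine ⟨max N1 (max N2 2), fun n hn => ?_⟩
  simp only [max_le_iff] at hn
  obtain ⟨hn1, hn2, hn3⟩ := hn
  obtain ⟨h2y, hly, -⟩ := hN1 n hn1
  obtain ⟨hpow, hl1⟩ := hN2 n hn2
  set y := yy (1 / 56) n with hy
  set z := yy (23 / 50) n with hz
  have hn0 : (0 : ℝ) < n := by exact_mod_cast (by omega : 0 < n)
  have hn1r : (1 : ℝ) ≤ n := by exact_mod_cast (by omega : 1 ≤ n)
  have hy0 : (0 : ℝ) < y := by exact_mod_cast (by omega : 0 < y)
  have hl0 : 0 < Real.log n := by linarith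
  have hlog : Real.log n ≤ (n : ℝ) ^ (1 / 1000 : ℝ) / (1 / 1000) :=
    Real.log_le_rpow_div hn0.le (by norm_num)
  have hlog3 : Real.log n ^ 3 ≤ (n : ℝ) ^ (3 / 1000 : ℝ) * 10 ^ 9 := by
    calc Real.log n ^ 3 ≤ ((n : ℝ) ^ (1 / 1000 : ℝ) / (1 / 1000)) ^ 3 :=
          pow_le_pow_left₀ hl0.le hlog 3
      _ = ((n : ℝ) ^ (1 / 1000 : ℝ)) ^ 3 * 10 ^ 9 := by ring
      _ = (n : ℝ) ^ (3 / 1000 : ℝ) * 10 ^ 9 := by
          rw [← Real.rpow_natCast, ← Real.rpow_mul hn0.le]
          norm_num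
  have hynr : (n : ℝ) ^ (9 / 560 : ℝ) ≤ y := by
    have h1 : Real.log ((n : ℝ) ^ (9 / 560 : ℝ)) ≤ Real.log y := by
      rw [Real.log_rpow hn0]
      linarith
    exact (Real.log_le_log_iff (by positivity) hy0).1 h1
  have hzle : (z : ℝ) ≤ (n : ℝ) ^ (23 / 50 : ℝ) := by
    rw [hz]
    unfold yy
    exact Nat.floor_le (by positivity)
  rw [div_le_iff₀ hc] at hpow
  rw [le_div_iff₀ (by positivity)]
  have e1 : (n : ℝ) / y * Real.log n ^ 3 ≤ c / 4 * n := by
    have h1 : (n : ℝ) / y ≤ (n : ℝ) ^ (1 - 9 / 560 : ℝ) := by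
      rw [div_le_iff₀ hy0]
      calc (n : ℝ) = (n : ℝ) ^ (1 - 9 / 560 : ℝ) * (n : ℝ) ^ (9 / 560 : ℝ) := by
            rw [← Real.rpow_add hn0]
            norm_num
        _ ≤ _ := mul_le_mul_of_nonneg_left hynr (by positivity)
    calc (n : ℝ) / y * Real.log n ^ 3 ≤
        (n : ℝ) ^ (1 - 9 / 560 : ℝ) * ((n : ℝ) ^ (3 / 1000 : ℝ) * 10 ^ 9) :=
          mul_le_mul h1 hlog3 (by positivity) (by positivity)
      _ = 10 ^ 9 * (n : ℝ) ^ (1 - 9 / 560 + 3 / 1000 : ℝ) := by
          rw [Real.rpow_add hn0 (1 - 9 / 560) (3 / 1000)]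
          ring
      _ ≤ 10 ^ 9 * (n : ℝ) ^ (1 - 1 / 100 : ℝ) := by
          refine mul_le_mul_of_nonneg_left ?_ (by norm_num)
          exact Real.rpow_le_rpow_of_exponent_le hn1r (by norm_num)
      _ ≤ c / 4 * n := by
          have h2 : (n : ℝ) = (n : ℝ) ^ (1 - 1 / 100 : ℝ) * (n : ℝ) ^ (1 / 100 : ℝ) := by
            rw [← Real.rpow_add hn0]
            norm_num
          have h3 : 0 < (n : ℝ) ^ (1 - 1 / 100 : ℝ) := by positivity
          have h4 : (n : ℝ) ^ (1 - 1 / 100 : ℝ) * (4 * 10 ^ 9) ≤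
              (n : ℝ) ^ (1 - 1 / 100 : ℝ) * ((n : ℝ) ^ (1 / 100 : ℝ) * c) :=
            mul_le_mul_of_nonneg_left hpow h3.le
          have h5 : (n : ℝ) ^ (1 - 1 / 100 : ℝ) * ((n : ℝ) ^ (1 / 100 : ℝ) * c) = c * n := by
            rw [← mul_assoc, ← h2, mul_comm]
          rw [h5] at h4
          linarith
  have e2 : (z : ℝ) * Real.log n ^ 3 ≤ c / 4 * n := by
    calc (z : ℝ) * Real.log n ^ 3 ≤
        (n : ℝ) ^ (23 / 50 : ℝ) * ((n : ℝ) ^ (3 / 1000 : ℝ) * 10 ^ 9) :=
          mul_le_mul hzle hlog3 (by positivity) (by positivity)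
      _ = 10 ^ 9 * (n : ℝ) ^ (23 / 50 + 3 / 1000 : ℝ) := by
          rw [Real.rpow_add hn0 (23 / 50) (3 / 1000)]
          ring
      _ ≤ 10 ^ 9 * (n : ℝ) ^ (1 - 1 / 100 : ℝ) := by
          refine mul_le_mul_of_nonneg_left ?_ (by norm_num)
          exact Real.rpow_le_rpow_of_exponent_le hn1r (by norm_num)
      _ ≤ c / 4 * n := by
          have h2 : (n : ℝ) = (n : ℝ) ^ (1 - 1 / 100 : ℝ) * (n : ℝ) ^ (1 / 100 : ℝ) := by
            rw [← Real.rpow_add hn0]
            norm_num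
          have h3 : 0 < (n : ℝ) ^ (1 - 1 / 100 : ℝ) := by positivity
          have h4 : (n : ℝ) ^ (1 - 1 / 100 : ℝ) * (4 * 10 ^ 9) ≤
              (n : ℝ) ^ (1 - 1 / 100 : ℝ) * ((n : ℝ) ^ (1 / 100 : ℝ) * c) :=
            mul_le_mul_of_nonneg_left hpow h3.le
          have h5 : (n : ℝ) ^ (1 - 1 / 100 : ℝ) * ((n : ℝ) ^ (1 / 100 : ℝ) * c) = c * n := by
            rw [← mul_assoc, ← h2, mul_comm]
          rw [h5] at h4
          linarith
  linarith

end Pool.Agent.Lib.MP_d06d57_nt
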