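import Pool.Agent.Lib.MP_d06d57_nt.App2

/-!
# MP_d06d57_nt, App3: the number of prime factors of the product is at most 13

With `ω q = 1 - log q/log z`: if `m` has only prime factors `> y` and no square of a prime of `(y, z]` divides `m`, then
`Ω m - log m/log z = ∑ v_q (1 - log q/log z) ≤ ∑_{q ∣ m, q ≤ z} ω q`.
-/

set_option autoImplicit false

open Finset

namespace Pool.Agent.Lib.MP_d06d57_nt

open Pool.Agent.Lib.MT Pool.Agent.Lib.MTR

theorem Om_of_dvd {n x q : ℕ} (hn : 4 ≤ n) (hx : x.Prime) (h1 : x < 2 * n) (hq : q.Prime)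
    (hqx : q < x) (hd : q ∣ (n ^ 2 - n - x) * (n ^ 2 + n + x)) : x % q ∈ Om n q := by
  by_contra h
  exact not_dvd hn hx h1 hq hqx h hd

/-- one value -/
theorem omega_one {m y z : ℕ} (hm : m ≠ 0) (hz : 2 ≤ z) (hy : ∀ q ∈ m.primeFactors, y < q)
    (hsq : ∀ q ∈ PP y z, ¬ q ^ 2 ∣ m) :
    (m.primeFactorsList.length : ℝ) ≤
      ∑ q ∈ PP y z, (1 - Real.log q / Real.log z) * (if q ∣ m then 1 else 0) +
        Real.log m / Real.log z := by
  classical
  have hzr : (1 : ℝ) < z := by exact_mod_cast (by omega : 1 < z)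
  have hlz : 0 < Real.log z := Real.log_pos hzr
  have h1 : (m.primeFactorsList.length : ℝ) = ∑ q ∈ m.primeFactors, (m.factorization q : ℝ) := by
    have h2 : m.primeFactorsList.length = ∑ q ∈ m.primeFactors, m.factorization q := by
      rw [← ArithmeticFunction.cardFactors_apply, ArithmeticFunction.cardFactors_eq_sum_factorization]
      rfl
    rw [h2]
    push_cast
    rfl
  have h2 : Real.log m = ∑ q ∈ m.primeFactors, (m.factorization q : ℝ) * Real.log q := by
    rw [Real.log_nat_eq_sum_factorization]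
    rfl
  have h3 : (m.primeFactorsList.length : ℝ) - Real.log m / Real.log z =
      ∑ q ∈ m.primeFactors, (m.factorization q : ℝ) * (1 - Real.log q / Real.log z) := by
    rw [h1, h2, sum_div, ← sum_sub_distrib]
    exact sum_congr rfl fun q _ => by ring
  have h4 : ∑ q ∈ m.primeFactors, (m.factorization q : ℝ) * (1 - Real.log q / Real.log z) ≤
      ∑ q ∈ m.primeFactors, if q ∈ PP y z then 1 - Real.log q / Real.log z else 0 := by
    refine sum_le_sum fun q hq => ?_
    have hqp := Nat.prime_of_mem_primeFactors hq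
    have hqd := Nat.dvd_of_mem_primeFactors hq
    have hq0 : (0 : ℝ) < q := by exact_mod_cast hqp.pos
    rcases Nat.lt_or_ge z q with h | h
    · rw [if_neg (fun h5 => by have := (mem_PP'.1 h5).2.2; omega)]
      have h5 : 1 ≤ Real.log q / Real.log z := by
        rw [le_div_iff₀ hlz, one_mul]
        exact Real.log_le_log (by linarith) (by exact_mod_cast h.le)
      have h6 : (0 : ℝ) ≤ m.factorization q := Nat.cast_nonneg _
      nlinarith
    · have hPP : q ∈ PP y z := mem_PP'.2 ⟨hqp, hy q hq, h⟩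
      rw [if_pos hPP]
      have h5 : m.factorization q = 1 := by
        have h6 : m.factorization q < 2 := by
          by_contra h7
          push Not at h7
          exact hsq q hPP ((hqp.pow_dvd_iff_le_factorization hm).2 h7)
        have h8 : 1 ≤ m.factorization q := (hqp.dvd_iff_one_le_factorization hm).1 hqd
        omega
      rw [h5, Nat.cast_one, one_mul]
  have h5 : ∑ q ∈ m.primeFactors, (if q ∈ PP y z then 1 - Real.log q / Real.log z else 0) =
      ∑ q ∈ PP y z, (1 - Real.log q / Real.log z) * (if q ∣ m then 1 else 0) := by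
    have h6 : ∑ q ∈ PP y z, (1 - Real.log q / Real.log z) * (if q ∣ m then (1 : ℝ) else 0) =
        ∑ q ∈ PP y z, if q ∈ m.primeFactors then 1 - Real.log q / Real.log z else 0 := by
      refine sum_congr rfl fun q hq => ?_
      have hqp := (mem_PP'.1 hq).1
      by_cases h : q ∣ m
      · rw [if_pos h, if_pos (Nat.mem_primeFactors.2 ⟨hqp, h, hm⟩), mul_one]
      · rw [if_neg h, if_neg (fun h' => h (Nat.dvd_of_mem_primeFactors h')), mul_zero]
    rw [h6, ← sum_filter, ← sum_filter, filter_mem_eq_inter, filter_mem_eq_inter, inter_comm]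
  linarith

/-- not both values are divisible by `q` -/
theorem not_both {n x q : ℕ} (hn : 5 ≤ n) (hx : x.Prime) (h2 : x < 2 * n)
    (hq : q.Prime) (hq2 : 2 < q) (hqx : q < x) : ¬ (q ∣ n ^ 2 - n - x ∧ q ∣ n ^ 2 + n + x) := by
  rintro ⟨hA, hB⟩
  have hv := val_bound hn h2
  have h3 : (n ^ 2 - n - x) + (n ^ 2 + n + x) = 2 * n ^ 2 := by omega
  have h4 : q ∣ 2 * n ^ 2 := by
    rw [← h3]
    exact dvd_add hA hB
  have h5 : q ∣ n := by
    rcases (Nat.Prime.dvd_mul hq).1 h4 with h | h
    · have := Nat.le_of_dvd (by norm_num) h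
      omega
    · exact hq.dvd_of_dvd_pow h
  have h6 : q ∣ n ^ 2 + n := dvd_add (dvd_pow h5 (by norm_num)) h5
  have h7 : q ∣ x := (Nat.dvd_add_right h6).1 hB
  have := (Nat.prime_dvd_prime_iff_eq hq hx).1 h7
  omega

/-- both values -/
theorem omega_two {n x : ℕ} (hn : 5 ≤ n) (hy2 : 2 ≤ yy (1 / 56) n) (hz2 : 2 ≤ yy (23 / 50) n)
    (hzn : yy (23 / 50) n ≤ n) (hx : x ∈ AP n 56)
    (hsq : ¬ Sqf (yy (1 / 56) n) (yy (23 / 50) n) n x) (hw : wts (1 / 56) (23 / 50) (23 / 50) (Om n) n x < 53 / 10) :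
    ((n ^ 2 - n - x).primeFactorsList.length : ℝ) + ((n ^ 2 + n + x).primeFactorsList.length : ℝ) <
      53 / 10 + (Real.log ((n ^ 2 - n - x : ℕ) : ℝ) + Real.log ((n ^ 2 + n + x : ℕ) : ℝ)) /
        Real.log (yy (23 / 50) n) := by
  classical
  have hyq : ∀ q : ℕ, q ≤ yy (1 / 56) n ↔ q ^ 56 ≤ n := fun q => by
    have := le_yy (n := n) (q := q) (r := 56) (by norm_num)
    simpa using this
  unfold wts at hw
  set y := yy (1 / 56) n with hy
  set z := yy (23 / 50) n with hz
  unfold AP at hx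
  rw [mem_filter, mem_Ioo] at hx
  obtain ⟨⟨h1, h2⟩, hxp, h3⟩ := hx
  have hv := val_bound hn h2
  have hA0 : n ^ 2 - n - x ≠ 0 := by omega
  have hB0 : n ^ 2 + n + x ≠ 0 := by omega
  have hpf : ∀ q ∈ ((n ^ 2 - n - x) * (n ^ 2 + n + x)).primeFactors, y < q := by
    intro q hq
    have h4 := h3 q hq
    by_contra h5
    push Not at h5
    have := (hyq q).1 h5
    omega
  have hA := omega_one hA0 hz2 (fun q hq => hpf q (by
    rw [Nat.primeFactors_mul hA0 hB0]
    exact mem_union_left _ hq)) (fun q hq h => hsq ⟨q, hq, Or.inl h⟩)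
  have hB := omega_one hB0 hz2 (fun q hq => hpf q (by
    rw [Nat.primeFactors_mul hA0 hB0]
    exact mem_union_right _ hq)) (fun q hq h => hsq ⟨q, hq, Or.inr h⟩)
  have hz0 : (0 : ℝ) < z := by exact_mod_cast (by omega : 0 < z)
  have hlz : 0 < Real.log z := Real.log_pos (by exact_mod_cast (by omega : 1 < z))
  have hsum : ∑ q ∈ PP y z, (1 - Real.log q / Real.log z) *
        (if q ∣ n ^ 2 - n - x then (1 : ℝ) else 0) +
      ∑ q ∈ PP y z, (1 - Real.log q / Real.log z) * (if q ∣ n ^ 2 + n + x then (1 : ℝ) else 0) ≤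
      ∑ q ∈ PP y z, (1 - Real.log q / Real.log z) * (if x % q ∈ Om n q then (1 : ℝ) else 0) := by
    rw [← sum_add_distrib]
    refine sum_le_sum fun q hq => ?_
    obtain ⟨g1, g2, g3⟩ := mem_PP'.1 hq
    have hq0 : (0 : ℝ) < q := by exact_mod_cast g1.pos
    have hom : 0 ≤ 1 - Real.log q / Real.log z := by
      have : Real.log q / Real.log z ≤ 1 := by
        rw [div_le_one hlz]
        exact Real.log_le_log hq0 (by exact_mod_cast g3)
      linarith
    rw [← mul_add]
    refine mul_le_mul_of_nonneg_left ?_ hom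
    have hnb := not_both hn hxp h2 g1 (by omega) (by omega)
    by_cases e1 : q ∣ n ^ 2 - n - x
    · have e2 : ¬ q ∣ n ^ 2 + n + x := fun h => hnb ⟨e1, h⟩
      rw [if_pos e1, if_neg e2, if_pos (Om_of_dvd (by omega) hxp h2 g1 (by omega)
        (e1.mul_right _))]
      norm_num
    · rw [if_neg e1]
      by_cases e2 : q ∣ n ^ 2 + n + x
      · rw [if_pos e2, if_pos (Om_of_dvd (by omega) hxp h2 g1 (by omega) (e2.mul_left _))]
        norm_num
      · rw [if_neg e2]
        split_ifs <;> norm_num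
  rw [add_div]
  linarith

/-- the primes of `AP n 56` for which the product of the two values has at most 13 prime factors -/
def AQ (n : ℕ) : Finset ℕ := (AP n 56).filter (fun p =>
  (n ^ 2 - n - p).primeFactorsList.length + (n ^ 2 + n + p).primeFactorsList.length ≤ 13)

open Classical in
theorem AQ_low : ∃ (c : ℝ) (n₀ : ℕ), 0 < c ∧ ∀ n : ℕ, n₀ ≤ n →
    c * GG n * n / (Real.log n) ^ 3 ≤ ((AQ n).card : ℝ) := by
  obtain ⟨k, hk, c1, N1, hc1, hN1⟩ := weighted13
  obtain ⟨c, N2, hc, hN2⟩ := AP_lowP (fun n x => wts (1 / 56) (23 / 50) (23 / 50) (Om n) n x < 53 / 10) k hk 56 (by norm_num)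
    c1 hc1 N1 (fun n hn a ha hac => by
      have h := hN1 n hn (Om n) (Om_lt n) (Om_zero n) (card_Om_le n) (LL k) a dvd_rfl ha hac
      have e : ((56 : ℕ) : ℝ) = 56 := by norm_num
      rw [e]
      convert h using 2)
  obtain ⟨N3, hN3⟩ := exc_small (c / 2) (by positivity)
  obtain ⟨N4, hN4⟩ := log_yy (1 / 56) (1 / 10) (by norm_num) (by norm_num) 2
  obtain ⟨N5, hN5⟩ := log_yy (23 / 50) (1 / 10000) (by norm_num) (by norm_num) 2
  have hlim3 : Filter.Tendsto (fun X : ℕ => Real.log (X : ℝ)) Filter.atTop Filter.atTop :=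
    Real.tendsto_log_atTop.comp tendsto_natCast_atTop_atTop
  obtain ⟨N6, hN6⟩ := Filter.eventually_atTop.1 (hlim3.eventually_ge_atTop 10000)
  refine ⟨c / 2, max (max (max N2 N3) (max N4 N5)) (max N6 5), by positivity, fun n hn => ?_⟩
  simp only [max_le_iff] at hn
  obtain ⟨⟨⟨hn2, hn3⟩, hn4, hn5⟩, hn6, hn7⟩ := hn
  have hlow := hN2 n hn2
  have hexc := hN3 n hn3
  obtain ⟨hy2, -, -⟩ := hN4 n hn4
  obtain ⟨hz2, hz3, hz4⟩ := hN5 n hn5
  have hl := hN6 n hn6
  have hn0 : (0 : ℝ) < n := by exact_mod_cast (by omega : 0 < n)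
  have hz0 : (0 : ℝ) < yy (23 / 50) n := by exact_mod_cast (by omega : 0 < yy (23 / 50) n)
  have hzn : yy (23 / 50) n ≤ n := by
    have h1 : Real.log (yy (23 / 50) n) ≤ Real.log n := by linarith
    exact_mod_cast (Real.log_le_log_iff hz0 hn0).1 h1
  have hlz : 0 < Real.log (yy (23 / 50) n) := by linarith
  -- the inclusion
  have hsub : (AP n 56).filter (fun x => wts (1 / 56) (23 / 50) (23 / 50) (Om n) n x < 53 / 10) ⊆
      AQ n ∪ (Ioo n (2 * n)).filter (Sqf (yy (1 / 56) n) (yy (23 / 50) n) n) := by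
    intro x hx
    rw [mem_filter] at hx
    obtain ⟨hx1, hx2⟩ := hx
    have hx3 : x ∈ Ioo n (2 * n) := by
      unfold AP at hx1
      exact (mem_filter.1 hx1).1
    rw [mem_union]
    by_cases hs : Sqf (yy (1 / 56) n) (yy (23 / 50) n) n x
    · right
      rw [mem_filter]
      exact ⟨hx3, hs⟩
    · left
      unfold AQ
      rw [mem_filter]
      refine ⟨hx1, ?_⟩
      have h1 := omega_two hn7 hy2 hz2 hzn hx1 hs hx2
      rw [mem_Ioo] at hx3
      have hv := val_bound hn7 hx3.2
      have h2 : Real.log ((n ^ 2 - n - x : ℕ) : ℝ) ≤ 2 * Real.log n := by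
        have h3 : ((n ^ 2 - n - x : ℕ) : ℝ) ≤ (n : ℝ) ^ 2 := by
          have : n ^ 2 - n - x ≤ n ^ 2 := by omega
          exact_mod_cast this
        have h4 : (0 : ℝ) < ((n ^ 2 - n - x : ℕ) : ℝ) := by
          exact_mod_cast (by omega : 0 < n ^ 2 - n - x)
        have h5 := Real.log_le_log h4 h3
        rw [Real.log_pow] at h5
        exact_mod_cast h5
      have h3 : Real.log ((n ^ 2 + n + x : ℕ) : ℝ) ≤ 2 * Real.log n + 2 := by
        have h4 : ((n ^ 2 + n + x : ℕ) : ℝ) ≤ (n : ℝ) ^ 2 * 4 := by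
          have : n ^ 2 + n + x ≤ n ^ 2 * 4 := by nlinarith [hx3.2]
          exact_mod_cast this
        have h5 : (0 : ℝ) < ((n ^ 2 + n + x : ℕ) : ℝ) := by
          exact_mod_cast (by omega : 0 < n ^ 2 + n + x)
        have h6 := Real.log_le_log h5 h4
        rw [Real.log_mul (by positivity) (by norm_num), Real.log_pow] at h6
        have h7 : Real.log 4 ≤ 2 := by
          have h8 : Real.log 4 = 2 * Real.log 2 := by
            rw [show (4 : ℝ) = 2 ^ 2 by norm_num, Real.log_pow]
            norm_num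
          have := Real.log_two_lt_d9
          linarith
        push_cast at h6 ⊢
        linarith
      have h4 : (Real.log ((n ^ 2 - n - x : ℕ) : ℝ) + Real.log ((n ^ 2 + n + x : ℕ) : ℝ)) /
          Real.log (yy (23 / 50) n) ≤ 87 / 10 := by
        rw [div_le_iff₀ hlz]
        linarith
      have h5 : (((n ^ 2 - n - x).primeFactorsList.length +
          (n ^ 2 + n + x).primeFactorsList.length : ℕ) : ℝ) < ((14 : ℕ) : ℝ) := by
        push_cast
        linarith
      have h6 := Nat.cast_lt.1 h5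
      omega
  have hcard : (((AP n 56).filter (fun x => wts (1 / 56) (23 / 50) (23 / 50) (Om n) n x < 53 / 10)).card : ℝ) ≤
      ((AQ n).card : ℝ) +
        (((Ioo n (2 * n)).filter (Sqf (yy (1 / 56) n) (yy (23 / 50) n) n)).card : ℝ) := by
    have := (card_le_card hsub).trans (card_union_le _ _)
    exact_mod_cast this
  have he := card_exc_le (yy (1 / 56) n) (yy (23 / 50) n) n (by omega) hn7
  have hG := GG_one_le n
  have hln : 0 < Real.log n := by linarith
  have hX : 0 ≤ c / 2 * n / (Real.log n) ^ 3 := by positivity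
  have h1 : c / 2 * n / (Real.log n) ^ 3 ≤ c / 2 * GG n * n / (Real.log n) ^ 3 := by
    refine div_le_div_of_nonneg_right ?_ (by positivity)
    have : c / 2 * (n : ℝ) * 1 ≤ c / 2 * n * GG n := mul_le_mul_of_nonneg_left hG (by positivity)
    linarith
  have h2 : c * GG n * n / (Real.log n) ^ 3 = c / 2 * GG n * n / (Real.log n) ^ 3 +
      c / 2 * GG n * n / (Real.log n) ^ 3 := by ring
  rw [h2] at hlow
  linarith

end Pool.Agent.Lib.MP_d06d57_nt
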