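import Pool.Agent.Lib.MP_d06d57_nt.Defs
import Pool.Agent.Lib.Sieve.Mertens3

/-!
# MP_d06d57_nt, Mert: Mertens sums for the levels `n^(2/97) < n^(1/35) < n^(1/4)`

`wsum`: the sum of `(1 - log q/log z) 2/(q - 1)` over the primes of `(y, z]`, `y = n^(1/35)`, `z = n^(1/4)`, is at most
`2.5745`. `vratio`: the product of `1 - g q`, `g q ≤ 2/(q - 1)`, over the primes of `(n^(2/97), n^(1/35)]` is at least
`1/1.92212`.
-/

set_option autoImplicit false

open Finset

namespace Pool.Agent.Lib.MP_d06d57_nt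

open Pool.Agent.Lib.MT

/-- the product of `1 - 1/p` over the primes `≤ z` -/
noncomputable def Vm (z : ℕ) : ℝ := ∏ p ∈ (range (z + 1)).filter Nat.Prime, (1 - 1 / (p : ℝ))

private theorem fac_pos {p : ℕ} (hp : p.Prime) : 0 < 1 - 1 / (p : ℝ) := by
  have h2 : (1 : ℝ) / p ≤ 1 / 2 := by
    apply one_div_le_one_div_of_le (by norm_num)
    exact_mod_cast hp.two_le
  linarith

theorem Vm_pos (z : ℕ) : 0 < Vm z := prod_pos fun p hp => fac_pos (mem_filter.mp hp).2

theorem mem_PP' {a b p : ℕ} : p ∈ PP a b ↔ p.Prime ∧ a < p ∧ p ≤ b := by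
  unfold PP
  rw [mem_filter, mem_range]
  constructor
  · rintro ⟨h1, h2, h3⟩
    exact ⟨h2, h3, by omega⟩
  · rintro ⟨h1, h2, h3⟩
    exact ⟨by omega, h1, h2⟩

theorem Vm_split {y z : ℕ} (h : y ≤ z) : Vm z = Vm y * ∏ p ∈ PP y z, (1 - 1 / (p : ℝ)) := by
  classical
  have hsub : (range (y + 1)).filter Nat.Prime ∪ PP y z = (range (z + 1)).filter Nat.Prime := by
    ext p
    rw [mem_union, mem_PP']
    simp only [mem_filter, mem_range]
    constructor
    · rintro (⟨h1, h2⟩ | ⟨h1, h2, h3⟩)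
      · exact ⟨by omega, h2⟩
      · exact ⟨by omega, h1⟩
    · rintro ⟨h1, h2⟩
      rcases Nat.lt_or_ge y p with h3 | h3
      · exact Or.inr ⟨h2, h3, by omega⟩
      · exact Or.inl ⟨by omega, h2⟩
  have hdis : Disjoint ((range (y + 1)).filter Nat.Prime) (PP y z) := by
    rw [disjoint_left]
    intro p h2 h3
    rw [mem_PP'] at h3
    simp only [mem_filter, mem_range] at h2
    omega
  unfold Vm
  rw [← hsub, prod_union hdis]

/-- Mertens' third theorem as a ratio -/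
theorem mert_ratio (τ : ℝ) (hτ : 0 < τ) (hτ1 : τ ≤ 1) : ∃ Y : ℕ, 3 ≤ Y ∧ ∀ y z : ℕ, Y ≤ y → y ≤ z →
    Real.log y / Real.log z / (1 + τ) ≤ ∏ p ∈ PP y z, (1 - 1 / (p : ℝ)) := by
  set c := Real.exp (-Real.eulerMascheroniConstant) with hc
  have hc0 : 0 < c := Real.exp_pos _
  have hT : Filter.Tendsto (fun z : ℕ => Real.log z * Vm z) Filter.atTop (nhds c) :=
    Pool.Agent.Lib.Sieve.Mertens3.mertens_three
  have h1 := hT.eventually (Ioo_mem_nhds (show c * (1 - τ / 3) < c by nlinarith)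
    (show c < c * (1 + τ / 3) by nlinarith))
  obtain ⟨Z, hZ⟩ := Filter.eventually_atTop.1 h1
  refine ⟨max Z 3, le_max_right _ _, fun y z hy hyz => ?_⟩
  have hy3 : 3 ≤ y := (le_max_right _ _).trans hy
  have hA := (hZ y ((le_max_left _ _).trans hy)).2.le
  have hB := (hZ z ((le_max_left _ _).trans (hy.trans hyz))).1.le
  have hly : 0 < Real.log y := Real.log_pos (by exact_mod_cast (by omega : 1 < y))
  have hlz : 0 < Real.log z := Real.log_pos (by exact_mod_cast (by omega : 1 < z))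
  have hVy := Vm_pos y
  rw [Vm_split hyz] at hB
  set Q := ∏ p ∈ PP y z, (1 - 1 / (p : ℝ)) with hQ
  rw [div_div, div_le_iff₀ (by positivity)]
  have hQ0 : 0 < Q := prod_pos fun p hp => fac_pos (mem_PP'.1 hp).1
  -- `c (1 - τ/3) ≤ log z Vm y Q` and `log y Vm y ≤ c (1 + τ/3)`
  have h2 : (1 + τ / 3) * (c * (1 - τ / 3)) ≤ (1 + τ / 3) * (Real.log z * (Vm y * Q)) :=
    mul_le_mul_of_nonneg_left hB (by linarith)
  have h3 : (Real.log y * Vm y) * (1 - τ / 3) ≤ c * (1 + τ / 3) * (1 - τ / 3) :=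
    mul_le_mul_of_nonneg_right hA (by linarith)
  have h4 : Vm y * (Real.log y * (1 - τ / 3)) ≤ Vm y * ((1 + τ / 3) * (Real.log z * Q)) := by
    linarith
  have h5 : Real.log y * (1 - τ / 3) ≤ (1 + τ / 3) * (Real.log z * Q) :=
    le_of_mul_le_mul_left h4 hVy
  have h6 : (1 + τ / 3) ≤ (1 + τ) * (1 - τ / 3) := by nlinarith
  have h7 : (Real.log y) * (1 - τ / 3) ≤ ((1 + τ) * (1 - τ / 3)) * (Real.log z * Q) :=
    h5.trans (mul_le_mul_of_nonneg_right h6 (by positivity))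
  have h8 : (1 - τ / 3) * Real.log y ≤ (1 - τ / 3) * (Q * (Real.log z * (1 + τ))) := by linarith
  exact le_of_mul_le_mul_left h8 (by linarith)

/-- the sum of `1/p` -/
theorem mert_sum (τ : ℝ) (hτ : 0 < τ) (hτ1 : τ ≤ 1) : ∃ Y : ℕ, 3 ≤ Y ∧ ∀ y z : ℕ, Y ≤ y → y ≤ z →
    ∑ p ∈ PP y z, 1 / (p : ℝ) ≤ Real.log (Real.log z / Real.log y) + τ := by
  obtain ⟨Y, hY3, hY⟩ := mert_ratio τ hτ hτ1
  refine ⟨Y, hY3, fun y z hy hyz => ?_⟩
  have h1 := hY y z hy hyz
  have hly : 0 < Real.log y := Real.log_pos (by exact_mod_cast (by omega : 1 < y))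
  have hlz : 0 < Real.log z := Real.log_pos (by exact_mod_cast (by omega : 1 < z))
  have h2 : ∏ p ∈ PP y z, (1 - 1 / (p : ℝ)) ≤ Real.exp (-∑ p ∈ PP y z, 1 / (p : ℝ)) := by
    calc ∏ p ∈ PP y z, (1 - 1 / (p : ℝ)) ≤ ∏ p ∈ PP y z, Real.exp (-(1 / (p : ℝ))) := by
          refine prod_le_prod (fun p hp => (fac_pos (mem_PP'.1 hp).1).le) fun p _ => ?_
          have := Real.add_one_le_exp (-(1 / (p : ℝ)))
          linarith
      _ = Real.exp (∑ p ∈ PP y z, -(1 / (p : ℝ))) := (Real.exp_sum _ _).symm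
      _ = _ := by rw [sum_neg_distrib]
  have h3 := h1.trans h2
  set S := ∑ p ∈ PP y z, 1 / (p : ℝ) with hS
  have h4 : Real.exp S ≤ Real.log z / Real.log y * (1 + τ) := by
    have h5 : Real.exp S * Real.exp (-S) = 1 := by
      rw [← Real.exp_add]
      norm_num
    have h6 : Real.exp S * (Real.log y / Real.log z / (1 + τ)) ≤ 1 :=
      (mul_le_mul_of_nonneg_left h3 (Real.exp_pos S).le).trans (le_of_eq h5)
    have h7 : Real.exp S * (Real.log y / Real.log z / (1 + τ)) =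
        Real.exp S / (Real.log z / Real.log y * (1 + τ)) := by
      field_simp
    rw [h7, div_le_one (by positivity)] at h6
    exact h6
  have h5 : S ≤ Real.log (Real.log z / Real.log y * (1 + τ)) := by
    rw [Real.le_log_iff_exp_le (by positivity)]
    exact h4
  rw [Real.log_mul (by positivity) (by positivity)] at h5
  have h6 := Real.log_le_sub_one_of_pos (show 0 < 1 + τ by linarith)
  linarith

/-- the sum of `log p / p` -/
theorem mert_log : ∃ C : ℝ, ∀ y z : ℕ, 2 ≤ y → y ≤ z →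
    Real.log z - Real.log y - C ≤ ∑ p ∈ PP y z, Real.log p / p := by
  classical
  obtain ⟨C, hC⟩ := Pool.Agent.Lib.Sieve.Mertens3.mertens_one_lower
  refine ⟨C + Real.log 4, fun y z hy hyz => ?_⟩
  have h1 := hC z (by omega)
  have h2 := Pool.Agent.Lib.Sieve.sum_log_div_le y (by omega)
  have hsub : (Icc 1 y).filter Nat.Prime ∪ PP y z = (Icc 1 z).filter Nat.Prime := by
    ext p
    rw [mem_union, mem_PP']
    simp only [mem_filter, mem_Icc]
    constructor
    · rintro (⟨h1, h2⟩ | ⟨h1, h2, h3⟩)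
      · exact ⟨by omega, h2⟩
      · exact ⟨⟨h1.one_le, by omega⟩, h1⟩
    · rintro ⟨h1, h2⟩
      rcases Nat.lt_or_ge y p with h3 | h3
      · exact Or.inr ⟨h2, h3, by omega⟩
      · exact Or.inl ⟨by omega, h2⟩
  have hdis : Disjoint ((Icc 1 y).filter Nat.Prime) (PP y z) := by
    rw [disjoint_left]
    intro p h2 h3
    rw [mem_PP'] at h3
    simp only [mem_filter, mem_Icc] at h2
    omega
  rw [← hsub, sum_union hdis] at h1
  linarith

/-- `log ⌊n^a⌋` is asymptotically `a log n` -/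
theorem log_yy (a τ : ℝ) (ha : 0 < a) (hτ : 0 < τ) (N : ℕ) : ∃ N₀ : ℕ, ∀ n : ℕ, N₀ ≤ n →
    N ≤ yy a n ∧ a * (1 - τ) * Real.log n ≤ Real.log (yy a n) ∧
      Real.log (yy a n) ≤ a * Real.log n := by
  have hlim1 : Filter.Tendsto (fun X : ℕ => (X : ℝ) ^ a) Filter.atTop Filter.atTop :=
    (tendsto_rpow_atTop ha).comp tendsto_natCast_atTop_atTop
  have hlim2 : Filter.Tendsto (fun X : ℕ => (X : ℝ) ^ (a * τ)) Filter.atTop Filter.atTop :=
    (tendsto_rpow_atTop (by positivity)).comp tendsto_natCast_atTop_atTop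
  obtain ⟨N₀, hN₀⟩ := Filter.eventually_atTop.1
    ((hlim1.eventually_ge_atTop ((N : ℝ) + 2)).and (hlim2.eventually_ge_atTop 2))
  refine ⟨max N₀ 2, fun n hn => ?_⟩
  obtain ⟨h1, h2⟩ := hN₀ n ((le_max_left _ _).trans hn)
  have hn2 : 2 ≤ n := (le_max_right _ _).trans hn
  have hn0 : (0 : ℝ) < n := by exact_mod_cast (by omega : 0 < n)
  have hle : (yy a n : ℝ) ≤ (n : ℝ) ^ a := by
    unfold yy
    exact Nat.floor_le (by positivity)
  have hlt : (n : ℝ) ^ a < (yy a n : ℝ) + 1 := by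
    unfold yy
    exact Nat.lt_floor_add_one _
  have hN : (N : ℝ) ≤ yy a n := by linarith
  have hy1 : (1 : ℝ) ≤ yy a n := by
    have : (0 : ℝ) ≤ N := Nat.cast_nonneg N
    linarith
  refine ⟨by exact_mod_cast hN, ?_, ?_⟩
  · have h3 : (n : ℝ) ^ (a * (1 - τ)) ≤ yy a n := by
      have h4 : (n : ℝ) ^ a = (n : ℝ) ^ (a * (1 - τ)) * (n : ℝ) ^ (a * τ) := by
        rw [← Real.rpow_add hn0]
        congr 1
        ring
      rw [h4] at hlt
      set u := (n : ℝ) ^ (a * (1 - τ)) with hu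
      have hu0 : 0 < u := by positivity
      nlinarith
    have h5 := Real.log_le_log (by positivity) h3
    rwa [Real.log_rpow hn0] at h5
  · have h5 := Real.log_le_log (by linarith) hle
    rwa [Real.log_rpow hn0] at h5

/-- the weighted sum over the primes of `(n^(1/35), n^(1/4)]` -/
theorem wsum : ∃ N₀ : ℕ, ∀ n : ℕ, N₀ ≤ n →
    ∑ q ∈ PP (yy (1 / 35) n) (yy (1 / 4) n),
      (1 - Real.log q / Real.log (yy (1 / 4) n)) * (2 / ((q : ℝ) - 1)) ≤ 25745 / 10000 := by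
  classical
  obtain ⟨Y, hY3, hY⟩ := mert_sum (1 / 10000) (by norm_num) (by norm_num)
  obtain ⟨C, hC⟩ := mert_log
  obtain ⟨N1, hN1⟩ := log_yy (1 / 35) (1 / 10000) (by norm_num) (by norm_num) (max Y 100001)
  obtain ⟨N2, hN2⟩ := log_yy (1 / 4) (1 / 10000) (by norm_num) (by norm_num) 2
  have hlim3 : Filter.Tendsto (fun X : ℕ => Real.log (X : ℝ)) Filter.atTop Filter.atTop :=
    Real.tendsto_log_atTop.comp tendsto_natCast_atTop_atTop
  obtain ⟨N3, hN3⟩ := Filter.eventually_atTop.1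
    (hlim3.eventually_ge_atTop (max 1 (5 * |C| * 100000)))
  refine ⟨max (max N1 N2) (max N3 2), fun n hn => ?_⟩
  simp only [max_le_iff] at hn
  obtain ⟨⟨hn1, hn2⟩, hn3, hn4⟩ := hn
  obtain ⟨a1, a2, a3⟩ := hN1 n hn1
  obtain ⟨b1, b2, b3⟩ := hN2 n hn2
  have hlog := hN3 n hn3
  have hl1 : 1 ≤ Real.log n := (le_max_left _ _).trans hlog
  have hl2 : 5 * |C| * 100000 ≤ Real.log n := (le_max_right _ _).trans hlog
  set y := yy (1 / 35) n with hy
  set z := yy (1 / 4) n with hz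
  set l := Real.log n with hl
  have hyY : Y ≤ y := (le_max_left _ _).trans a1
  have hy5 : 100001 ≤ y := (le_max_right _ _).trans a1
  have hy0 : (0 : ℝ) < y := by exact_mod_cast (by omega : 0 < y)
  have hz0 : (0 : ℝ) < z := by exact_mod_cast (by omega : 0 < z)
  have hly : 0 < Real.log y := by linarith
  have hlz : 0 < Real.log z := by linarith
  have hyz : y ≤ z := by
    have h1 : Real.log y ≤ Real.log z := by linarith
    have h2 := (Real.log_le_log_iff hy0 hz0).1 h1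
    exact_mod_cast h2
  have hρ1 : Real.log z / Real.log y ≤ 876 / 100 := by
    rw [div_le_iff₀ hly]
    linarith
  have hρ2 : Real.log y / Real.log z ≤ 11443 / 100000 := by
    rw [div_le_iff₀ hlz]
    linarith
  have hlog876 : Real.log (876 / 100) ≤ 2172 / 1000 := by
    rw [Real.log_le_iff_le_exp (by norm_num)]
    have h1 := Real.exp_one_gt_d9
    have h2 : Real.exp (2172 / 1000) = Real.exp 1 ^ 2 * Real.exp (172 / 1000) := by
      rw [← Real.exp_nat_mul, ← Real.exp_add]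
      norm_num
    have h3 := Real.quadratic_le_exp_of_nonneg (show (0 : ℝ) ≤ 172 / 1000 by norm_num)
    rw [h2]
    calc (876 / 100 : ℝ) ≤ 2.7182818283 ^ 2 * (1 + 172 / 1000 + (172 / 1000) ^ 2 / 2) := by norm_num
      _ ≤ Real.exp 1 ^ 2 * Real.exp (172 / 1000) :=
          mul_le_mul (pow_le_pow_left₀ (by norm_num) h1.le 2) h3 (by norm_num) (by positivity)
  have hS := hY y z hyY hyz
  have hL := hC y z (by omega) hyz
  have hlogρ : Real.log (Real.log z / Real.log y) ≤ 2172 / 1000 :=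
    (Real.log_le_log (by positivity) hρ1).trans hlog876
  have hq0 : ∀ q ∈ PP y z, (100001 : ℝ) ≤ q ∧ (q : ℝ) ≤ z := by
    intro q hq
    obtain ⟨h1, h2, h3⟩ := mem_PP'.1 hq
    exact ⟨by exact_mod_cast (by omega : 100001 ≤ q), by exact_mod_cast h3⟩
  have hterm : ∀ q ∈ PP y z, (1 - Real.log q / Real.log z) * (2 / ((q : ℝ) - 1)) ≤
      2 * (1 + 1 / 100000) * (1 / (q : ℝ) - (Real.log q / q) / Real.log z) := by
    intro q hq
    obtain ⟨h1, h2⟩ := hq0 q hq
    have h3 : 0 ≤ 1 - Real.log q / Real.log z := by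
      have : Real.log q / Real.log z ≤ 1 := by
        rw [div_le_one hlz]
        exact Real.log_le_log (by linarith) h2
      linarith
    have h4 : 2 / ((q : ℝ) - 1) ≤ 2 * (1 + 1 / 100000) * (1 / (q : ℝ)) := by
      rw [mul_one_div, div_le_div_iff₀ (by linarith) (by linarith)]
      nlinarith
    calc (1 - Real.log q / Real.log z) * (2 / ((q : ℝ) - 1)) ≤
        (1 - Real.log q / Real.log z) * (2 * (1 + 1 / 100000) * (1 / (q : ℝ))) :=
          mul_le_mul_of_nonneg_left h4 h3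
      _ = _ := by ring
  refine (sum_le_sum hterm).trans ?_
  rw [← mul_sum, sum_sub_distrib, ← sum_div]
  set S1 := ∑ q ∈ PP y z, 1 / (q : ℝ) with hS1
  set S2 := ∑ q ∈ PP y z, Real.log q / q with hS2
  have hS2' : 1 - 11443 / 100000 - 1 / 100000 ≤ S2 / Real.log z := by
    rw [le_div_iff₀ hlz]
    have h1 : C ≤ 1 / 100000 * Real.log z := by
      have h2 : C ≤ |C| := le_abs_self C
      have h3 : l / 5 ≤ Real.log z := by linarith
      linarith
    have h2 : Real.log y ≤ 11443 / 100000 * Real.log z := by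
      rwa [div_le_iff₀ hlz] at hρ2
    linarith
  have h1 : S1 - S2 / Real.log z ≤ 12866 / 10000 := by linarith
  calc 2 * (1 + 1 / 100000) * (S1 - S2 / Real.log z) ≤ 2 * (1 + 1 / 100000) * (12866 / 10000) :=
        mul_le_mul_of_nonneg_left h1 (by norm_num)
    _ ≤ _ := by norm_num

/-- the ratio of the products at `n^(2/97)` and `n^(1/35)` -/
theorem vratio : ∃ N₀ : ℕ, ∀ n : ℕ, N₀ ≤ n → yy (2 / 97) n ≤ yy (1 / 35) n ∧
    ∀ g : ℕ → ℝ, (∀ q ∈ PP (yy (2 / 97) n) (yy (1 / 35) n), g q ≤ 2 / ((q : ℝ) - 1)) →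
      1 ≤ 192212 / 100000 * ∏ q ∈ PP (yy (2 / 97) n) (yy (1 / 35) n), (1 - g q) := by
  classical
  obtain ⟨Y, hY3, hY⟩ := mert_ratio (1 / 10000) (by norm_num) (by norm_num)
  obtain ⟨N1, hN1⟩ := log_yy (1 / 35) (1 / 10000) (by norm_num) (by norm_num) 2
  obtain ⟨N2, hN2⟩ := log_yy (2 / 97) (1 / 10000) (by norm_num) (by norm_num) (max Y 1000001)
  have hlim3 : Filter.Tendsto (fun X : ℕ => Real.log (X : ℝ)) Filter.atTop Filter.atTop :=
    Real.tendsto_log_atTop.comp tendsto_natCast_atTop_atTop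
  obtain ⟨N3, hN3⟩ := Filter.eventually_atTop.1 (hlim3.eventually_ge_atTop 1)
  refine ⟨max (max N1 N2) N3, fun n hn => ?_⟩
  simp only [max_le_iff] at hn
  obtain ⟨⟨hn1, hn2⟩, hn3⟩ := hn
  obtain ⟨a1, a2, a3⟩ := hN1 n hn1
  obtain ⟨b1, b2, b3⟩ := hN2 n hn2
  have hl1 := hN3 n hn3
  set y := yy (1 / 35) n with hy
  set x := yy (2 / 97) n with hx
  set l := Real.log n with hl
  have hxY : Y ≤ x := (le_max_left _ _).trans b1
  have hx5 : 1000001 ≤ x := (le_max_right _ _).trans b1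
  have hx0 : (0 : ℝ) < x := by exact_mod_cast (by omega : 0 < x)
  have hy0 : (0 : ℝ) < y := by exact_mod_cast (by omega : 0 < y)
  have hlx : 0 < Real.log x := by linarith
  have hly : 0 < Real.log y := by linarith
  have hxy : x ≤ y := by
    have h1 : Real.log x ≤ Real.log y := by linarith
    have h2 := (Real.log_le_log_iff hx0 hy0).1 h1
    exact_mod_cast h2
  refine ⟨hxy, fun g hg => ?_⟩
  have h1 := hY x y hxY hxy
  set Q := ∏ p ∈ PP x y, (1 - 1 / (p : ℝ)) with hQ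
  have hQ0 : 72150 / 100000 ≤ Q := by
    refine le_trans ?_ h1
    rw [div_div, le_div_iff₀ (by positivity)]
    linarith
  -- `1 - g q ≥ (1 - 1/q)² exp (- 8/(q(q-1)))`
  have hq : ∀ q ∈ PP x y, (1000001 : ℝ) ≤ q := by
    intro q hq
    obtain ⟨h1, h2, h3⟩ := mem_PP'.1 hq
    exact_mod_cast (by omega : 1000001 ≤ q)
  have hterm : ∀ q ∈ PP x y, (1 - 1 / (q : ℝ)) ^ 2 * Real.exp (-(8 * (1 / ((q : ℝ) - 1) - 1 / q))) ≤
      1 - g q := by
    intro q hqq
    have h2 := hq q hqq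
    have h3 := hg q hqq
    have hq1 : (0 : ℝ) < (q : ℝ) - 1 := by linarith
    have hq2 : (0 : ℝ) < q := by linarith
    set t : ℝ := 8 * (1 / ((q : ℝ) - 1) - 1 / q) with ht
    have ht' : t = 8 / (((q : ℝ) - 1) * q) := by
      rw [ht]
      field_simp
      ring
    have ht0 : 0 < t := by
      rw [ht']
      positivity
    have h4 : Real.exp (-t) ≤ 1 / (1 + t) := by
      rw [Real.exp_neg, ← one_div]
      have := Real.add_one_le_exp t
      exact one_div_le_one_div_of_le (by linarith) (by linarith)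
    have h5 : (1 - 1 / (q : ℝ)) ^ 2 * (1 / (1 + t)) ≤ 1 - 2 / ((q : ℝ) - 1) := by
      rw [mul_one_div, div_le_iff₀ (by positivity), ht']
      have e1 : (1 - 1 / (q : ℝ)) ^ 2 = ((q : ℝ) - 1) ^ 2 / q ^ 2 := by
        field_simp
      have e2 : (1 - 2 / ((q : ℝ) - 1)) * (1 + 8 / (((q : ℝ) - 1) * q)) =
          (((q : ℝ) - 3) * (((q : ℝ) - 1) * q + 8)) / (((q : ℝ) - 1) ^ 2 * q) := by
        field_simp
        ring
      rw [e1, e2, div_le_div_iff₀ (by positivity) (by positivity)]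
      set r : ℝ := (q : ℝ) - 1 with hr
      have hqr : (q : ℝ) = r + 1 := by rw [hr]; ring
      have hr0 : (1000000 : ℝ) ≤ r := by rw [hr]; linarith
      rw [hqr]
      have e3 : (r + 1 - 3) * (r * (r + 1) + 8) * (r + 1) ^ 2 - r ^ 2 * (r ^ 2 * (r + 1)) =
          (r + 1) * (5 * r ^ 2 - 10 * r - 16 + (r ^ 2 - 0) * 0) := by ring
      have e4 : 0 ≤ 5 * r ^ 2 - 10 * r - 16 + (r ^ 2 - 0) * 0 := by nlinarith
      nlinarith [mul_nonneg (show (0 : ℝ) ≤ r + 1 by linarith) e4]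
    calc (1 - 1 / (q : ℝ)) ^ 2 * Real.exp (-t) ≤ (1 - 1 / (q : ℝ)) ^ 2 * (1 / (1 + t)) :=
          mul_le_mul_of_nonneg_left h4 (by positivity)
      _ ≤ 1 - 2 / ((q : ℝ) - 1) := h5
      _ ≤ _ := by linarith
  have hprod : Q ^ 2 * Real.exp (-(8 * ∑ q ∈ PP x y, (1 / ((q : ℝ) - 1) - 1 / q))) ≤
      ∏ q ∈ PP x y, (1 - g q) := by
    calc Q ^ 2 * Real.exp (-(8 * ∑ q ∈ PP x y, (1 / ((q : ℝ) - 1) - 1 / q))) =
        ∏ q ∈ PP x y, ((1 - 1 / (q : ℝ)) ^ 2 * Real.exp (-(8 * (1 / ((q : ℝ) - 1) - 1 / q)))) := by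
          rw [prod_mul_distrib, prod_pow, ← Real.exp_sum, sum_neg_distrib, mul_sum]
      _ ≤ _ := prod_le_prod (fun q _ => by positivity) hterm
  have htele : ∑ q ∈ PP x y, (1 / ((q : ℝ) - 1) - 1 / q) ≤ 1 / x := by
    have h2 : ∑ q ∈ PP x y, (1 / ((q : ℝ) - 1) - 1 / q) ≤
        ∑ q ∈ Ico (x + 1) (y + 1), (1 / ((q : ℝ) - 1) - 1 / q) := by
      refine sum_le_sum_of_subset_of_nonneg ?_ ?_
      · intro q hq
        obtain ⟨h1, h2, h3⟩ := mem_PP'.1 hq
        rw [mem_Ico]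
        omega
      · intro q hq _
        rw [mem_Ico] at hq
        have : (x : ℝ) + 1 ≤ q := by exact_mod_cast hq.1
        have h3 : 1 / (q : ℝ) ≤ 1 / ((q : ℝ) - 1) :=
          one_div_le_one_div_of_le (by linarith) (by linarith)
        linarith
    have h3 : ∀ m : ℕ, ∑ q ∈ Ico (x + 1) (x + 1 + m), (1 / ((q : ℝ) - 1) - 1 / q) =
        1 / x - 1 / ((x : ℝ) + m) := by
      intro m
      induction m with
      | zero => simp
      | succ m ih =>
        rw [← add_assoc, sum_Ico_succ_top (by omega), ih]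
        push_cast
        have e1 : (x : ℝ) + 1 + m - 1 = x + m := by ring
        have e2 : (x : ℝ) + (m + 1) = x + 1 + m := by ring
        rw [e1, e2]
        ring
    have h4 := h3 (y - x)
    have h5 : x + 1 + (y - x) = y + 1 := by omega
    rw [h5] at h4
    rw [h4] at h2
    have h6 : (0 : ℝ) ≤ 1 / ((x : ℝ) + ((y - x : ℕ) : ℝ)) := by positivity
    linarith
  have hxr : (1000001 : ℝ) ≤ x := by exact_mod_cast hx5
  have hx1 : 1 / (x : ℝ) ≤ 1 / 1000001 := one_div_le_one_div_of_le (by norm_num) hxr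
  have hexp : 1 - 8 / 1000001 ≤
      Real.exp (-(8 * ∑ q ∈ PP x y, (1 / ((q : ℝ) - 1) - 1 / q))) := by
    have h2 := Real.add_one_le_exp (-(8 * ∑ q ∈ PP x y, (1 / ((q : ℝ) - 1) - 1 / q)))
    linarith
  have hQ2 : (72150 / 100000 : ℝ) ^ 2 ≤ Q ^ 2 := pow_le_pow_left₀ (by norm_num) hQ0 2
  have h5 : (72150 / 100000 : ℝ) ^ 2 * (1 - 8 / 1000001) ≤ ∏ q ∈ PP x y, (1 - g q) :=
    (mul_le_mul hQ2 hexp (by norm_num) (by positivity)).trans hprod
  norm_num at h5 ⊢
  linarith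

/-- the weighted sum over the primes of `(n^s, n^t]`, weights `1 - log q/log n^v` -/
theorem wsumg (s t v τ : ℝ) (hs : 0 < s) (hst : s < t) (htv : t ≤ v) (hτ : 0 < τ) (hτ1 : τ ≤ 1) :
    ∃ N₀ : ℕ, ∀ n : ℕ, N₀ ≤ n →
    ∑ q ∈ PP (yy s n) (yy t n),
      (1 - Real.log q / Real.log (yy v n)) * (2 / ((q : ℝ) - 1)) ≤
        2 * (Real.log (t / s) - (t - s) / v) + τ := by
  classical
  have ht : 0 < t := by linarith
  have hv : 0 < v := by linarith
  obtain ⟨K, hK⟩ : ∃ K : ℝ, K = |Real.log (t / s)| + 10 := ⟨_, rfl⟩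
  have hK10 : 10 ≤ K := by
    rw [hK]
    linarith [abs_nonneg (Real.log (t / s))]
  obtain ⟨ε, hε⟩ : ∃ ε : ℝ, ε = min (τ / (10 * K)) (min (1 / 10) ((t - s) / (2 * t))) := ⟨_, rfl⟩
  have hε0 : 0 < ε := by
    rw [hε]
    refine lt_min (by positivity) (lt_min (by norm_num) ?_)
    have : 0 < t - s := by linarith
    positivity
  have hε1 : ε ≤ 1 / 10 := by
    rw [hε]
    exact (min_le_right _ _).trans (min_le_left _ _)
  have hετ : ε * (10 * K) ≤ τ := by
    have h1 : ε ≤ τ / (10 * K) := by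
      rw [hε]
      exact min_le_left _ _
    rwa [le_div_iff₀ (by positivity)] at h1
  have hεt : ε * (2 * t) ≤ t - s := by
    have h1 : ε ≤ (t - s) / (2 * t) := by
      rw [hε]
      exact (min_le_right _ _).trans (min_le_right _ _)
    rwa [le_div_iff₀ (by positivity)] at h1
  obtain ⟨Y, hY3, hY⟩ := mert_sum ε hε0 (by linarith)
  obtain ⟨C, hC⟩ := mert_log
  obtain ⟨N1, hN1⟩ := log_yy s ε hs hε0 (max Y (⌈1 / ε⌉₊ + 3))
  obtain ⟨N2, hN2⟩ := log_yy t ε ht hε0 2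
  obtain ⟨N4, hN4⟩ := log_yy v ε hv hε0 2
  have hlim3 : Filter.Tendsto (fun X : ℕ => Real.log (X : ℝ)) Filter.atTop Filter.atTop :=
    Real.tendsto_log_atTop.comp tendsto_natCast_atTop_atTop
  obtain ⟨N3, hN3⟩ := Filter.eventually_atTop.1
    (hlim3.eventually_ge_atTop (max 1 (2 * |C| / (ε * v))))
  refine ⟨max (max N1 N2) (max N3 N4), fun n hn => ?_⟩
  simp only [max_le_iff] at hn
  obtain ⟨⟨hn1, hn2⟩, hn3, hn4⟩ := hn
  obtain ⟨a1, a2, a3⟩ := hN1 n hn1
  obtain ⟨b1, b2, b3⟩ := hN2 n hn2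
  obtain ⟨c1, c2, c3⟩ := hN4 n hn4
  have hlog := hN3 n hn3
  have hl1 : 1 ≤ Real.log n := (le_max_left _ _).trans hlog
  have hl2 : 2 * |C| / (ε * v) ≤ Real.log n := (le_max_right _ _).trans hlog
  set y := yy s n with hy
  set x := yy t n with hx
  set z := yy v n with hz
  set l := Real.log n with hl
  have hyY : Y ≤ y := (le_max_left _ _).trans a1
  have hy5 : ⌈1 / ε⌉₊ + 3 ≤ y := (le_max_right _ _).trans a1
  have hyε : 1 / ε + 3 ≤ (y : ℝ) := by
    have h1 : (((⌈1 / ε⌉₊ + 3 : ℕ)) : ℝ) ≤ y := by exact_mod_cast hy5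
    have h2 : 1 / ε ≤ (⌈1 / ε⌉₊ : ℝ) := Nat.le_ceil _
    push_cast at h1
    linarith
  have hy0 : (0 : ℝ) < y := by exact_mod_cast (by omega : 0 < y)
  have hx0 : (0 : ℝ) < x := by exact_mod_cast (by omega : 0 < x)
  have hz0 : (0 : ℝ) < z := by exact_mod_cast (by omega : 0 < z)
  have hly : 0 < Real.log y := lt_of_lt_of_le (by
    have : 0 < 1 - ε := by linarith
    positivity) a2
  have hlx : 0 < Real.log x := lt_of_lt_of_le (by
    have : 0 < 1 - ε := by linarith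
    positivity) b2
  have hlz : 0 < Real.log z := lt_of_lt_of_le (by
    have : 0 < 1 - ε := by linarith
    positivity) c2
  have hl0 : 0 < l := by linarith
  have hyx : y ≤ x := by
    have h1 : Real.log y ≤ Real.log x := by
      refine a3.trans (le_trans ?_ b2)
      have : s ≤ t * (1 - ε) := by linarith
      exact mul_le_mul_of_nonneg_right this hl0.le
    have h2 := (Real.log_le_log_iff hy0 hx0).1 h1
    exact_mod_cast h2
  have hxz : x ≤ z := by
    rw [hx, hz]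
    unfold yy
    have hnr : (1 : ℝ) ≤ n := by
      by_contra h
      push Not at h
      have h0 : n = 0 := by
        have h2 : n < 1 := by exact_mod_cast h
        omega
      rw [hl, h0] at hl1
      norm_num at hl1
    exact Nat.floor_le_floor (Real.rpow_le_rpow_of_exponent_le hnr htv)
  have hρ1 : Real.log x / Real.log y ≤ t / s * (1 + 2 * ε) := by
    rw [div_le_iff₀ hly]
    have h1 : Real.log x ≤ t * l := b3
    have h2 : t * l ≤ t / s * (1 + 2 * ε) * (s * (1 - ε) * l) := by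
      have h3 : t / s * (1 + 2 * ε) * (s * (1 - ε) * l) = t * l * ((1 + 2 * ε) * (1 - ε)) := by
        field_simp
      rw [h3]
      have h4 : 1 ≤ (1 + 2 * ε) * (1 - ε) := by nlinarith
      have h5 : 0 ≤ t * l := by positivity
      nlinarith
    exact h1.trans (h2.trans (mul_le_mul_of_nonneg_left a2 (by positivity)))
  have hlogρ : Real.log (Real.log x / Real.log y) ≤ Real.log (t / s) + 2 * ε := by
    refine (Real.log_le_log (by positivity) hρ1).trans ?_
    rw [Real.log_mul (by positivity) (by positivity)]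
    have := Real.log_le_sub_one_of_pos (show 0 < 1 + 2 * ε by positivity)
    linarith
  have hS := hY y x hyY hyx
  have hL := hC y x (by omega) hyx
  have hq0 : ∀ q ∈ PP y x, 1 / ε + 3 ≤ (q : ℝ) ∧ (q : ℝ) ≤ z := by
    intro q hq
    obtain ⟨h1, h2, h3⟩ := mem_PP'.1 hq
    have h4 : (y : ℝ) ≤ q := by exact_mod_cast h2.le
    exact ⟨hyε.trans h4, by exact_mod_cast h3.trans hxz⟩
  have hterm : ∀ q ∈ PP y x, (1 - Real.log q / Real.log z) * (2 / ((q : ℝ) - 1)) ≤
      2 * (1 + ε) * (1 / (q : ℝ) - (Real.log q / q) / Real.log z) := by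
    intro q hq
    obtain ⟨h1, h2⟩ := hq0 q hq
    have hε' : 0 < 1 / ε := by positivity
    have h3 : 0 ≤ 1 - Real.log q / Real.log z := by
      have : Real.log q / Real.log z ≤ 1 := by
        rw [div_le_one hlz]
        exact Real.log_le_log (by linarith) h2
      linarith
    have h4 : 2 / ((q : ℝ) - 1) ≤ 2 * (1 + ε) * (1 / (q : ℝ)) := by
      rw [mul_one_div, div_le_div_iff₀ (by linarith) (by linarith)]
      have h5 : 1 ≤ ε * ((q : ℝ) - 3) := by
        have h6 : ε * (1 / ε) = 1 := by field_simp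
        have h7 : ε * (1 / ε) ≤ ε * ((q : ℝ) - 3) := mul_le_mul_of_nonneg_left (by linarith) hε0.le
        linarith
      nlinarith
    calc (1 - Real.log q / Real.log z) * (2 / ((q : ℝ) - 1)) ≤
        (1 - Real.log q / Real.log z) * (2 * (1 + ε) * (1 / (q : ℝ))) :=
          mul_le_mul_of_nonneg_left h4 h3
      _ = _ := by ring
  refine (sum_le_sum hterm).trans ?_
  rw [← mul_sum, sum_sub_distrib, ← sum_div]
  set S1 := ∑ q ∈ PP y x, 1 / (q : ℝ) with hS1
  set S2 := ∑ q ∈ PP y x, Real.log q / q with hS2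
  have hS2' : (t - s) / v - 3 * ε ≤ S2 / Real.log z := by
    rw [le_div_iff₀ hlz]
    have h1 : |C| ≤ ε * v * l / 2 := by
      rw [div_le_iff₀ (by positivity)] at hl2
      linarith
    have h2 : C ≤ |C| := le_abs_self C
    have h3 : (t * (1 - ε) - s) * l - ε * v * l / 2 ≤ S2 := by
      have : (t * (1 - ε) - s) * l = t * (1 - ε) * l - s * l := by ring
      linarith
    have h4 : ((t - s) / v - 3 * ε) * Real.log z ≤ (t - s) * l - 3 * ε * (v * (1 - ε) * l) := by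
      have h5 : (t - s) / v * Real.log z ≤ (t - s) * l := by
        have h6 : (t - s) / v * Real.log z ≤ (t - s) / v * (v * l) :=
          mul_le_mul_of_nonneg_left c3 (div_nonneg (by linarith) hv.le)
        have h7 : (t - s) / v * (v * l) = (t - s) * l := by field_simp
        linarith
      have h8 : 3 * ε * (v * (1 - ε) * l) ≤ 3 * ε * Real.log z :=
        mul_le_mul_of_nonneg_left c2 (by positivity)
      linarith
    have h9 : (t - s) * l - 3 * ε * (v * (1 - ε) * l) ≤ (t * (1 - ε) - s) * l - ε * v * l / 2 := by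
      have h10 : (t * (1 - ε) - s) * l = (t - s) * l - ε * t * l := by ring
      rw [h10]
      have h11 : ε * t * l ≤ ε * v * l := by
        have : ε * t ≤ ε * v := mul_le_mul_of_nonneg_left htv hε0.le
        exact mul_le_mul_of_nonneg_right this hl0.le
      have h12 : 3 * ε * (v * (1 - ε) * l) = ε * v * l * (3 * (1 - ε)) := by ring
      rw [h12]
      have h13 : 0 ≤ ε * v * l := by positivity
      nlinarith
    linarith
  have hS20 : 0 ≤ S2 / Real.log z := by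
    refine div_nonneg (sum_nonneg fun q hq => ?_) hlz.le
    exact div_nonneg (Real.log_natCast_nonneg q) (Nat.cast_nonneg q)
  have h1 : S1 - S2 / Real.log z ≤ Real.log (t / s) - (t - s) / v + 6 * ε := by linarith
  have h2 : S1 - S2 / Real.log z ≤ K := by
    have : Real.log (t / s) ≤ |Real.log (t / s)| := le_abs_self _
    linarith
  have h3 : 2 * (1 + ε) * (S1 - S2 / Real.log z) =
      2 * (S1 - S2 / Real.log z) + 2 * ε * (S1 - S2 / Real.log z) := by ring
  have h4 : 2 * ε * (S1 - S2 / Real.log z) ≤ 2 * ε * K :=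
    mul_le_mul_of_nonneg_left h2 (by positivity)
  have h5 : 12 * ε ≤ 2 * ε * K := by nlinarith
  rw [h3]
  nlinarith

/-- the ratio of the products at `n^s` and `n^t` -/
theorem vratiog (s t τ : ℝ) (hs : 0 < s) (hst : s ≤ t) (hτ : 0 < τ) (hτ1 : τ ≤ 1) :
    ∃ N₀ : ℕ, ∀ n : ℕ, N₀ ≤ n → yy s n ≤ yy t n ∧
    ∀ g : ℕ → ℝ, (∀ q ∈ PP (yy s n) (yy t n), g q ≤ 2 / ((q : ℝ) - 1)) →
      (s / t) ^ 2 * (1 - τ) ≤ ∏ q ∈ PP (yy s n) (yy t n), (1 - g q) := by
  classical
  have ht : 0 < t := by linarith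
  obtain ⟨ε, hε⟩ : ∃ ε : ℝ, ε = τ / 20 := ⟨_, rfl⟩
  have hε0 : 0 < ε := by
    rw [hε]
    positivity
  have hε1 : ε ≤ 1 / 20 := by
    rw [hε]
    linarith
  obtain ⟨Y, hY3, hY⟩ := mert_ratio ε hε0 (by linarith)
  obtain ⟨N1, hN1⟩ := log_yy t ε ht hε0 2
  obtain ⟨N2, hN2⟩ := log_yy s ε hs hε0 (max Y (⌈8 / ε⌉₊ + 1000001))
  refine ⟨max (max N1 N2) 1, fun n hn => ?_⟩
  simp only [max_le_iff] at hn
  obtain ⟨⟨hn1, hn2⟩, hn3⟩ := hn
  obtain ⟨a1, a2, a3⟩ := hN1 n hn1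
  obtain ⟨b1, b2, b3⟩ := hN2 n hn2
  have hxy : yy s n ≤ yy t n := by
    unfold yy
    have hnr : (1 : ℝ) ≤ n := by exact_mod_cast hn3
    exact Nat.floor_le_floor (Real.rpow_le_rpow_of_exponent_le hnr hst)
  set y := yy t n with hy
  set x := yy s n with hx
  set l := Real.log n with hl
  have hxY : Y ≤ x := (le_max_left _ _).trans b1
  have hx5 : ⌈8 / ε⌉₊ + 1000001 ≤ x := (le_max_right _ _).trans b1
  have hx0 : (0 : ℝ) < x := by exact_mod_cast (by omega : 0 < x)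
  have hy0 : (0 : ℝ) < y := by exact_mod_cast (by omega : 0 < y)
  have hlx : 0 < Real.log x := Real.log_pos (by exact_mod_cast (by omega : 1 < x))
  have hly : 0 < Real.log y := Real.log_pos (by exact_mod_cast (by omega : 1 < y))
  have hl0 : 0 < l := by
    have h1 : 0 < t * l := lt_of_lt_of_le hly a3
    exact (mul_pos_iff_of_pos_left ht).1 h1
  refine ⟨hxy, fun g hg => ?_⟩
  have h1 := hY x y hxY hxy
  set Q := ∏ p ∈ PP x y, (1 - 1 / (p : ℝ)) with hQ
  have hQ0 : s / t * (1 - 2 * ε) ≤ Q := by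
    refine le_trans ?_ h1
    rw [div_div, le_div_iff₀ (by positivity)]
    -- `s/t (1 - 2ε) (log y (1+ε)) ≤ log x`
    have h2 : s / t * (1 - 2 * ε) * (Real.log y * (1 + ε)) ≤
        s / t * (1 - 2 * ε) * ((t * l) * (1 + ε)) := by
      have h3 : 0 ≤ s / t * (1 - 2 * ε) := mul_nonneg (by positivity) (by linarith)
      exact mul_le_mul_of_nonneg_left (mul_le_mul_of_nonneg_right a3 (by linarith)) h3
    have h3 : s / t * (1 - 2 * ε) * ((t * l) * (1 + ε)) = s * l * ((1 - 2 * ε) * (1 + ε)) := by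
      field_simp
    have h4 : (1 - 2 * ε) * (1 + ε) ≤ 1 - ε := by nlinarith
    have h5 : s * l * ((1 - 2 * ε) * (1 + ε)) ≤ s * l * (1 - ε) :=
      mul_le_mul_of_nonneg_left h4 (by positivity)
    have h6 : s * l * (1 - ε) = s * (1 - ε) * l := by ring
    linarith
  have hq : ∀ q ∈ PP x y, (1000001 : ℝ) ≤ q := by
    intro q hq
    obtain ⟨h1, h2, h3⟩ := mem_PP'.1 hq
    exact_mod_cast (by omega : 1000001 ≤ q)
  have hterm : ∀ q ∈ PP x y, (1 - 1 / (q : ℝ)) ^ 2 * Real.exp (-(8 * (1 / ((q : ℝ) - 1) - 1 / q))) ≤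
      1 - g q := by
    intro q hqq
    have h2 := hq q hqq
    have h3 := hg q hqq
    have hq1 : (0 : ℝ) < (q : ℝ) - 1 := by linarith
    have hq2 : (0 : ℝ) < q := by linarith
    set t : ℝ := 8 * (1 / ((q : ℝ) - 1) - 1 / q) with ht
    have ht' : t = 8 / (((q : ℝ) - 1) * q) := by
      rw [ht]
      field_simp
      ring
    have ht0 : 0 < t := by
      rw [ht']
      positivity
    have h4 : Real.exp (-t) ≤ 1 / (1 + t) := by
      rw [Real.exp_neg, ← one_div]
      have := Real.add_one_le_exp t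
      exact one_div_le_one_div_of_le (by linarith) (by linarith)
    have h5 : (1 - 1 / (q : ℝ)) ^ 2 * (1 / (1 + t)) ≤ 1 - 2 / ((q : ℝ) - 1) := by
      rw [mul_one_div, div_le_iff₀ (by positivity), ht']
      have e1 : (1 - 1 / (q : ℝ)) ^ 2 = ((q : ℝ) - 1) ^ 2 / q ^ 2 := by
        field_simp
      have e2 : (1 - 2 / ((q : ℝ) - 1)) * (1 + 8 / (((q : ℝ) - 1) * q)) =
          (((q : ℝ) - 3) * (((q : ℝ) - 1) * q + 8)) / (((q : ℝ) - 1) ^ 2 * q) := by
        field_simp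
        ring
      rw [e1, e2, div_le_div_iff₀ (by positivity) (by positivity)]
      set r : ℝ := (q : ℝ) - 1 with hr
      have hqr : (q : ℝ) = r + 1 := by rw [hr]; ring
      have hr0 : (1000000 : ℝ) ≤ r := by rw [hr]; linarith
      rw [hqr]
      have e3 : (r + 1 - 3) * (r * (r + 1) + 8) * (r + 1) ^ 2 - r ^ 2 * (r ^ 2 * (r + 1)) =
          (r + 1) * (5 * r ^ 2 - 10 * r - 16 + (r ^ 2 - 0) * 0) := by ring
      have e4 : 0 ≤ 5 * r ^ 2 - 10 * r - 16 + (r ^ 2 - 0) * 0 := by nlinarith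
      nlinarith [mul_nonneg (show (0 : ℝ) ≤ r + 1 by linarith) e4]
    calc (1 - 1 / (q : ℝ)) ^ 2 * Real.exp (-t) ≤ (1 - 1 / (q : ℝ)) ^ 2 * (1 / (1 + t)) :=
          mul_le_mul_of_nonneg_left h4 (by positivity)
      _ ≤ 1 - 2 / ((q : ℝ) - 1) := h5
      _ ≤ _ := by linarith
  have hprod : Q ^ 2 * Real.exp (-(8 * ∑ q ∈ PP x y, (1 / ((q : ℝ) - 1) - 1 / q))) ≤
      ∏ q ∈ PP x y, (1 - g q) := by
    calc Q ^ 2 * Real.exp (-(8 * ∑ q ∈ PP x y, (1 / ((q : ℝ) - 1) - 1 / q))) =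
        ∏ q ∈ PP x y, ((1 - 1 / (q : ℝ)) ^ 2 * Real.exp (-(8 * (1 / ((q : ℝ) - 1) - 1 / q)))) := by
          rw [prod_mul_distrib, prod_pow, ← Real.exp_sum, sum_neg_distrib, mul_sum]
      _ ≤ _ := prod_le_prod (fun q _ => by positivity) hterm
  have htele : ∑ q ∈ PP x y, (1 / ((q : ℝ) - 1) - 1 / q) ≤ 1 / x := by
    have h2 : ∑ q ∈ PP x y, (1 / ((q : ℝ) - 1) - 1 / q) ≤
        ∑ q ∈ Ico (x + 1) (y + 1), (1 / ((q : ℝ) - 1) - 1 / q) := by
      refine sum_le_sum_of_subset_of_nonneg ?_ ?_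
      · intro q hq
        obtain ⟨h1, h2, h3⟩ := mem_PP'.1 hq
        rw [mem_Ico]
        omega
      · intro q hq _
        rw [mem_Ico] at hq
        have : (x : ℝ) + 1 ≤ q := by exact_mod_cast hq.1
        have h3 : 1 / (q : ℝ) ≤ 1 / ((q : ℝ) - 1) :=
          one_div_le_one_div_of_le (by linarith) (by linarith)
        linarith
    have h3 : ∀ m : ℕ, ∑ q ∈ Ico (x + 1) (x + 1 + m), (1 / ((q : ℝ) - 1) - 1 / q) =
        1 / x - 1 / ((x : ℝ) + m) := by
      intro m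
      induction m with
      | zero => simp
      | succ m ih =>
        rw [← add_assoc, sum_Ico_succ_top (by omega), ih]
        push_cast
        have e1 : (x : ℝ) + 1 + m - 1 = x + m := by ring
        have e2 : (x : ℝ) + (m + 1) = x + 1 + m := by ring
        rw [e1, e2]
        ring
    have h4 := h3 (y - x)
    have h5 : x + 1 + (y - x) = y + 1 := by omega
    rw [h5] at h4
    rw [h4] at h2
    have h6 : (0 : ℝ) ≤ 1 / ((x : ℝ) + ((y - x : ℕ) : ℝ)) := by positivity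
    linarith
  have hxr : 8 / ε ≤ (x : ℝ) := by
    have h1 : (((⌈8 / ε⌉₊ + 1000001 : ℕ)) : ℝ) ≤ x := by exact_mod_cast hx5
    have h2 : 8 / ε ≤ (⌈8 / ε⌉₊ : ℝ) := Nat.le_ceil _
    push_cast at h1
    linarith
  have hx1 : 8 * (1 / (x : ℝ)) ≤ ε := by
    rw [div_le_iff₀ hε0] at hxr
    rw [mul_one_div, div_le_iff₀ hx0]
    linarith
  have hexp : 1 - ε ≤
      Real.exp (-(8 * ∑ q ∈ PP x y, (1 / ((q : ℝ) - 1) - 1 / q))) := by
    have h2 := Real.add_one_le_exp (-(8 * ∑ q ∈ PP x y, (1 / ((q : ℝ) - 1) - 1 / q)))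
    linarith
  have hst0 : 0 ≤ s / t * (1 - 2 * ε) := mul_nonneg (by positivity) (by linarith)
  have hQ2 : (s / t * (1 - 2 * ε)) ^ 2 ≤ Q ^ 2 := pow_le_pow_left₀ hst0 hQ0 2
  have h5 : (s / t * (1 - 2 * ε)) ^ 2 * (1 - ε) ≤ ∏ q ∈ PP x y, (1 - g q) :=
    (mul_le_mul hQ2 hexp (by linarith) (by positivity)).trans hprod
  refine le_trans ?_ h5
  have h6 : (s / t * (1 - 2 * ε)) ^ 2 * (1 - ε) = (s / t) ^ 2 * ((1 - 2 * ε) ^ 2 * (1 - ε)) := by
    ring
  rw [h6]
  refine mul_le_mul_of_nonneg_left ?_ (by positivity)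
  have h7 : τ = 20 * ε := by
    rw [hε]
    ring
  rw [h7]
  nlinarith [sq_nonneg ε, mul_nonneg hε0.le (sq_nonneg ε)]

end Pool.Agent.Lib.MP_d06d57_nt
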