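import Pool.Agent.Lib.MTR.FL
import Pool.Agent.Lib.Sieve.Mertens3

/-!
# MP_d06d57_nt, Sharp: the lower bound sieve of dimension 2 with explicit level `y^13`

The Brun-Hooley lower bound sieve of `Lib/MTR` (levels `(y^(1/2^(j+1)), y^(1/2^j)]`, truncation at `2(2 + j)` primes)
for large primes and densities `g q ≤ 2/(q - 1)`. By Mertens the sum of `g` over one level is at most
`2 (log 2 + ε) ≤ 1.388`, so that the error of level `j` is at most `0.18 / 20^j` times the product, and the level of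
the sieve is `∑_j 2(2 + j)/2^j + 1 = 13`.
-/

set_option autoImplicit false

open Finset

namespace Pool.Agent.Lib.MP_d06d57_nt

open Pool.Agent.Lib.GT Pool.Agent.Lib.RG Pool.Agent.Lib.MTR

/-- the primes of an interval `[m, N]` with `N < m ^ 2`: the sum of the reciprocals is about `log 2` at most -/
theorem mertens_sharp : ∃ W : ℕ, 3 ≤ W ∧ ∀ (m N : ℕ) (Q : Finset ℕ), W ≤ m → N < m ^ 2 →
    (∀ q ∈ Q, q.Prime ∧ m ≤ q ∧ q ≤ N) → ∑ q ∈ Q, 1 / (q : ℝ) ≤ 6936 / 10000 := by
  classical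
  set c := Real.exp (-Real.eulerMascheroniConstant) with hc
  have hc0 : 0 < c := Real.exp_pos _
  set V : ℕ → ℝ := fun z => ∏ p ∈ (range (z + 1)).filter Nat.Prime, (1 - 1 / (p : ℝ)) with hV
  have hT : Filter.Tendsto (fun z : ℕ => Real.log z * V z) Filter.atTop (nhds c) :=
    Pool.Agent.Lib.Sieve.Mertens3.mertens_three
  have h1 := hT.eventually (Ioo_mem_nhds (show c * (1 - 1 / 10000) < c by nlinarith)
    (show c < c * (1 + 1 / 10000) by nlinarith))
  obtain ⟨Z, hZ⟩ := Filter.eventually_atTop.1 h1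
  refine ⟨max (Z + 1) 20002, by omega, fun m N Q hm hN hQ => ?_⟩
  have hmZ : Z + 1 ≤ m := (le_max_left _ _).trans hm
  have hm2 : 20002 ≤ m := (le_max_right _ _).trans hm
  rcases Q.eq_empty_or_nonempty with hQe | ⟨q0, hq0⟩
  · rw [hQe, sum_empty]
    norm_num
  have hmN : m ≤ N := (hQ q0 hq0).2.1.trans (hQ q0 hq0).2.2
  have hfac : ∀ p : ℕ, p.Prime → 0 < 1 - 1 / (p : ℝ) := by
    intro p hp
    have h2 : (1 : ℝ) / p ≤ 1 / 2 := by
      apply one_div_le_one_div_of_le (by norm_num)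
      exact_mod_cast hp.two_le
    linarith
  have hVpos : ∀ z, 0 < V z := fun z => prod_pos fun p hp => hfac p (mem_filter.mp hp).2
  have hA := hZ (m - 1) (by omega)
  have hB := hZ N (by omega)
  have hsub : (range (m - 1 + 1)).filter Nat.Prime ∪ (Icc m N).filter Nat.Prime =
      (range (N + 1)).filter Nat.Prime := by
    ext p
    simp only [mem_union, mem_filter, mem_range, mem_Icc]
    constructor
    · rintro (⟨h, h'⟩ | ⟨h, h'⟩)
      · exact ⟨by omega, h'⟩
      · exact ⟨by omega, h'⟩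
    · rintro ⟨h, h'⟩
      rcases Nat.lt_or_ge p m with h3 | h3
      · exact Or.inl ⟨by omega, h'⟩
      · exact Or.inr ⟨by omega, h'⟩
  have hdis : Disjoint ((range (m - 1 + 1)).filter Nat.Prime) ((Icc m N).filter Nat.Prime) := by
    rw [disjoint_left]
    intro p h2 h3
    simp only [mem_filter, mem_range, mem_Icc] at h2 h3
    omega
  have hVN : V N = V (m - 1) * ∏ p ∈ (Icc m N).filter Nat.Prime, (1 - 1 / (p : ℝ)) := by
    simp only [hV]
    rw [← hsub, prod_union hdis]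
  have hprod : ∏ p ∈ (Icc m N).filter Nat.Prime, (1 - 1 / (p : ℝ)) ≤
      Real.exp (-∑ q ∈ Q, 1 / (q : ℝ)) := by
    calc ∏ p ∈ (Icc m N).filter Nat.Prime, (1 - 1 / (p : ℝ))
        ≤ ∏ p ∈ (Icc m N).filter Nat.Prime, Real.exp (-(1 / (p : ℝ))) := by
          refine prod_le_prod (fun p hp => (hfac p (mem_filter.mp hp).2).le) fun p _ => ?_
          have := Real.add_one_le_exp (-(1 / (p : ℝ)))
          linarith
      _ = Real.exp (∑ p ∈ (Icc m N).filter Nat.Prime, -(1 / (p : ℝ))) := (Real.exp_sum _ _).symm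
      _ ≤ _ := by
          rw [sum_neg_distrib]
          apply Real.exp_le_exp.2
          apply neg_le_neg
          refine sum_le_sum_of_subset_of_nonneg ?_ fun _ _ _ => by positivity
          intro q hq
          rw [mem_filter, mem_Icc]
          exact ⟨(hQ q hq).2, (hQ q hq).1⟩
  set S := ∑ q ∈ Q, 1 / (q : ℝ) with hS
  have hmr : (20002 : ℝ) ≤ m := by exact_mod_cast hm2
  have hm1 : ((m - 1 : ℕ) : ℝ) = (m : ℝ) - 1 := by
    rw [Nat.cast_sub (by omega), Nat.cast_one]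
  have hl1 : 1 ≤ Real.log ((m - 1 : ℕ) : ℝ) := by
    rw [hm1, Real.le_log_iff_exp_le (by linarith)]
    have := Real.exp_one_lt_d9
    linarith
  have hlm : Real.log m ≤ (1 + 1 / 10000) * Real.log ((m - 1 : ℕ) : ℝ) := by
    have h2 : Real.log m ≤ Real.log ((m : ℝ) - 1) + 1 / ((m : ℝ) - 1) := by
      have h3 : (m : ℝ) = ((m : ℝ) - 1) * (1 + 1 / ((m : ℝ) - 1)) := by
        field_simp [show (m : ℝ) - 1 ≠ 0 by linarith]
        ring
      have h4 : 0 < 1 / ((m : ℝ) - 1) := by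
        apply one_div_pos.2
        linarith
      calc Real.log m = Real.log (((m : ℝ) - 1) * (1 + 1 / ((m : ℝ) - 1))) := by rw [← h3]
        _ = Real.log ((m : ℝ) - 1) + Real.log (1 + 1 / ((m : ℝ) - 1)) :=
            Real.log_mul (by linarith) (by positivity)
        _ ≤ _ := by
            have := Real.log_le_sub_one_of_pos (show 0 < 1 + 1 / ((m : ℝ) - 1) by positivity)
            linarith
    have h5 : 1 / ((m : ℝ) - 1) ≤ 1 / 10000 :=
      one_div_le_one_div_of_le (by norm_num) (by linarith)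
    rw [hm1] at hl1 ⊢
    linarith
  have hlN : Real.log N ≤ 2 * Real.log m := by
    have h2 : Real.log N ≤ Real.log ((m : ℝ) ^ 2) := by
      apply Real.log_le_log
      · exact_mod_cast (by omega : 0 < N)
      · exact_mod_cast hN.le
    rw [Real.log_pow] at h2
    push_cast at h2
    exact h2
  have hexp : Real.exp S ≤ 2.0007 := by
    have h2 : Real.exp S * V N ≤ V (m - 1) := by
      rw [hVN]
      have h3 := mul_le_mul_of_nonneg_left hprod (mul_pos (Real.exp_pos S) (hVpos (m - 1))).le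
      have h4 : Real.exp S * V (m - 1) * Real.exp (-S) = V (m - 1) := by
        rw [mul_right_comm, ← Real.exp_add, add_neg_cancel, Real.exp_zero, one_mul]
      rw [h4] at h3
      linarith
    have h5 : c * (1 - 1 / 10000) ≤ Real.log N * V N := hB.1.le
    have h6 : Real.log ((m - 1 : ℕ) : ℝ) * V (m - 1) ≤ c * (1 + 1 / 10000) := hA.2.le
    have hlN0 : 0 < Real.log N := by
      have : 0 < Real.log N * V N := lt_of_lt_of_le (by positivity) h5
      exact (pos_iff_pos_of_mul_pos this).2 (hVpos N)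
    have hlm0 : 0 < Real.log m := by linarith
    have h7 : Real.exp S * (c * (1 - 1 / 10000)) ≤
        2 * (1 + 1 / 10000) * (c * (1 + 1 / 10000)) := by
      calc Real.exp S * (c * (1 - 1 / 10000)) ≤ Real.exp S * (Real.log N * V N) :=
            mul_le_mul_of_nonneg_left h5 (Real.exp_pos S).le
        _ = Real.log N * (Real.exp S * V N) := by ring
        _ ≤ Real.log N * V (m - 1) := mul_le_mul_of_nonneg_left h2 hlN0.le
        _ ≤ (2 * ((1 + 1 / 10000) * Real.log ((m - 1 : ℕ) : ℝ))) * V (m - 1) :=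
            mul_le_mul_of_nonneg_right (by linarith) (hVpos _).le
        _ = 2 * (1 + 1 / 10000) * (Real.log ((m - 1 : ℕ) : ℝ) * V (m - 1)) := by ring
        _ ≤ _ := mul_le_mul_of_nonneg_left h6 (by norm_num)
    have h8 : Real.exp S * (1 - 1 / 10000) ≤ 2 * (1 + 1 / 10000) * (1 + 1 / 10000) := by
      have h9 : c * (Real.exp S * (1 - 1 / 10000)) ≤
          c * (2 * (1 + 1 / 10000) * (1 + 1 / 10000)) := by linarith
      exact le_of_mul_le_mul_left h9 hc0
    norm_num at h8 ⊢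
    linarith
  have h2 : S ≤ Real.log 2.0007 := by
    rw [Real.le_log_iff_exp_le (by norm_num)]
    exact hexp
  have h3 : Real.log 2.0007 ≤ Real.log 2 + 35 / 100000 := by
    have h4 : (2.0007 : ℝ) = 2 * (1 + 35 / 100000) := by norm_num
    rw [h4, Real.log_mul (by norm_num) (by norm_num)]
    have := Real.log_le_sub_one_of_pos (show (0 : ℝ) < 1 + 35 / 100000 by norm_num)
    linarith
  have h4 := Real.log_two_lt_d9
  have h5 : Real.log 2 + 35 / 100000 ≤ (6936 / 10000 : ℝ) := by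
    norm_num at h4 ⊢
    linarith
  linarith

/-- the sum over one level -/
theorem level_sum {z W : ℕ} {P : Finset ℕ}
    (hW : ∀ (m N : ℕ) (Q : Finset ℕ), W ≤ m → N < m ^ 2 →
      (∀ q ∈ Q, q.Prime ∧ m ≤ q ∧ q ≤ N) → ∑ q ∈ Q, 1 / (q : ℝ) ≤ 6936 / 10000)
    (hP : ∀ r ∈ P, r.Prime ∧ W ≤ r ∧ r ≤ z) (j : ℕ) :
    ∑ r ∈ PJ z P j, 1 / (r : ℝ) ≤ 6936 / 10000 := by
  classical
  rcases (PJ z P j).eq_empty_or_nonempty with h | h
  · rw [h, sum_empty]
    norm_num
  have hNm := max'_mem (PJ z P j) h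
  have hmm := min'_mem (PJ z P j) h
  set N := (PJ z P j).max' h with hN
  set m := (PJ z P j).min' h with hm
  have hmem : ∀ r ∈ PJ z P j, r.Prime ∧ W ≤ r ∧ r ≤ z ∧ lev z r = j := by
    intro r hr
    have h1 := mem_filter.mp hr
    exact ⟨(hP r h1.1).1, (hP r h1.1).2.1, (hP r h1.1).2.2, h1.2⟩
  obtain ⟨hN1, hN2, hN3, hN4⟩ := hmem N hNm
  obtain ⟨hm1, hm2, hm3, hm4⟩ := hmem m hmm
  have h1 := lev_pow_le (z := z) hN1.two_le hN3
  have h2 := lt_lev_pow (z := z) hm1.two_le
  rw [hN4] at h1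
  rw [hm4] at h2
  have h3 : N < m ^ 2 := by
    by_contra hcon
    push Not at hcon
    have h4 : (m ^ 2) ^ (2 ^ j) ≤ N ^ (2 ^ j) := Nat.pow_le_pow_left hcon _
    rw [← pow_mul, ← pow_succ'] at h4
    omega
  exact hW m N _ hm2 h3 fun q hq => ⟨(hmem q hq).1, min'_le _ q hq, le_max' _ q hq⟩

private theorem sharp_bern (G t : ℝ) (hG : 0 ≤ G) (ht : 0 ≤ t) (k : ℕ) :
    G ^ (k + 1) + (k + 1) * t * G ^ k ≤ (G + t) ^ (k + 1) := by
  induction k with
  | zero => simp
  | succ m ih =>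
    have h1 : (G + t) ^ (m + 1 + 1) = (G + t) * (G + t) ^ (m + 1) := by ring
    have h2 : (G + t) * (G ^ (m + 1) + (m + 1) * t * G ^ m) ≤ (G + t) * (G + t) ^ (m + 1) :=
      mul_le_mul_of_nonneg_left ih (add_nonneg hG ht)
    have h3 : (G + t) * (G ^ (m + 1) + (m + 1) * t * G ^ m) =
        G ^ (m + 1 + 1) + ((m : ℝ) + 1 + 1) * t * G ^ (m + 1) + (m + 1) * t ^ 2 * G ^ m := by ring
    have h4 : 0 ≤ ((m : ℝ) + 1) * t ^ 2 * G ^ m := by positivity
    push_cast
    rw [h1]
    linarith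

private theorem sharp_esymm (g : ℕ → ℝ) (P : Finset ℕ) (hg0 : ∀ i ∈ P, 0 ≤ g i) :
    ∀ k : ℕ, ∑ T ∈ P.powersetCard k, ∏ i ∈ T, g i ≤ (∑ i ∈ P, g i) ^ k / k.factorial := by
  induction P using Finset.induction_on with
  | empty =>
    intro k
    rcases k with _ | k
    · simp
    · have h : (∅ : Finset ℕ).powersetCard (k + 1) = ∅ := by
        rw [powersetCard_eq_empty]
        simp
      rw [h, sum_empty]
      positivity
  | insert x P hx ih =>
    intro k
    have hP : ∀ i ∈ P, 0 ≤ g i := fun i hi => hg0 i (mem_insert_of_mem hi)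
    have hx0 : 0 ≤ g x := hg0 x (mem_insert_self x P)
    have ih' := ih hP
    have hG : 0 ≤ ∑ i ∈ P, g i := sum_nonneg hP
    rcases k with _ | k
    · simp
    · rw [powersetCard_succ_insert hx, sum_union, sum_image]
      · have h1 : ∑ T ∈ P.powersetCard k, ∏ i ∈ insert x T, g i =
            g x * ∑ T ∈ P.powersetCard k, ∏ i ∈ T, g i := by
          rw [mul_sum]
          refine sum_congr rfl (fun T hT => ?_)
          rw [prod_insert (fun h => hx ((mem_powersetCard.1 hT).1 h))]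
        rw [h1, sum_insert hx]
        have h2 := ih' (k + 1)
        have h3 := mul_le_mul_of_nonneg_left (ih' k) hx0
        have h4 := sharp_bern (∑ i ∈ P, g i) (g x) hG hx0 k
        have hf : (0 : ℝ) < ((k + 1).factorial : ℝ) := by positivity
        have hf' : (0 : ℝ) < (k.factorial : ℝ) := by positivity
        have h5 : g x * ((∑ i ∈ P, g i) ^ k / (k.factorial : ℝ)) =
            ((k + 1) * g x * (∑ i ∈ P, g i) ^ k) / ((k + 1).factorial : ℝ) := by
          rw [Nat.factorial_succ]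
          push_cast
          field_simp
        rw [h5] at h3
        have h6 : (∑ i ∈ P, g i) ^ (k + 1) / ((k + 1).factorial : ℝ) +
            ((k + 1) * g x * (∑ i ∈ P, g i) ^ k) / ((k + 1).factorial : ℝ) ≤
            (g x + ∑ i ∈ P, g i) ^ (k + 1) / ((k + 1).factorial : ℝ) := by
          rw [← add_div]
          apply div_le_div_of_nonneg_right _ hf.le
          rw [add_comm (g x)]
          exact h4
        linarith
      · intro S hS T hT hST
        have hS' : x ∉ S := fun h => hx ((mem_powersetCard.1 hS).1 h)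
        have hT' : x ∉ T := fun h => hx ((mem_powersetCard.1 hT).1 h)
        rw [← erase_insert hS', ← erase_insert hT']
        exact congrArg (fun U => U.erase x) hST
      · rw [disjoint_left]
        intro T hT hT'
        obtain ⟨U, _, rfl⟩ := mem_image.1 hT'
        exact hx ((mem_powersetCard.1 hT).1 (mem_insert_self x U))

/-- the error of level `j`, relative to the product -/
noncomputable def eta2 (j : ℕ) : ℝ := 18 / 100 * (1 / 20) ^ j

private theorem eta2_nonneg (j : ℕ) : 0 ≤ eta2 j := by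
  unfold eta2
  positivity

private theorem sharp_num (j : ℕ) :
    (1388 / 1000 : ℝ) ^ (2 * (2 + j) + 1) / ((2 * (2 + j) + 1).factorial : ℝ) ≤
      436 / 10000 * (1 / 20) ^ j := by
  induction j with
  | zero => norm_num [Nat.factorial]
  | succ j ih =>
    have h1 : 2 * (2 + (j + 1)) + 1 = 2 * (2 + j) + 1 + 1 + 1 := by ring
    rw [h1, Nat.factorial_succ, Nat.factorial_succ]
    set n := 2 * (2 + j) + 1 with hn
    have hn5 : (5 : ℝ) ≤ n := by
      have : 5 ≤ n := by omega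
      exact_mod_cast this
    have hf : (0 : ℝ) < (n.factorial : ℝ) := by positivity
    have h2 : (1388 / 1000 : ℝ) ^ (n + 1 + 1) / (((n + 1 + 1) * ((n + 1) * n.factorial) : ℕ) : ℝ) =
        (1388 / 1000 : ℝ) ^ n / (n.factorial : ℝ) *
          ((1388 / 1000) ^ 2 / (((n : ℝ) + 2) * ((n : ℝ) + 1))) := by
      push_cast
      rw [pow_succ, pow_succ]
      field_simp
      ring
    have h3 : (1388 / 1000 : ℝ) ^ 2 / (((n : ℝ) + 2) * ((n : ℝ) + 1)) ≤ 1 / 20 := by
      rw [div_le_div_iff₀ (by positivity) (by norm_num)]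
      nlinarith
    have h4 : (436 / 10000 : ℝ) * (1 / 20) ^ (j + 1) = 436 / 10000 * (1 / 20) ^ j * (1 / 20) := by
      rw [pow_succ, ← mul_assoc]
    rw [h2, h4]
    exact mul_le_mul ih h3 (by positivity) (by positivity)

private theorem exp_139 : Real.exp (139 / 100) ≤ 4128 / 1000 := by
  have h1 : Real.exp (13 / 100) ≤ 1 / (87 / 100) := by
    rw [le_div_iff₀ (by norm_num)]
    have h2 := Real.add_one_le_exp (-(13 / 100 : ℝ))
    have h3 : Real.exp (13 / 100) * Real.exp (-(13 / 100)) = 1 := by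
      rw [← Real.exp_add]
      norm_num
    nlinarith [Real.exp_pos (13 / 100)]
  have h4 : Real.exp (139 / 100) = Real.exp 1 * Real.exp (13 / 100) ^ 3 := by
    rw [← Real.exp_nat_mul, ← Real.exp_add]
    norm_num
  have h5 := Real.exp_one_lt_d9
  have h6 : Real.exp (13 / 100) ^ 3 ≤ (1 / (87 / 100)) ^ 3 :=
    pow_le_pow_left₀ (Real.exp_pos _).le h1 3
  rw [h4]
  calc Real.exp 1 * Real.exp (13 / 100) ^ 3 ≤ 2.7182818286 * (1 / (87 / 100)) ^ 3 :=
        mul_le_mul h5.le h6 (by positivity) (by norm_num)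
    _ ≤ _ := by norm_num

/-- one level -/
theorem level2 {z W : ℕ} {P : Finset ℕ}
    (hW : ∀ (m N : ℕ) (Q : Finset ℕ), W ≤ m → N < m ^ 2 →
      (∀ q ∈ Q, q.Prime ∧ m ≤ q ∧ q ≤ N) → ∑ q ∈ Q, 1 / (q : ℝ) ≤ 6936 / 10000)
    (hW2 : 20001 ≤ W) (hP : ∀ r ∈ P, r.Prime ∧ W ≤ r ∧ r ≤ z) (g : ℕ → ℝ)
    (hg : ∀ q ∈ P, 0 ≤ g q ∧ g q ≤ 2 / ((q : ℝ) - 1)) (j : ℕ) :
    0 < VV z P g j ∧ VV z P g j ≤ TT z 2 P g j ∧ TT z 2 P g j ≤ VV z P g j * (1 + eta2 j) ∧
      0 ≤ ET z 2 P g j ∧ ET z 2 P g j ≤ VV z P g j * eta2 j := by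
  classical
  have hsub : ∀ q ∈ PJ z P j, q ∈ P := fun q hq => (mem_filter.mp hq).1
  have hq0 : ∀ q ∈ P, (20001 : ℝ) ≤ q := by
    intro q hq
    exact_mod_cast hW2.trans (hP q hq).2.1
  have hg' : ∀ q ∈ P, g q ≤ 2 * (1 + 1 / 10000) * (1 / (q : ℝ)) := by
    intro q hq
    refine (hg q hq).2.trans ?_
    have h1 := hq0 q hq
    rw [mul_one_div, div_le_div_iff₀ (by linarith) (by linarith)]
    nlinarith
  have hgs : ∀ q ∈ P, g q ≤ 1 / 2000 := by
    intro q hq
    refine (hg' q hq).trans ?_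
    have h1 := hq0 q hq
    rw [mul_one_div, div_le_div_iff₀ (by linarith) (by norm_num)]
    linarith
  have hG : ∑ r ∈ PJ z P j, g r ≤ 1388 / 1000 := by
    refine (sum_le_sum fun r hr => hg' r (hsub r hr)).trans ?_
    rw [← mul_sum]
    have := level_sum hW hP j
    have h2 := mul_le_mul_of_nonneg_left this (show (0 : ℝ) ≤ 2 * (1 + 1 / 10000) by norm_num)
    refine h2.trans ?_
    norm_num
  have hG0 : 0 ≤ ∑ r ∈ PJ z P j, g r := sum_nonneg fun r hr => (hg r (hsub r hr)).1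
  have hV : Real.exp (-(139 / 100)) ≤ VV z P g j := by
    unfold VV
    calc Real.exp (-(139 / 100)) ≤ Real.exp (∑ r ∈ PJ z P j, (-(1001 / 1000) * g r)) := by
          rw [← mul_sum]
          exact Real.exp_le_exp.mpr (by linarith)
      _ = ∏ r ∈ PJ z P j, Real.exp (-(1001 / 1000) * g r) := Real.exp_sum _ _
      _ ≤ ∏ r ∈ PJ z P j, (1 - g r) := by
          refine prod_le_prod (fun _ _ => (Real.exp_pos _).le) fun r hr => ?_
          have h0 := (hg r (hsub r hr)).1
          have h1 := hgs r (hsub r hr)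
          have h2 : 1 + 1001 / 1000 * g r ≤ Real.exp (1001 / 1000 * g r) := by
            have := Real.add_one_le_exp (1001 / 1000 * g r)
            linarith
          have h3 : Real.exp (-(1001 / 1000) * g r) ≤ 1 / (1 + 1001 / 1000 * g r) := by
            rw [show -(1001 / 1000) * g r = -(1001 / 1000 * g r) by ring, Real.exp_neg, ← one_div]
            exact one_div_le_one_div_of_le (by positivity) h2
          refine h3.trans ?_
          rw [div_le_iff₀ (by positivity)]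
          nlinarith
  have hVpos : 0 < VV z P g j := lt_of_lt_of_le (Real.exp_pos _) hV
  obtain ⟨hb1, hb2⟩ := bern (PJ z P j) g
    (fun q hq => ⟨(hg q (hsub q hq)).1, by linarith [hgs q (hsub q hq)]⟩) (mJ 2 j) (even_mJ 2 j)
  have hT : TT z 2 P g j = ∑ d ∈ (PJ z P j).powerset with d.card ≤ mJ 2 j,
      ((-1 : ℝ) ^ d.card * ∏ r ∈ d, g r) := sum_cm z 2 P j _
  have hE : ET z 2 P g j = ∑ d ∈ (PJ z P j).powerset with d.card = mJ 2 j + 1,
      ∏ r ∈ d, g r := sum_ct z 2 P j _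
  have he : ET z 2 P g j ≤ VV z P g j * eta2 j := by
    rw [hE]
    have h1 : (PJ z P j).powerset.filter (fun d => d.card = mJ 2 j + 1) =
        (PJ z P j).powersetCard (mJ 2 j + 1) := by
      ext d
      rw [mem_filter, mem_powerset, mem_powersetCard]
    rw [h1]
    refine (sharp_esymm g _ (fun r hr => (hg r (hsub r hr)).1) _).trans ?_
    have h2 : (∑ i ∈ PJ z P j, g i) ^ (mJ 2 j + 1) / ((mJ 2 j + 1).factorial : ℝ) ≤
        (1388 / 1000 : ℝ) ^ (mJ 2 j + 1) / ((mJ 2 j + 1).factorial : ℝ) := by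
      refine div_le_div_of_nonneg_right ?_ (by positivity)
      exact pow_le_pow_left₀ hG0 hG _
    refine h2.trans ((sharp_num j).trans ?_)
    have h3 : 436 / 10000 ≤ VV z P g j * (18 / 100) := by
      have h4 : 1 ≤ Real.exp (-(139 / 100)) * (4128 / 1000) := by
        have h5 : Real.exp (-(139 / 100)) * Real.exp (139 / 100) = 1 := by
          rw [← Real.exp_add]
          norm_num
        calc (1 : ℝ) = Real.exp (-(139 / 100)) * Real.exp (139 / 100) := h5.symm
          _ ≤ _ := mul_le_mul_of_nonneg_left exp_139 (Real.exp_pos _).le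
      nlinarith
    unfold eta2
    rw [← mul_assoc]
    exact mul_le_mul_of_nonneg_right h3 (by positivity)
  refine ⟨hVpos, ?_, ?_, ?_, he⟩
  · rw [hT]; exact hb1
  · rw [hT]
    rw [hE] at he
    have : VV z P g j = ∏ q ∈ PJ z P j, (1 - g q) := rfl
    rw [this] at he ⊢
    linarith
  · rw [hE]
    refine sum_nonneg fun d hd => prod_nonneg fun r hr => ?_
    exact (hg r (hsub r (mem_powerset.mp (mem_filter.mp hd).1 hr))).1

private theorem sum_eta2 (J : ℕ) : ∑ j : Fin J, eta2 j ≤ 19 / 100 := by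
  have h : ∀ J : ℕ, ∑ j ∈ range J, eta2 j = 18 / 95 * (1 - (1 / 20) ^ J) := by
    intro J
    induction J with
    | zero => simp
    | succ n ih =>
      rw [sum_range_succ, ih]
      unfold eta2
      ring
  rw [← Finset.sum_range (fun j => eta2 j), h]
  have h1 : (0 : ℝ) ≤ (1 / 20) ^ J := by positivity
  nlinarith

private theorem exp_019 : Real.exp (19 / 100) ≤ 100 / 81 := by
  rw [le_div_iff₀ (by norm_num)]
  have h2 := Real.add_one_le_exp (-(19 / 100 : ℝ))
  have h3 : Real.exp (19 / 100) * Real.exp (-(19 / 100)) = 1 := by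
    rw [← Real.exp_add]
    norm_num
  nlinarith [Real.exp_pos (19 / 100)]

private theorem sh_expand {z b : ℕ} {P : Finset ℕ} (g : ℕ → ℝ) (c : Fin (NJ z) → Finset ℕ → ℝ) :
    ∏ j : Fin (NJ z), ∑ d ∈ fam z b P j, (c j d * ∏ r ∈ d, g r) =
      ∑ E ∈ fa z b P, (∏ j, c j (E j)) * ∏ q ∈ un E, g q := by
  classical
  rw [Finset.prod_univ_sum]
  refine Finset.sum_congr rfl fun E hE => ?_
  rw [Finset.prod_mul_distrib, ← prod_un E hE g]

private theorem sh_prod {z : ℕ} {P : Finset ℕ} (hP : ∀ r ∈ P, r.Prime ∧ r ≤ z) (g : ℕ → ℝ) :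
    ∏ q ∈ P, (1 - g q) = ∏ j : Fin (NJ z), VV z P g j := by
  rw [prod_PJ hP (fun r => 1 - g r)]
  rfl

/-- the main term of the lower bound sieve -/
theorem main_low2 {z W : ℕ} {P : Finset ℕ}
    (hW : ∀ (m N : ℕ) (Q : Finset ℕ), W ≤ m → N < m ^ 2 →
      (∀ q ∈ Q, q.Prime ∧ m ≤ q ∧ q ≤ N) → ∑ q ∈ Q, 1 / (q : ℝ) ≤ 6936 / 10000)
    (hW2 : 20001 ≤ W) (hP : ∀ r ∈ P, r.Prime ∧ W ≤ r ∧ r ≤ z) (g : ℕ → ℝ)
    (hg : ∀ q ∈ P, 0 ≤ g q ∧ g q ≤ 2 / ((q : ℝ) - 1)) :
    1 / 2 * ∏ q ∈ P, (1 - g q) ≤ ∑ E ∈ fa z 2 P, ww 2 E * ∏ q ∈ un E, g q := by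
  classical
  have hlev := fun j : Fin (NJ z) => level2 hW hW2 hP g hg j
  have hT : ∏ j : Fin (NJ z), TT z 2 P g j =
      ∑ E ∈ fa z 2 P, (∏ j : Fin (NJ z), cm 2 j (E j)) * ∏ q ∈ un E, g q :=
    sh_expand g (fun j d => cm 2 j d)
  have hE : ∀ l : Fin (NJ z), ET z 2 P g l * ∏ j ∈ Finset.univ.erase l, TT z 2 P g j =
      ∑ E ∈ fa z 2 P, (∏ j, cl 2 l j (E j)) * ∏ q ∈ un E, g q := by
    intro l
    rw [← sh_expand g (cl 2 l)]
    rw [← Finset.mul_prod_erase Finset.univ _ (Finset.mem_univ l)]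
    congr 1
    · unfold ET cl
      simp only [if_true]
    · refine Finset.prod_congr rfl fun j hj => ?_
      have : j ≠ l := Finset.ne_of_mem_erase hj
      unfold TT cl
      simp only [if_neg this]
  have h1 : ∑ E ∈ fa z 2 P, ww 2 E * ∏ q ∈ un E, g q =
      ∏ j : Fin (NJ z), TT z 2 P g j -
        ∑ l : Fin (NJ z), ET z 2 P g l * ∏ j ∈ Finset.univ.erase l, TT z 2 P g j := by
    rw [hT]
    simp_rw [hE]
    rw [Finset.sum_comm, ← Finset.sum_sub_distrib]
    refine Finset.sum_congr rfl fun E _ => ?_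
    unfold ww
    rw [← Finset.sum_mul]
    ring
  have h5 : ∏ j : Fin (NJ z), VV z P g j ≤ ∏ j : Fin (NJ z), TT z 2 P g j :=
    Finset.prod_le_prod (fun j _ => (hlev j).1.le) fun j _ => (hlev j).2.1
  have h3 : ∀ l : Fin (NJ z), ET z 2 P g l * ∏ j ∈ Finset.univ.erase l, TT z 2 P g j ≤
      eta2 l * (100 / 81 * ∏ j : Fin (NJ z), VV z P g j) := by
    intro l
    calc ET z 2 P g l * ∏ j ∈ Finset.univ.erase l, TT z 2 P g j
        ≤ (VV z P g l * eta2 l) * ∏ j ∈ Finset.univ.erase l, (VV z P g j * (1 + eta2 j)) := by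
          refine mul_le_mul (hlev l).2.2.2.2 ?_ ?_ ?_
          · exact Finset.prod_le_prod (fun j _ => (hlev j).1.le.trans (hlev j).2.1)
              fun j _ => (hlev j).2.2.1
          · exact Finset.prod_nonneg fun j _ => (hlev j).1.le.trans (hlev j).2.1
          · exact mul_nonneg (hlev l).1.le (eta2_nonneg l)
      _ = (VV z P g l * eta2 l) * ((∏ j ∈ Finset.univ.erase l, VV z P g j) *
            ∏ j ∈ Finset.univ.erase l, (1 + eta2 j)) := by rw [Finset.prod_mul_distrib]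
      _ ≤ (VV z P g l * eta2 l) * ((∏ j ∈ Finset.univ.erase l, VV z P g j) * (100 / 81)) := by
          refine mul_le_mul_of_nonneg_left ?_ (mul_nonneg (hlev l).1.le (eta2_nonneg l))
          refine mul_le_mul_of_nonneg_left ?_ (Finset.prod_nonneg fun j _ => (hlev j).1.le)
          calc ∏ j ∈ Finset.univ.erase l, (1 + eta2 j)
              ≤ ∏ j ∈ Finset.univ.erase l, Real.exp (eta2 j) := by
                refine Finset.prod_le_prod (fun j _ => by have := eta2_nonneg j; linarith)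
                  fun j _ => ?_
                have := Real.add_one_le_exp (eta2 j)
                linarith
            _ = Real.exp (∑ j ∈ Finset.univ.erase l, eta2 j) := (Real.exp_sum _ _).symm
            _ ≤ Real.exp (19 / 100) := by
                refine Real.exp_le_exp.mpr ?_
                refine (Finset.sum_le_sum_of_subset_of_nonneg (Finset.erase_subset l Finset.univ)
                  (fun j _ _ => eta2_nonneg j)).trans ?_
                exact sum_eta2 (NJ z)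
            _ ≤ _ := exp_019
      _ = eta2 l * (100 / 81 * (VV z P g l * ∏ j ∈ Finset.univ.erase l, VV z P g j)) := by
          ring
      _ = _ := by
          rw [Finset.mul_prod_erase Finset.univ (fun j : Fin (NJ z) => VV z P g j) (Finset.mem_univ l)]
  have hV0 : 0 ≤ ∏ j : Fin (NJ z), VV z P g j := Finset.prod_nonneg fun j _ => (hlev j).1.le
  have h6 : ∑ l : Fin (NJ z), ET z 2 P g l * ∏ j ∈ Finset.univ.erase l, TT z 2 P g j ≤
      19 / 81 * ∏ j : Fin (NJ z), VV z P g j := by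
    refine (Finset.sum_le_sum fun l _ => h3 l).trans ?_
    rw [← Finset.sum_mul]
    have h7 := mul_le_mul_of_nonneg_right (sum_eta2 (NJ z))
      (mul_nonneg (show (0 : ℝ) ≤ 100 / 81 by norm_num) hV0)
    refine h7.trans (le_of_eq ?_)
    ring
  rw [h1, sh_prod (fun r hr => ⟨(hP r hr).1, (hP r hr).2.2⟩) g]
  linarith

/-- a nonzero weight: at most one level is full -/
theorem ww_ne {z : ℕ} {E : Fin (NJ z) → Finset ℕ} (h : ww 2 E ≠ 0) :
    ∃ l : Fin (NJ z), ∀ j : Fin (NJ z), (E j).card ≤ mJ 2 j + if j = l then 1 else 0 := by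
  classical
  have hNJ : 0 < NJ z := by
    unfold NJ
    omega
  by_cases h1 : ∏ j : Fin (NJ z), cm 2 j (E j) = 0
  · have h2 : ∑ l : Fin (NJ z), ∏ j : Fin (NJ z), cl 2 l j (E j) ≠ 0 := by
      intro h3
      apply h
      unfold ww
      rw [h1, h3, sub_zero]
    obtain ⟨l, -, hl⟩ := exists_ne_zero_of_sum_ne_zero h2
    refine ⟨l, fun j => ?_⟩
    have h3 := prod_ne_zero_iff.1 hl j (mem_univ j)
    unfold cl at h3
    by_cases hjl : j = l
    · rw [if_pos hjl] at h3 ⊢
      unfold ct at h3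
      by_contra h4
      apply h3
      rw [if_neg (by omega)]
    · rw [if_neg hjl] at h3 ⊢
      unfold cm at h3
      by_contra h4
      apply h3
      rw [if_neg (by omega)]
  · refine ⟨⟨0, hNJ⟩, fun j => ?_⟩
    have h3 := prod_ne_zero_iff.1 h1 j (mem_univ j)
    unfold cm at h3
    by_contra h4
    apply h3
    rw [if_neg]
    split_ifs at h4 <;> omega

private theorem sum_pw (J : ℕ) : ∑ j ∈ range J, (2 * (2 + (j : ℝ))) / 2 ^ j ≤ 12 := by
  have h : ∀ J : ℕ, ∑ j ∈ range J, (2 * (2 + (j : ℝ))) / 2 ^ j = 12 - (4 * J + 12) / 2 ^ J := by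
    intro J
    induction J with
    | zero => norm_num
    | succ n ih =>
      rw [Finset.sum_range_succ, ih, pow_succ]
      push_cast
      field_simp
      ring
  rw [h]
  have : 0 ≤ (4 * (J : ℝ) + 12) / 2 ^ J := by positivity
  linarith

/-- the level of the sieve is `z ^ 13` -/
theorem prod_un_13 {z : ℕ} {P : Finset ℕ} (hP : ∀ r ∈ P, r.Prime ∧ r ≤ z) (hz : 2 ≤ z)
    (E : Fin (NJ z) → Finset ℕ) (hE : E ∈ fa z 2 P) (l : Fin (NJ z))
    (hl : ∀ j : Fin (NJ z), (E j).card ≤ mJ 2 j + if j = l then 1 else 0) :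
    ∏ r ∈ un E, r ≤ z ^ 13 := by
  classical
  have hzr : (2 : ℝ) ≤ z := by exact_mod_cast hz
  have hlz : 0 < Real.log z := Real.log_pos (by linarith)
  have hpos : (0 : ℝ) < ((∏ r ∈ un E, r : ℕ) : ℝ) := by
    have : 0 < ∏ r ∈ un E, r := Finset.prod_pos fun r hr => (hP r (un_sub E hE hr)).1.pos
    exact_mod_cast this
  have hlog : Real.log ((∏ r ∈ un E, r : ℕ) : ℝ) ≤ (13 : ℕ) * Real.log z := by
    push_cast
    rw [Real.log_prod (fun r hr => by
      have := (hP r (un_sub E hE hr)).1.pos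
      positivity)]
    rw [un, Finset.sum_biUnion (un_disj E hE)]
    have h1 : ∀ j : Fin (NJ z), ∑ r ∈ E j, Real.log r ≤
        Real.log z * ((2 * (2 + ((j : ℕ) : ℝ))) / 2 ^ (j : ℕ)) +
          if j = l then Real.log z else 0 := by
      intro j
      have hDj := Fintype.mem_piFinset.mp hE j
      have h2 : ∀ r ∈ E j, Real.log r ≤ Real.log z / 2 ^ (j : ℕ) := by
        intro r hr
        have hr' := mem_filter.mp (mem_fam_sub hDj hr)
        have h3 := hP r hr'.1
        have h4 := lev_pow_le h3.1.two_le h3.2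
        rw [hr'.2] at h4
        rw [le_div_iff₀ (by positivity)]
        have h5 : Real.log (((r ^ (2 ^ (j : ℕ)) : ℕ)) : ℝ) ≤ Real.log z :=
          Real.log_le_log (by have := h3.1.pos; positivity) (by exact_mod_cast h4)
        push_cast at h5
        rw [Real.log_pow] at h5
        push_cast at h5
        linarith
      have h6 : ((E j).card : ℝ) ≤ 2 * (2 + ((j : ℕ) : ℝ)) + if j = l then 1 else 0 := by
        have h7 := hl j
        unfold mJ at h7
        have h8 : ((E j).card : ℝ) ≤ ((2 * (2 + (j : ℕ)) + if j = l then 1 else 0 : ℕ) : ℝ) := by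
          exact_mod_cast h7
        refine h8.trans (le_of_eq ?_)
        push_cast
        rfl
      have h9 : Real.log z / 2 ^ (j : ℕ) ≤ Real.log z := by
        refine div_le_self hlz.le ?_
        exact one_le_pow₀ (by norm_num)
      calc ∑ r ∈ E j, Real.log r ≤ ∑ r ∈ E j, Real.log z / 2 ^ (j : ℕ) := Finset.sum_le_sum h2
        _ = (E j).card * (Real.log z / 2 ^ (j : ℕ)) := by rw [Finset.sum_const, nsmul_eq_mul]
        _ ≤ (2 * (2 + ((j : ℕ) : ℝ)) + if j = l then 1 else 0) * (Real.log z / 2 ^ (j : ℕ)) :=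
            mul_le_mul_of_nonneg_right h6 (by positivity)
        _ ≤ _ := by
            rw [add_mul]
            refine add_le_add (le_of_eq (by ring)) ?_
            split_ifs
            · rw [one_mul]
              exact h9
            · rw [zero_mul]
    refine (Finset.sum_le_sum fun j _ => h1 j).trans ?_
    rw [sum_add_distrib, ← mul_sum, Finset.sum_ite_eq' univ l, if_pos (mem_univ l)]
    have h8 : ∑ j : Fin (NJ z), (2 * (2 + ((j : ℕ) : ℝ))) / 2 ^ (j : ℕ) =
        ∑ j ∈ range (NJ z), (2 * (2 + (j : ℝ))) / 2 ^ j :=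
      (Finset.sum_range (fun j => (2 * (2 + (j : ℝ))) / 2 ^ j)).symm
    rw [h8]
    have h9 := mul_le_mul_of_nonneg_left (sum_pw (NJ z)) hlz.le
    linarith
  have h10 := Real.exp_le_exp.mpr hlog
  rw [Real.exp_log hpos, Real.exp_nat_mul, Real.exp_log (by linarith)] at h10
  exact_mod_cast h10

/-- **The lower bound sieve of dimension 2 for large primes, level `y ^ 13`.** -/
theorem fl2 : ∃ w : ℕ, ∀ y : ℕ, 2 ≤ y → ∀ Q : Finset ℕ, (∀ q ∈ Q, q.Prime ∧ w ≤ q ∧ q ≤ y) →
    ∃ (D : Finset (Finset ℕ)) (cn : Finset ℕ → ℝ),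
      (∀ d ∈ D, d ⊆ Q ∧ ∏ q ∈ d, q ≤ y ^ 13) ∧
      (∀ d ∈ D, |cn d| ≤ 2 + 2 * Real.log y) ∧
      (∀ (Ω : ℕ → Finset ℕ) (x : ℕ),
        Lm D cn Ω x ≤ if ∀ q ∈ Q, x % q ∉ Ω q then (1 : ℝ) else 0) ∧
      ∀ g : ℕ → ℝ, (∀ q ∈ Q, 0 ≤ g q ∧ g q ≤ 2 / ((q : ℝ) - 1)) →
        1 / 2 * ∏ q ∈ Q, (1 - g q) ≤ Gm D cn g := by
  classical
  obtain ⟨W0, -, hW0⟩ := mertens_sharp
  obtain ⟨W, hWdef⟩ : ∃ W : ℕ, W = max W0 20001 := ⟨_, rfl⟩
  have hW : ∀ (m N : ℕ) (Q : Finset ℕ), W ≤ m → N < m ^ 2 →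
      (∀ q ∈ Q, q.Prime ∧ m ≤ q ∧ q ≤ N) → ∑ q ∈ Q, 1 / (q : ℝ) ≤ 6936 / 10000 :=
    fun m N Q hm => hW0 m N Q (by omega)
  have hW2 : 20001 ≤ W := by omega
  refine ⟨W, fun y hy Q hQ => ?_⟩
  have hP : ∀ r ∈ Q, r.Prime ∧ r ≤ y := fun r hr => ⟨(hQ r hr).1, (hQ r hr).2.2⟩
  have hlog : (1 : ℝ) + NJ y ≤ 2 + 2 * Real.log y := NJ_le_log y hy
  set cn : Finset ℕ → ℝ := lamf y 2 Q (ww 2) with hcn
  have hdrop : ∀ F : Finset ℕ → ℝ,
      ∑ d ∈ ((fa y 2 Q).image un).filter (fun d => cn d ≠ 0), cn d * F d =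
        ∑ d ∈ (fa y 2 Q).image un, cn d * F d := by
    intro F
    refine sum_filter_of_ne fun d _ h => ?_
    exact left_ne_zero_of_mul h
  refine ⟨((fa y 2 Q).image un).filter (fun d => cn d ≠ 0), cn, ?_, ?_, ?_, ?_⟩
  · intro d hd
    rw [mem_filter] at hd
    obtain ⟨hd1, hd2⟩ := hd
    have h1 : ∑ E ∈ fa y 2 Q with un E = d, ww 2 E ≠ 0 := hd2
    obtain ⟨E, hE, hE2⟩ := exists_ne_zero_of_sum_ne_zero h1
    rw [mem_filter] at hE
    obtain ⟨hE1, rfl⟩ := hE
    refine ⟨un_sub E hE1, ?_⟩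
    obtain ⟨l, hl⟩ := ww_ne hE2
    exact prod_un_13 hP hy E hE1 l hl
  · intro d _
    refine le_trans ?_ hlog
    exact abs_lamf_le hP _ _ (by positivity) (fun E => abs_ww_le E) d
  · intro Ω x
    have hind := ind_iff hP Ω x
    have h1 : Lm (((fa y 2 Q).image un).filter (fun d => cn d ≠ 0)) cn Ω x =
        Lm ((fa y 2 Q).image un) cn Ω x := hdrop _
    rw [h1, Lm_lamf hP]
    refine (sum_ww_le hP _).trans (le_of_eq ?_)
    by_cases h : ∀ q ∈ Q, x % q ∉ Ω q
    · rw [if_pos h, if_pos (hind.mp h)]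
    · rw [if_neg h, if_neg (fun h2 => h (hind.mpr h2))]
  · intro g hg
    have h1 : Gm (((fa y 2 Q).image un).filter (fun d => cn d ≠ 0)) cn g =
        Gm ((fa y 2 Q).image un) cn g := hdrop _
    have h2 : Gm ((fa y 2 Q).image un) cn g = ∑ E ∈ fa y 2 Q, ww 2 E * ∏ q ∈ un E, g q := by
      unfold Gm
      exact lamf_push y 2 Q (ww 2) (fun d => ∏ q ∈ d, g q)
    rw [h1, h2]
    exact main_low2 hW hW2 hQ g hg

end Pool.Agent.Lib.MP_d06d57_nt
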