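import Pool.Agent.Lib.MP_d06d57_nt.Sharp

/-!
# MP_d06d57_nt, Sharp2: sieves of dimension 2 with constants near 1

`flow`: lower bound, truncation at `2(3 + j)` primes, level `y^17`, constant `0.99`;
`fup`: upper bound, truncation at `2(2 + j)` primes, level `y^12`, constant `1.1834`.
Proofs as in Sharp.
-/

set_option autoImplicit false

open Finset

namespace Pool.Agent.Lib.MP_d06d57_nt

open Pool.Agent.Lib.GT Pool.Agent.Lib.RG Pool.Agent.Lib.MTR

private theorem s2_bern (G t : ℝ) (hG : 0 ≤ G) (ht : 0 ≤ t) (k : ℕ) :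
    G ^ (k + 1) + (k + 1) * t * G ^ k ≤ (G + t) ^ (k + 1) := by
  induction k with
  | zero => simp
  | succ m ih =>
    have h1 : (G + t) ^ (m + 1 + 1) = (G + t) * (G + t) ^ (m + 1) := by ring
    have h2 : (G + t) * (G ^ (m + 1) + (m + 1) * t * G ^ m) ≤ (G + t) * (G + t) ^ (m + 1) :=
      mul_le_mul_of_nonneg_left ih (add_nonneg hG ht)
    have h3 : (G + t) * (G ^ (m + 1) + (m + 1) * t * G ^ m) =
        G ^ (m + 1 + 1) + ((m : ℝ) + 1 + 1) * t * G ^ (m + 1) + (m + 1) * t ^ 2 * G ^ m := by ring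
    have h4 : 0 ≤ ((m : ℝ) + 1) * t ^ 2 * G ^ m := by positivity
    push_cast
    rw [h1]
    linarith

private theorem s2_esymm (g : ℕ → ℝ) (P : Finset ℕ) (hg0 : ∀ i ∈ P, 0 ≤ g i) :
    ∀ k : ℕ, ∑ T ∈ P.powersetCard k, ∏ i ∈ T, g i ≤ (∑ i ∈ P, g i) ^ k / k.factorial := by
  induction P using Finset.induction_on with
  | empty =>
    intro k
    rcases k with _ | k
    · simp
    · have h : (∅ : Finset ℕ).powersetCard (k + 1) = ∅ := by
        rw [powersetCard_eq_empty]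
        simp
      rw [h, sum_empty]
      positivity
  | insert x P hx ih =>
    intro k
    have hP : ∀ i ∈ P, 0 ≤ g i := fun i hi => hg0 i (mem_insert_of_mem hi)
    have hx0 : 0 ≤ g x := hg0 x (mem_insert_self x P)
    have ih' := ih hP
    have hG : 0 ≤ ∑ i ∈ P, g i := sum_nonneg hP
    rcases k with _ | k
    · simp
    · rw [powersetCard_succ_insert hx, sum_union, sum_image]
      · have h1 : ∑ T ∈ P.powersetCard k, ∏ i ∈ insert x T, g i =
            g x * ∑ T ∈ P.powersetCard k, ∏ i ∈ T, g i := by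
          rw [mul_sum]
          refine sum_congr rfl (fun T hT => ?_)
          rw [prod_insert (fun h => hx ((mem_powersetCard.1 hT).1 h))]
        rw [h1, sum_insert hx]
        have h2 := ih' (k + 1)
        have h3 := mul_le_mul_of_nonneg_left (ih' k) hx0
        have h4 := s2_bern (∑ i ∈ P, g i) (g x) hG hx0 k
        have hf : (0 : ℝ) < ((k + 1).factorial : ℝ) := by positivity
        have hf' : (0 : ℝ) < (k.factorial : ℝ) := by positivity
        have h5 : g x * ((∑ i ∈ P, g i) ^ k / (k.factorial : ℝ)) =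
            ((k + 1) * g x * (∑ i ∈ P, g i) ^ k) / ((k + 1).factorial : ℝ) := by
          rw [Nat.factorial_succ]
          push_cast
          field_simp
        rw [h5] at h3
        have h6 : (∑ i ∈ P, g i) ^ (k + 1) / ((k + 1).factorial : ℝ) +
            ((k + 1) * g x * (∑ i ∈ P, g i) ^ k) / ((k + 1).factorial : ℝ) ≤
            (g x + ∑ i ∈ P, g i) ^ (k + 1) / ((k + 1).factorial : ℝ) := by
          rw [← add_div]
          apply div_le_div_of_nonneg_right _ hf.le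
          rw [add_comm (g x)]
          exact h4
        linarith
      · intro S hS T hT hST
        have hS' : x ∉ S := fun h => hx ((mem_powersetCard.1 hS).1 h)
        have hT' : x ∉ T := fun h => hx ((mem_powersetCard.1 hT).1 h)
        rw [← erase_insert hS', ← erase_insert hT']
        exact congrArg (fun U => U.erase x) hST
      · rw [disjoint_left]
        intro T hT hT'
        obtain ⟨U, _, rfl⟩ := mem_image.1 hT'
        exact hx ((mem_powersetCard.1 hT).1 (mem_insert_self x U))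

/-- the error of level `j`, relative to the product -/
noncomputable def etb (e : ℝ) (j : ℕ) : ℝ := e * (1 / 20) ^ j

private theorem etb_nonneg {e : ℝ} (he : 0 ≤ e) (j : ℕ) : 0 ≤ etb e j := by
  unfold etb
  positivity

/-- the numerical condition on the truncation `b` and the error `e` -/
def NumOk (b : ℕ) (e : ℝ) : Prop :=
  (1388 / 1000 : ℝ) ^ (2 * b + 1) / ((2 * b + 1).factorial : ℝ) * (4018 / 1000) ≤ e

private theorem s2_num {b : ℕ} (hb : 2 ≤ b) {e : ℝ} (h : NumOk b e) (j : ℕ) :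
    (1388 / 1000 : ℝ) ^ (2 * (b + j) + 1) / ((2 * (b + j) + 1).factorial : ℝ) * (4018 / 1000) ≤
      e * (1 / 20) ^ j := by
  induction j with
  | zero =>
    rw [pow_zero, mul_one, add_zero]
    exact h
  | succ j ih =>
    have h1 : 2 * (b + (j + 1)) + 1 = 2 * (b + j) + 1 + 1 + 1 := by ring
    rw [h1, Nat.factorial_succ, Nat.factorial_succ]
    set n := 2 * (b + j) + 1 with hn
    have hn5 : (5 : ℝ) ≤ n := by
      have : 5 ≤ n := by omega
      exact_mod_cast this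
    have hf : (0 : ℝ) < (n.factorial : ℝ) := by positivity
    have h2 : (1388 / 1000 : ℝ) ^ (n + 1 + 1) / (((n + 1 + 1) * ((n + 1) * n.factorial) : ℕ) : ℝ) =
        (1388 / 1000 : ℝ) ^ n / (n.factorial : ℝ) *
          ((1388 / 1000) ^ 2 / (((n : ℝ) + 2) * ((n : ℝ) + 1))) := by
      push_cast
      rw [pow_succ, pow_succ]
      field_simp
      ring
    have h3 : (1388 / 1000 : ℝ) ^ 2 / (((n : ℝ) + 2) * ((n : ℝ) + 1)) ≤ 1 / 20 := by
      rw [div_le_div_iff₀ (by positivity) (by norm_num)]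
      nlinarith
    have h4 : e * (1 / 20) ^ (j + 1) = e * (1 / 20) ^ j * (1 / 20) := by
      rw [pow_succ, ← mul_assoc]
    rw [h2, h4]
    have h5 := mul_le_mul ih h3 (by positivity)
      (le_trans (by positivity : (0 : ℝ) ≤ (1388 / 1000 : ℝ) ^ n / (n.factorial : ℝ) * (4018 / 1000)) ih)
    linarith

private theorem exp_139' : Real.exp (139 / 100) ≤ 4018 / 1000 := by
  have h1 : Real.exp (39 / 10000) ≤ 1 / (9961 / 10000) := by
    rw [le_div_iff₀ (by norm_num)]
    have h2 := Real.add_one_le_exp (-(39 / 10000 : ℝ))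
    have h3 : Real.exp (39 / 10000) * Real.exp (-(39 / 10000)) = 1 := by
      rw [← Real.exp_add]
      norm_num
    nlinarith [Real.exp_pos (39 / 10000)]
  have h4 : Real.exp (139 / 100) = Real.exp 1 * Real.exp (39 / 10000) ^ 100 := by
    rw [← Real.exp_nat_mul, ← Real.exp_add]
    norm_num
  have h5 := Real.exp_one_lt_d9
  have h6 : Real.exp (39 / 10000) ^ 100 ≤ (1 / (9961 / 10000)) ^ 100 :=
    pow_le_pow_left₀ (Real.exp_pos _).le h1 100
  rw [h4]
  calc Real.exp 1 * Real.exp (39 / 10000) ^ 100 ≤ 2.7182818286 * (1 / (9961 / 10000)) ^ 100 :=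
        mul_le_mul h5.le h6 (by positivity) (by norm_num)
    _ ≤ _ := by norm_num

/-- one level -/
theorem levelb {b : ℕ} (hb : 2 ≤ b) {e : ℝ} (he : 0 ≤ e) (hnum : NumOk b e) {z W : ℕ} {P : Finset ℕ}
    (hW : ∀ (m N : ℕ) (Q : Finset ℕ), W ≤ m → N < m ^ 2 →
      (∀ q ∈ Q, q.Prime ∧ m ≤ q ∧ q ≤ N) → ∑ q ∈ Q, 1 / (q : ℝ) ≤ 6936 / 10000)
    (hW2 : 20001 ≤ W) (hP : ∀ r ∈ P, r.Prime ∧ W ≤ r ∧ r ≤ z) (g : ℕ → ℝ)
    (hg : ∀ q ∈ P, 0 ≤ g q ∧ g q ≤ 2 / ((q : ℝ) - 1)) (j : ℕ) :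
    0 < VV z P g j ∧ VV z P g j ≤ TT z b P g j ∧ TT z b P g j ≤ VV z P g j * (1 + etb e j) ∧
      0 ≤ ET z b P g j ∧ ET z b P g j ≤ VV z P g j * etb e j := by
  classical
  have hsub : ∀ q ∈ PJ z P j, q ∈ P := fun q hq => (mem_filter.mp hq).1
  have hq0 : ∀ q ∈ P, (20001 : ℝ) ≤ q := by
    intro q hq
    exact_mod_cast hW2.trans (hP q hq).2.1
  have hg' : ∀ q ∈ P, g q ≤ 2 * (1 + 1 / 10000) * (1 / (q : ℝ)) := by
    intro q hq
    refine (hg q hq).2.trans ?_
    have h1 := hq0 q hq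
    rw [mul_one_div, div_le_div_iff₀ (by linarith) (by linarith)]
    nlinarith
  have hgs : ∀ q ∈ P, g q ≤ 1 / 2000 := by
    intro q hq
    refine (hg' q hq).trans ?_
    have h1 := hq0 q hq
    rw [mul_one_div, div_le_div_iff₀ (by linarith) (by norm_num)]
    linarith
  have hG : ∑ r ∈ PJ z P j, g r ≤ 1388 / 1000 := by
    refine (sum_le_sum fun r hr => hg' r (hsub r hr)).trans ?_
    rw [← mul_sum]
    have := level_sum hW hP j
    have h2 := mul_le_mul_of_nonneg_left this (show (0 : ℝ) ≤ 2 * (1 + 1 / 10000) by norm_num)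
    refine h2.trans ?_
    norm_num
  have hG0 : 0 ≤ ∑ r ∈ PJ z P j, g r := sum_nonneg fun r hr => (hg r (hsub r hr)).1
  have hV : Real.exp (-(139 / 100)) ≤ VV z P g j := by
    unfold VV
    calc Real.exp (-(139 / 100)) ≤ Real.exp (∑ r ∈ PJ z P j, (-(1001 / 1000) * g r)) := by
          rw [← mul_sum]
          exact Real.exp_le_exp.mpr (by linarith)
      _ = ∏ r ∈ PJ z P j, Real.exp (-(1001 / 1000) * g r) := Real.exp_sum _ _
      _ ≤ ∏ r ∈ PJ z P j, (1 - g r) := by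
          refine prod_le_prod (fun _ _ => (Real.exp_pos _).le) fun r hr => ?_
          have h0 := (hg r (hsub r hr)).1
          have h1 := hgs r (hsub r hr)
          have h2 : 1 + 1001 / 1000 * g r ≤ Real.exp (1001 / 1000 * g r) := by
            have := Real.add_one_le_exp (1001 / 1000 * g r)
            linarith
          have h3 : Real.exp (-(1001 / 1000) * g r) ≤ 1 / (1 + 1001 / 1000 * g r) := by
            rw [show -(1001 / 1000) * g r = -(1001 / 1000 * g r) by ring, Real.exp_neg, ← one_div]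
            exact one_div_le_one_div_of_le (by positivity) h2
          refine h3.trans ?_
          rw [div_le_iff₀ (by positivity)]
          nlinarith
  have hVpos : 0 < VV z P g j := lt_of_lt_of_le (Real.exp_pos _) hV
  obtain ⟨hb1, hb2⟩ := bern (PJ z P j) g
    (fun q hq => ⟨(hg q (hsub q hq)).1, by linarith [hgs q (hsub q hq)]⟩) (mJ b j) (even_mJ b j)
  have hT : TT z b P g j = ∑ d ∈ (PJ z P j).powerset with d.card ≤ mJ b j,
      ((-1 : ℝ) ^ d.card * ∏ r ∈ d, g r) := sum_cm z b P j _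
  have hE : ET z b P g j = ∑ d ∈ (PJ z P j).powerset with d.card = mJ b j + 1,
      ∏ r ∈ d, g r := sum_ct z b P j _
  have he : ET z b P g j ≤ VV z P g j * etb e j := by
    rw [hE]
    have h1 : (PJ z P j).powerset.filter (fun d => d.card = mJ b j + 1) =
        (PJ z P j).powersetCard (mJ b j + 1) := by
      ext d
      rw [mem_filter, mem_powerset, mem_powersetCard]
    rw [h1]
    refine (s2_esymm g _ (fun r hr => (hg r (hsub r hr)).1) _).trans ?_
    have h2 : (∑ i ∈ PJ z P j, g i) ^ (mJ b j + 1) / ((mJ b j + 1).factorial : ℝ) ≤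
        (1388 / 1000 : ℝ) ^ (mJ b j + 1) / ((mJ b j + 1).factorial : ℝ) := by
      refine div_le_div_of_nonneg_right ?_ (by positivity)
      exact pow_le_pow_left₀ hG0 hG _
    refine h2.trans ?_
    have h3 := s2_num hb hnum j
    have h5 : Real.exp (-(139 / 100)) * Real.exp (139 / 100) = 1 := by
      rw [← Real.exp_add]
      norm_num
    set A := (1388 / 1000 : ℝ) ^ (mJ b j + 1) / ((mJ b j + 1).factorial : ℝ) with hA
    have hA0 : 0 ≤ A := by positivity
    have h6 : A * (4018 / 1000) ≤ etb e j := h3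
    calc A = Real.exp (-(139 / 100)) * (A * Real.exp (139 / 100)) := by
          rw [mul_left_comm, h5, mul_one]
      _ ≤ Real.exp (-(139 / 100)) * (A * (4018 / 1000)) :=
          mul_le_mul_of_nonneg_left (mul_le_mul_of_nonneg_left exp_139' hA0) (Real.exp_pos _).le
      _ ≤ VV z P g j * etb e j := mul_le_mul hV h6 (by positivity) hVpos.le
  refine ⟨hVpos, ?_, ?_, ?_, he⟩
  · rw [hT]; exact hb1
  · rw [hT]
    rw [hE] at he
    have : VV z P g j = ∏ q ∈ PJ z P j, (1 - g q) := rfl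
    rw [this] at he ⊢
    linarith
  · rw [hE]
    refine sum_nonneg fun d hd => prod_nonneg fun r hr => ?_
    exact (hg r (hsub r (mem_powerset.mp (mem_filter.mp hd).1 hr))).1

private theorem sum_etb {e : ℝ} (he : 0 ≤ e) (J : ℕ) :
    ∑ j ∈ range J, etb e j ≤ e * (20 / 19) := by
  have h : ∀ J : ℕ, ∑ j ∈ range J, etb e j = e * (20 / 19) * (1 - (1 / 20) ^ J) := by
    intro J
    induction J with
    | zero => simp
    | succ n ih =>
      rw [sum_range_succ, ih]
      unfold etb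
      ring
  rw [h]
  have h1 : (0 : ℝ) ≤ (1 / 20) ^ J := by positivity
  have h2 : 0 ≤ e * (20 / 19) := by positivity
  nlinarith

private theorem sum_etb_fin {e : ℝ} (he : 0 ≤ e) (J : ℕ) : ∑ j : Fin J, etb e j ≤ e * (20 / 19) := by
  rw [← Finset.sum_range (fun j => etb e j)]
  exact sum_etb he J

private theorem exp_le_inv {t : ℝ} (ht : t < 1) : Real.exp t ≤ 1 / (1 - t) := by
  rw [le_div_iff₀ (by linarith)]
  have h2 := Real.add_one_le_exp (-t)
  have h3 : Real.exp t * Real.exp (-t) = 1 := by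
    rw [← Real.exp_add]
    norm_num
  nlinarith [Real.exp_pos t]

private theorem s2_expand {z b : ℕ} {P : Finset ℕ} (g : ℕ → ℝ) (c : Fin (NJ z) → Finset ℕ → ℝ) :
    ∏ j : Fin (NJ z), ∑ d ∈ fam z b P j, (c j d * ∏ r ∈ d, g r) =
      ∑ E ∈ fa z b P, (∏ j, c j (E j)) * ∏ q ∈ un E, g q := by
  classical
  rw [Finset.prod_univ_sum]
  refine Finset.sum_congr rfl fun E hE => ?_
  rw [Finset.prod_mul_distrib, ← prod_un E hE g]

private theorem s2_prod {z : ℕ} {P : Finset ℕ} (hP : ∀ r ∈ P, r.Prime ∧ r ≤ z) (g : ℕ → ℝ) :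
    ∏ q ∈ P, (1 - g q) = ∏ j : Fin (NJ z), VV z P g j := by
  rw [prod_PJ hP (fun r => 1 - g r)]
  rfl

/-- the main term of the upper bound sieve -/
theorem main_upb {b : ℕ} (hb : 2 ≤ b) {e : ℝ} (he : 0 ≤ e) (hnum : NumOk b e) {z W : ℕ}
    {P : Finset ℕ}
    (hW : ∀ (m N : ℕ) (Q : Finset ℕ), W ≤ m → N < m ^ 2 →
      (∀ q ∈ Q, q.Prime ∧ m ≤ q ∧ q ≤ N) → ∑ q ∈ Q, 1 / (q : ℝ) ≤ 6936 / 10000)
    (hW2 : 20001 ≤ W) (hP : ∀ r ∈ P, r.Prime ∧ W ≤ r ∧ r ≤ z) (g : ℕ → ℝ)
    (hg : ∀ q ∈ P, 0 ≤ g q ∧ g q ≤ 2 / ((q : ℝ) - 1)) :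
    0 ≤ ∑ E ∈ fa z b P, (∏ j : Fin (NJ z), cm b j (E j)) * ∏ q ∈ un E, g q ∧
    ∑ E ∈ fa z b P, (∏ j : Fin (NJ z), cm b j (E j)) * ∏ q ∈ un E, g q ≤
      (1 + e) * Real.exp (e / 19) * ∏ q ∈ P, (1 - g q) := by
  classical
  have hlev := fun j : Fin (NJ z) => levelb hb he hnum hW hW2 hP g hg j
  have hT : ∏ j : Fin (NJ z), TT z b P g j =
      ∑ E ∈ fa z b P, (∏ j : Fin (NJ z), cm b j (E j)) * ∏ q ∈ un E, g q :=
    s2_expand g (fun j d => cm b j d)
  rw [← hT, s2_prod (fun r hr => ⟨(hP r hr).1, (hP r hr).2.2⟩) g]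
  have hV0 : 0 ≤ ∏ j : Fin (NJ z), VV z P g j := Finset.prod_nonneg fun j _ => (hlev j).1.le
  have hprod : ∏ j : Fin (NJ z), (1 + etb e j) ≤ (1 + e) * Real.exp (e / 19) := by
    rw [← Finset.prod_range (fun j => 1 + etb e j)]
    obtain ⟨J, hJ⟩ : ∃ J, NJ z = J + 1 := ⟨_, rfl⟩
    rw [hJ, prod_range_succ']
    have h1 : ∏ j ∈ range J, (1 + etb e (j + 1)) ≤ Real.exp (e / 19) := by
      calc ∏ j ∈ range J, (1 + etb e (j + 1)) ≤ ∏ j ∈ range J, Real.exp (etb e (j + 1)) := by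
            refine prod_le_prod (fun j _ => by have := etb_nonneg he (j + 1); linarith) fun j _ => ?_
            have := Real.add_one_le_exp (etb e (j + 1))
            linarith
        _ = Real.exp (∑ j ∈ range J, etb e (j + 1)) := (Real.exp_sum _ _).symm
        _ ≤ _ := by
            apply Real.exp_le_exp.2
            have h2 : ∑ j ∈ range J, etb e (j + 1) = (∑ j ∈ range J, etb e j) / 20 := by
              rw [sum_div]
              refine sum_congr rfl fun j _ => ?_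
              unfold etb
              rw [pow_succ]
              ring
            have h3 := sum_etb he J
            rw [h2]
            linarith
    have h4 : etb e 0 = e := by
      unfold etb
      rw [pow_zero, mul_one]
    rw [h4, mul_comm]
    exact mul_le_mul_of_nonneg_left h1 (by linarith)
  constructor
  · exact prod_nonneg fun j _ => (hlev j).1.le.trans (hlev j).2.1
  · calc ∏ j : Fin (NJ z), TT z b P g j ≤ ∏ j : Fin (NJ z), (VV z P g j * (1 + etb e j)) :=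
          Finset.prod_le_prod (fun j _ => (hlev j).1.le.trans (hlev j).2.1) fun j _ => (hlev j).2.2.1
      _ = (∏ j : Fin (NJ z), VV z P g j) * ∏ j : Fin (NJ z), (1 + etb e j) :=
          Finset.prod_mul_distrib
      _ ≤ (∏ j : Fin (NJ z), VV z P g j) * ((1 + e) * Real.exp (e / 19)) :=
          mul_le_mul_of_nonneg_left hprod hV0
      _ = _ := mul_comm _ _

/-- the main term of the lower bound sieve -/
theorem main_lowb {b : ℕ} (hb : 2 ≤ b) {e : ℝ} (he : 0 ≤ e) (he1 : e * (20 / 19) < 1)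
    (hnum : NumOk b e) {z W : ℕ} {P : Finset ℕ}
    (hW : ∀ (m N : ℕ) (Q : Finset ℕ), W ≤ m → N < m ^ 2 →
      (∀ q ∈ Q, q.Prime ∧ m ≤ q ∧ q ≤ N) → ∑ q ∈ Q, 1 / (q : ℝ) ≤ 6936 / 10000)
    (hW2 : 20001 ≤ W) (hP : ∀ r ∈ P, r.Prime ∧ W ≤ r ∧ r ≤ z) (g : ℕ → ℝ)
    (hg : ∀ q ∈ P, 0 ≤ g q ∧ g q ≤ 2 / ((q : ℝ) - 1)) :
    (1 - e * (20 / 19) * (1 / (1 - e * (20 / 19)))) * ∏ q ∈ P, (1 - g q) ≤
      ∑ E ∈ fa z b P, ww b E * ∏ q ∈ un E, g q := by
  classical
  have hlev := fun j : Fin (NJ z) => levelb hb he hnum hW hW2 hP g hg j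
  set K : ℝ := 1 / (1 - e * (20 / 19)) with hK
  have hK0 : 0 < K := by
    rw [hK]
    apply one_div_pos.2
    linarith
  have hT : ∏ j : Fin (NJ z), TT z b P g j =
      ∑ E ∈ fa z b P, (∏ j : Fin (NJ z), cm b j (E j)) * ∏ q ∈ un E, g q :=
    s2_expand g (fun j d => cm b j d)
  have hE : ∀ l : Fin (NJ z), ET z b P g l * ∏ j ∈ Finset.univ.erase l, TT z b P g j =
      ∑ E ∈ fa z b P, (∏ j, cl b l j (E j)) * ∏ q ∈ un E, g q := by
    intro l
    rw [← s2_expand g (cl b l)]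
    rw [← Finset.mul_prod_erase Finset.univ _ (Finset.mem_univ l)]
    congr 1
    · unfold ET cl
      simp only [if_true]
    · refine Finset.prod_congr rfl fun j hj => ?_
      have : j ≠ l := Finset.ne_of_mem_erase hj
      unfold TT cl
      simp only [if_neg this]
  have h1 : ∑ E ∈ fa z b P, ww b E * ∏ q ∈ un E, g q =
      ∏ j : Fin (NJ z), TT z b P g j -
        ∑ l : Fin (NJ z), ET z b P g l * ∏ j ∈ Finset.univ.erase l, TT z b P g j := by
    rw [hT]
    simp_rw [hE]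
    rw [Finset.sum_comm, ← Finset.sum_sub_distrib]
    refine Finset.sum_congr rfl fun E _ => ?_
    unfold ww
    rw [← Finset.sum_mul]
    ring
  have h5 : ∏ j : Fin (NJ z), VV z P g j ≤ ∏ j : Fin (NJ z), TT z b P g j :=
    Finset.prod_le_prod (fun j _ => (hlev j).1.le) fun j _ => (hlev j).2.1
  have h3 : ∀ l : Fin (NJ z), ET z b P g l * ∏ j ∈ Finset.univ.erase l, TT z b P g j ≤
      etb e l * (K * ∏ j : Fin (NJ z), VV z P g j) := by
    intro l
    calc ET z b P g l * ∏ j ∈ Finset.univ.erase l, TT z b P g j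
        ≤ (VV z P g l * etb e l) * ∏ j ∈ Finset.univ.erase l, (VV z P g j * (1 + etb e j)) := by
          refine mul_le_mul (hlev l).2.2.2.2 ?_ ?_ ?_
          · exact Finset.prod_le_prod (fun j _ => (hlev j).1.le.trans (hlev j).2.1)
              fun j _ => (hlev j).2.2.1
          · exact Finset.prod_nonneg fun j _ => (hlev j).1.le.trans (hlev j).2.1
          · exact mul_nonneg (hlev l).1.le (etb_nonneg he l)
      _ = (VV z P g l * etb e l) * ((∏ j ∈ Finset.univ.erase l, VV z P g j) *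
            ∏ j ∈ Finset.univ.erase l, (1 + etb e j)) := by rw [Finset.prod_mul_distrib]
      _ ≤ (VV z P g l * etb e l) * ((∏ j ∈ Finset.univ.erase l, VV z P g j) * K) := by
          refine mul_le_mul_of_nonneg_left ?_ (mul_nonneg (hlev l).1.le (etb_nonneg he l))
          refine mul_le_mul_of_nonneg_left ?_ (Finset.prod_nonneg fun j _ => (hlev j).1.le)
          calc ∏ j ∈ Finset.univ.erase l, (1 + etb e j)
              ≤ ∏ j ∈ Finset.univ.erase l, Real.exp (etb e j) := by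
                refine Finset.prod_le_prod (fun j _ => by have := etb_nonneg he j; linarith)
                  fun j _ => ?_
                have := Real.add_one_le_exp (etb e j)
                linarith
            _ = Real.exp (∑ j ∈ Finset.univ.erase l, etb e j) := (Real.exp_sum _ _).symm
            _ ≤ Real.exp (e * (20 / 19)) := by
                refine Real.exp_le_exp.mpr ?_
                refine (Finset.sum_le_sum_of_subset_of_nonneg (Finset.erase_subset l Finset.univ)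
                  (fun j _ _ => etb_nonneg he j)).trans ?_
                exact sum_etb_fin he (NJ z)
            _ ≤ _ := exp_le_inv he1
      _ = etb e l * (K * (VV z P g l * ∏ j ∈ Finset.univ.erase l, VV z P g j)) := by
          ring
      _ = _ := by
          rw [Finset.mul_prod_erase Finset.univ (fun j : Fin (NJ z) => VV z P g j) (Finset.mem_univ l)]
  have hV0 : 0 ≤ ∏ j : Fin (NJ z), VV z P g j := Finset.prod_nonneg fun j _ => (hlev j).1.le
  have h6 : ∑ l : Fin (NJ z), ET z b P g l * ∏ j ∈ Finset.univ.erase l, TT z b P g j ≤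
      e * (20 / 19) * K * ∏ j : Fin (NJ z), VV z P g j := by
    refine (Finset.sum_le_sum fun l _ => h3 l).trans ?_
    rw [← Finset.sum_mul]
    have h7 := mul_le_mul_of_nonneg_right (sum_etb_fin he (NJ z))
      (mul_nonneg hK0.le hV0)
    refine h7.trans (le_of_eq ?_)
    ring
  rw [h1, s2_prod (fun r hr => ⟨(hP r hr).1, (hP r hr).2.2⟩) g]
  linarith

/-- a nonzero weight: at most one level is full -/
theorem ww_neb {b z : ℕ} {E : Fin (NJ z) → Finset ℕ} (h : ww b E ≠ 0) :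
    ∃ l : Fin (NJ z), ∀ j : Fin (NJ z), (E j).card ≤ mJ b j + if j = l then 1 else 0 := by
  classical
  have hNJ : 0 < NJ z := by
    unfold NJ
    omega
  by_cases h1 : ∏ j : Fin (NJ z), cm b j (E j) = 0
  · have h2 : ∑ l : Fin (NJ z), ∏ j : Fin (NJ z), cl b l j (E j) ≠ 0 := by
      intro h3
      apply h
      unfold ww
      rw [h1, h3, sub_zero]
    obtain ⟨l, -, hl⟩ := exists_ne_zero_of_sum_ne_zero h2
    refine ⟨l, fun j => ?_⟩
    have h3 := prod_ne_zero_iff.1 hl j (mem_univ j)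
    unfold cl at h3
    by_cases hjl : j = l
    · rw [if_pos hjl] at h3 ⊢
      unfold ct at h3
      by_contra h4
      apply h3
      rw [if_neg (by omega)]
    · rw [if_neg hjl] at h3 ⊢
      unfold cm at h3
      by_contra h4
      apply h3
      rw [if_neg (by omega)]
  · refine ⟨⟨0, hNJ⟩, fun j => ?_⟩
    have h3 := prod_ne_zero_iff.1 h1 j (mem_univ j)
    unfold cm at h3
    by_contra h4
    apply h3
    rw [if_neg]
    split_ifs at h4 <;> omega

private theorem sum_pwb (b J : ℕ) :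
    ∑ j ∈ range J, (2 * ((b : ℝ) + (j : ℝ))) / 2 ^ j ≤ 4 * b + 4 := by
  have h : ∀ J : ℕ, ∑ j ∈ range J, (2 * ((b : ℝ) + (j : ℝ))) / 2 ^ j =
      4 * b + 4 - (4 * J + 4 * b + 4) / 2 ^ J := by
    intro J
    induction J with
    | zero => norm_num
    | succ n ih =>
      rw [Finset.sum_range_succ, ih, pow_succ]
      push_cast
      field_simp
      ring
  rw [h]
  have : 0 ≤ (4 * (J : ℝ) + 4 * b + 4) / 2 ^ J := by positivity
  linarith

/-- the level of the sieve -/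
theorem prod_un_b {b z : ℕ} {P : Finset ℕ} (hP : ∀ r ∈ P, r.Prime ∧ r ≤ z) (hz : 2 ≤ z)
    (E : Fin (NJ z) → Finset ℕ) (hE : E ∈ fa z b P) (u : ℕ) (l : Fin (NJ z))
    (hl : ∀ j : Fin (NJ z), (E j).card ≤ mJ b j + if j = l then u else 0) :
    ∏ r ∈ un E, r ≤ z ^ (4 * b + 4 + u) := by
  classical
  have hzr : (2 : ℝ) ≤ z := by exact_mod_cast hz
  have hlz : 0 < Real.log z := Real.log_pos (by linarith)
  have hpos : (0 : ℝ) < ((∏ r ∈ un E, r : ℕ) : ℝ) := by
    have : 0 < ∏ r ∈ un E, r := Finset.prod_pos fun r hr => (hP r (un_sub E hE hr)).1.pos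
    exact_mod_cast this
  have hlog : Real.log ((∏ r ∈ un E, r : ℕ) : ℝ) ≤ (4 * b + 4 + u : ℕ) * Real.log z := by
    push_cast
    rw [Real.log_prod (fun r hr => by
      have := (hP r (un_sub E hE hr)).1.pos
      positivity)]
    rw [un, Finset.sum_biUnion (un_disj E hE)]
    have h1 : ∀ j : Fin (NJ z), ∑ r ∈ E j, Real.log r ≤
        Real.log z * ((2 * ((b : ℝ) + ((j : ℕ) : ℝ))) / 2 ^ (j : ℕ)) +
          if j = l then u * Real.log z else 0 := by
      intro j
      have hDj := Fintype.mem_piFinset.mp hE j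
      have h2 : ∀ r ∈ E j, Real.log r ≤ Real.log z / 2 ^ (j : ℕ) := by
        intro r hr
        have hr' := mem_filter.mp (mem_fam_sub hDj hr)
        have h3 := hP r hr'.1
        have h4 := lev_pow_le h3.1.two_le h3.2
        rw [hr'.2] at h4
        rw [le_div_iff₀ (by positivity)]
        have h5 : Real.log (((r ^ (2 ^ (j : ℕ)) : ℕ)) : ℝ) ≤ Real.log z :=
          Real.log_le_log (by have := h3.1.pos; positivity) (by exact_mod_cast h4)
        push_cast at h5
        rw [Real.log_pow] at h5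
        push_cast at h5
        linarith
      have h6 : ((E j).card : ℝ) ≤ 2 * ((b : ℝ) + ((j : ℕ) : ℝ)) + if j = l then (u : ℝ) else 0 := by
        have h7 := hl j
        unfold mJ at h7
        have h8 : ((E j).card : ℝ) ≤ ((2 * (b + (j : ℕ)) + if j = l then u else 0 : ℕ) : ℝ) := by
          exact_mod_cast h7
        refine h8.trans (le_of_eq ?_)
        push_cast
        rfl
      have h9 : Real.log z / 2 ^ (j : ℕ) ≤ Real.log z := by
        refine div_le_self hlz.le ?_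
        exact one_le_pow₀ (by norm_num)
      calc ∑ r ∈ E j, Real.log r ≤ ∑ r ∈ E j, Real.log z / 2 ^ (j : ℕ) := Finset.sum_le_sum h2
        _ = (E j).card * (Real.log z / 2 ^ (j : ℕ)) := by rw [Finset.sum_const, nsmul_eq_mul]
        _ ≤ (2 * ((b : ℝ) + ((j : ℕ) : ℝ)) + if j = l then (u : ℝ) else 0) *
            (Real.log z / 2 ^ (j : ℕ)) :=
            mul_le_mul_of_nonneg_right h6 (by positivity)
        _ ≤ _ := by
            rw [add_mul]
            refine add_le_add (le_of_eq (by ring)) ?_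
            split_ifs
            · exact mul_le_mul_of_nonneg_left h9 (Nat.cast_nonneg u)
            · rw [zero_mul]
    refine (Finset.sum_le_sum fun j _ => h1 j).trans ?_
    rw [sum_add_distrib, ← mul_sum, Finset.sum_ite_eq' univ l, if_pos (mem_univ l)]
    have h8 : ∑ j : Fin (NJ z), (2 * ((b : ℝ) + ((j : ℕ) : ℝ))) / 2 ^ (j : ℕ) =
        ∑ j ∈ range (NJ z), (2 * ((b : ℝ) + (j : ℝ))) / 2 ^ j :=
      (Finset.sum_range (fun j => (2 * ((b : ℝ) + (j : ℝ))) / 2 ^ j)).symm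
    rw [h8]
    have h9 := mul_le_mul_of_nonneg_left (sum_pwb b (NJ z)) hlz.le
    linarith
  have h10 := Real.exp_le_exp.mpr hlog
  rw [Real.exp_log hpos, Real.exp_nat_mul, Real.exp_log (by linarith)] at h10
  exact_mod_cast h10

/-- **The two sieves of dimension 2 for large primes**: lower bound of level `y ^ 17` and constant `0.99`, upper bound
of level `y ^ 12` and constant `1.1834`. -/
theorem fl3 : ∃ w : ℕ, ∀ y : ℕ, 2 ≤ y → ∀ Q : Finset ℕ, (∀ q ∈ Q, q.Prime ∧ w ≤ q ∧ q ≤ y) →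
    (∃ (D : Finset (Finset ℕ)) (cn : Finset ℕ → ℝ),
      (∀ d ∈ D, d ⊆ Q ∧ ∏ q ∈ d, q ≤ y ^ 17) ∧
      (∀ d ∈ D, |cn d| ≤ 2 + 2 * Real.log y) ∧
      (∀ (Ω : ℕ → Finset ℕ) (x : ℕ),
        Lm D cn Ω x ≤ if ∀ q ∈ Q, x % q ∉ Ω q then (1 : ℝ) else 0) ∧
      ∀ g : ℕ → ℝ, (∀ q ∈ Q, 0 ≤ g q ∧ g q ≤ 2 / ((q : ℝ) - 1)) →
        99 / 100 * ∏ q ∈ Q, (1 - g q) ≤ Gm D cn g) ∧
    (∃ (D : Finset (Finset ℕ)) (cp : Finset ℕ → ℝ),
      (∀ d ∈ D, d ⊆ Q ∧ ∏ q ∈ d, q ≤ y ^ 12) ∧
      (∀ d ∈ D, |cp d| ≤ 2 + 2 * Real.log y) ∧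
      (∀ (Ω : ℕ → Finset ℕ) (x : ℕ),
        (if ∀ q ∈ Q, x % q ∉ Ω q then (1 : ℝ) else 0) ≤ Lm D cp Ω x) ∧
      ∀ g : ℕ → ℝ, (∀ q ∈ Q, 0 ≤ g q ∧ g q ≤ 2 / ((q : ℝ) - 1)) →
        0 ≤ Gm D cp g ∧ Gm D cp g ≤ 11834 / 10000 * ∏ q ∈ Q, (1 - g q)) := by
  classical
  obtain ⟨W0, -, hW0⟩ := mertens_sharp
  obtain ⟨W, hWdef⟩ : ∃ W : ℕ, W = max W0 20001 := ⟨_, rfl⟩
  have hW : ∀ (m N : ℕ) (Q : Finset ℕ), W ≤ m → N < m ^ 2 →
      (∀ q ∈ Q, q.Prime ∧ m ≤ q ∧ q ≤ N) → ∑ q ∈ Q, 1 / (q : ℝ) ≤ 6936 / 10000 :=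
    fun m N Q hm => hW0 m N Q (by omega)
  have hW2 : 20001 ≤ W := by omega
  have hn2 : NumOk 2 (1726 / 10000) := by
    unfold NumOk
    norm_num [Nat.factorial]
  have hn3 : NumOk 3 (8 / 1000) := by
    unfold NumOk
    norm_num [Nat.factorial]
  refine ⟨W, fun y hy Q hQ => ?_⟩
  have hP : ∀ r ∈ Q, r.Prime ∧ r ≤ y := fun r hr => ⟨(hQ r hr).1, (hQ r hr).2.2⟩
  have hlog : (1 : ℝ) + NJ y ≤ 2 + 2 * Real.log y := NJ_le_log y hy
  have hdrop : ∀ (b : ℕ) (cn F : Finset ℕ → ℝ),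
      ∑ d ∈ ((fa y b Q).image un).filter (fun d => cn d ≠ 0), cn d * F d =
        ∑ d ∈ (fa y b Q).image un, cn d * F d := by
    intro b cn F
    refine sum_filter_of_ne fun d _ h => ?_
    exact left_ne_zero_of_mul h
  constructor
  · set cn : Finset ℕ → ℝ := lamf y 3 Q (ww 3) with hcn
    refine ⟨((fa y 3 Q).image un).filter (fun d => cn d ≠ 0), cn, ?_, ?_, ?_, ?_⟩
    · intro d hd
      rw [mem_filter] at hd
      obtain ⟨hd1, hd2⟩ := hd
      have h1 : ∑ E ∈ fa y 3 Q with un E = d, ww 3 E ≠ 0 := hd2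
      obtain ⟨E, hE, hE2⟩ := exists_ne_zero_of_sum_ne_zero h1
      rw [mem_filter] at hE
      obtain ⟨hE1, rfl⟩ := hE
      refine ⟨un_sub E hE1, ?_⟩
      obtain ⟨l, hl⟩ := ww_neb hE2
      exact prod_un_b hP hy E hE1 1 l hl
    · intro d _
      refine le_trans ?_ hlog
      exact abs_lamf_le hP _ _ (by positivity) (fun E => abs_ww_le E) d
    · intro Ω x
      have hind := ind_iff hP Ω x
      have h1 : Lm (((fa y 3 Q).image un).filter (fun d => cn d ≠ 0)) cn Ω x =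
          Lm ((fa y 3 Q).image un) cn Ω x := hdrop 3 cn _
      rw [h1, Lm_lamf hP]
      refine (sum_ww_le hP _).trans (le_of_eq ?_)
      by_cases h : ∀ q ∈ Q, x % q ∉ Ω q
      · rw [if_pos h, if_pos (hind.mp h)]
      · rw [if_neg h, if_neg (fun h2 => h (hind.mpr h2))]
    · intro g hg
      have h1 : Gm (((fa y 3 Q).image un).filter (fun d => cn d ≠ 0)) cn g =
          Gm ((fa y 3 Q).image un) cn g := hdrop 3 cn _
      have h2 : Gm ((fa y 3 Q).image un) cn g = ∑ E ∈ fa y 3 Q, ww 3 E * ∏ q ∈ un E, g q := by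
        unfold Gm
        exact lamf_push y 3 Q (ww 3) (fun d => ∏ q ∈ d, g q)
      rw [h1, h2]
      refine le_trans ?_ (main_lowb (by norm_num) (by norm_num) (by norm_num) hn3 hW hW2 hQ g hg)
      refine mul_le_mul_of_nonneg_right (by norm_num) ?_
      refine prod_nonneg fun q hq => ?_
      have h3 := (hg q hq).2
      have h4 : (20001 : ℝ) ≤ q := by exact_mod_cast hW2.trans (hQ q hq).2.1
      have h5 : 2 / ((q : ℝ) - 1) ≤ 1 := by
        rw [div_le_one (by linarith)]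
        linarith
      linarith
  · set w2 : (Fin (NJ y) → Finset ℕ) → ℝ := fun E => ∏ j : Fin (NJ y), cm 2 j (E j) with hw2
    set cp : Finset ℕ → ℝ := lamf y 2 Q w2 with hcp
    refine ⟨((fa y 2 Q).image un).filter (fun d => cp d ≠ 0), cp, ?_, ?_, ?_, ?_⟩
    · intro d hd
      rw [mem_filter] at hd
      obtain ⟨hd1, hd2⟩ := hd
      have h1 : ∑ E ∈ fa y 2 Q with un E = d, w2 E ≠ 0 := hd2
      obtain ⟨E, hE, hE2⟩ := exists_ne_zero_of_sum_ne_zero h1
      rw [mem_filter] at hE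
      obtain ⟨hE1, rfl⟩ := hE
      refine ⟨un_sub E hE1, ?_⟩
      have hNJ : 0 < NJ y := by
        unfold NJ
        omega
      refine prod_un_b hP hy E hE1 0 ⟨0, hNJ⟩ fun j => ?_
      have h3 := prod_ne_zero_iff.1 hE2 j (mem_univ j)
      unfold cm at h3
      by_contra h4
      apply h3
      rw [if_neg]
      split_ifs at h4 <;> omega
    · intro d _
      refine le_trans ?_ hlog
      refine abs_lamf_le hP _ _ (by positivity) (fun E => ?_) d
      have h1 : |w2 E| ≤ 1 := by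
        rw [hw2, Finset.abs_prod]
        exact Finset.prod_le_one (fun _ _ => abs_nonneg _) (fun j _ => abs_cm_le 2 j _)
      have h2 : (0 : ℝ) ≤ NJ y := Nat.cast_nonneg _
      linarith
    · intro Ω x
      have hind := ind_iff hP Ω x
      have h0 : Lm (((fa y 2 Q).image un).filter (fun d => cp d ≠ 0)) cp Ω x =
          Lm ((fa y 2 Q).image un) cp Ω x := hdrop 2 cp _
      rw [h0, Lm_lamf hP]
      have h1 := expand_pt (b := 2) hP (fun j d => cm 2 j d) (∏ q ∈ Q with x % q ∈ Ω q, q)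
      have h2 := prod_Xf hP Pool.Agent.Lib.MP_f75418_nt.Om (∏ q ∈ Q with x % q ∈ Ω q, q)
      simp only [Pool.Agent.Lib.MP_f75418_nt.mem_Om] at h2
      have h3 : ∏ j : Fin (NJ y), Xf y Q Pool.Agent.Lib.MP_f75418_nt.Om j
            (∏ q ∈ Q with x % q ∈ Ω q, q) ≤
          ∏ j : Fin (NJ y), Uf y 2 Q Pool.Agent.Lib.MP_f75418_nt.Om j
            (∏ q ∈ Q with x % q ∈ Ω q, q) :=
        Finset.prod_le_prod (fun j _ => Xf_nonneg y Q Pool.Agent.Lib.MP_f75418_nt.Om j _)
          (fun j _ => Xf_le_Uf y 2 Q Pool.Agent.Lib.MP_f75418_nt.Om j _)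
      rw [← h1]
      refine le_trans (le_of_eq ?_) h3
      rw [h2]
      by_cases h : ∀ q ∈ Q, x % q ∉ Ω q
      · rw [if_pos h, if_pos (hind.mp h)]
      · rw [if_neg h, if_neg (fun h2 => h (hind.mpr h2))]
    · intro g hg
      have h1 : Gm (((fa y 2 Q).image un).filter (fun d => cp d ≠ 0)) cp g =
          Gm ((fa y 2 Q).image un) cp g := hdrop 2 cp _
      have h2 : Gm ((fa y 2 Q).image un) cp g = ∑ E ∈ fa y 2 Q, w2 E * ∏ q ∈ un E, g q := by
        unfold Gm
        exact lamf_push y 2 Q w2 (fun d => ∏ q ∈ d, g q)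
      rw [h1, h2]
      obtain ⟨h3, h4⟩ := main_upb (b := 2) (by norm_num) (e := 1726 / 10000) (by norm_num) hn2
        hW hW2 hQ g hg
      refine ⟨h3, h4.trans ?_⟩
      have h5 : (1 + 1726 / 10000) * Real.exp (1726 / 10000 / 19) ≤ 11834 / 10000 := by
        have h6 := exp_le_inv (t := 1726 / 10000 / 19) (by norm_num)
        calc (1 + 1726 / 10000) * Real.exp (1726 / 10000 / 19) ≤
            (1 + 1726 / 10000) * (1 / (1 - 1726 / 10000 / 19)) :=
              mul_le_mul_of_nonneg_left h6 (by norm_num)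
          _ ≤ _ := by norm_num
      refine mul_le_mul_of_nonneg_right h5 ?_
      refine prod_nonneg fun q hq => ?_
      have h3 := (hg q hq).2
      have h4 : (20001 : ℝ) ≤ q := by exact_mod_cast hW2.trans (hQ q hq).2.1
      have h5 : 2 / ((q : ℝ) - 1) ≤ 1 := by
        rw [div_le_one (by linarith)]
        linarith
      linarith

/-- **The upper bound sieve of dimension 2 for large primes**, truncation `b`, level `y ^ (4 b + 4)`. -/
theorem fupb {b : ℕ} (hb : 2 ≤ b) {e : ℝ} (he : 0 ≤ e) (hnum : NumOk b e) : ∃ w : ℕ,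
    ∀ y : ℕ, 2 ≤ y → ∀ Q : Finset ℕ, (∀ q ∈ Q, q.Prime ∧ w ≤ q ∧ q ≤ y) →
    ∃ (D : Finset (Finset ℕ)) (cp : Finset ℕ → ℝ),
      (∀ d ∈ D, d ⊆ Q ∧ ∏ q ∈ d, q ≤ y ^ (4 * b + 4)) ∧
      (∀ d ∈ D, |cp d| ≤ 2 + 2 * Real.log y) ∧
      (∀ (Ω : ℕ → Finset ℕ) (x : ℕ),
        (if ∀ q ∈ Q, x % q ∉ Ω q then (1 : ℝ) else 0) ≤ Lm D cp Ω x) ∧
      ∀ g : ℕ → ℝ, (∀ q ∈ Q, 0 ≤ g q ∧ g q ≤ 2 / ((q : ℝ) - 1)) →
        0 ≤ Gm D cp g ∧ Gm D cp g ≤ (1 + e) * Real.exp (e / 19) * ∏ q ∈ Q, (1 - g q) := by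
  classical
  obtain ⟨W0, -, hW0⟩ := mertens_sharp
  obtain ⟨W, hWdef⟩ : ∃ W : ℕ, W = max W0 20001 := ⟨_, rfl⟩
  have hW : ∀ (m N : ℕ) (Q : Finset ℕ), W ≤ m → N < m ^ 2 →
      (∀ q ∈ Q, q.Prime ∧ m ≤ q ∧ q ≤ N) → ∑ q ∈ Q, 1 / (q : ℝ) ≤ 6936 / 10000 :=
    fun m N Q hm => hW0 m N Q (by omega)
  have hW2 : 20001 ≤ W := by omega
  refine ⟨W, fun y hy Q hQ => ?_⟩
  have hP : ∀ r ∈ Q, r.Prime ∧ r ≤ y := fun r hr => ⟨(hQ r hr).1, (hQ r hr).2.2⟩
  have hlog : (1 : ℝ) + NJ y ≤ 2 + 2 * Real.log y := NJ_le_log y hy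
  have hdrop : ∀ (b : ℕ) (cn F : Finset ℕ → ℝ),
      ∑ d ∈ ((fa y b Q).image un).filter (fun d => cn d ≠ 0), cn d * F d =
        ∑ d ∈ (fa y b Q).image un, cn d * F d := by
    intro b cn F
    refine sum_filter_of_ne fun d _ h => ?_
    exact left_ne_zero_of_mul h
  set w2 : (Fin (NJ y) → Finset ℕ) → ℝ := fun E => ∏ j : Fin (NJ y), cm b j (E j) with hw2
  set cp : Finset ℕ → ℝ := lamf y b Q w2 with hcp
  refine ⟨((fa y b Q).image un).filter (fun d => cp d ≠ 0), cp, ?_, ?_, ?_, ?_⟩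
  · intro d hd
    rw [mem_filter] at hd
    obtain ⟨hd1, hd2⟩ := hd
    have h1 : ∑ E ∈ fa y b Q with un E = d, w2 E ≠ 0 := hd2
    obtain ⟨E, hE, hE2⟩ := exists_ne_zero_of_sum_ne_zero h1
    rw [mem_filter] at hE
    obtain ⟨hE1, rfl⟩ := hE
    refine ⟨un_sub E hE1, ?_⟩
    have hNJ : 0 < NJ y := by
      unfold NJ
      omega
    refine prod_un_b hP hy E hE1 0 ⟨0, hNJ⟩ fun j => ?_
    have h3 := prod_ne_zero_iff.1 hE2 j (mem_univ j)
    unfold cm at h3
    by_contra h4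
    apply h3
    rw [if_neg]
    split_ifs at h4 <;> omega
  · intro d _
    refine le_trans ?_ hlog
    refine abs_lamf_le hP _ _ (by positivity) (fun E => ?_) d
    have h1 : |w2 E| ≤ 1 := by
      rw [hw2, Finset.abs_prod]
      exact Finset.prod_le_one (fun _ _ => abs_nonneg _) (fun j _ => abs_cm_le b j _)
    have h2 : (0 : ℝ) ≤ NJ y := Nat.cast_nonneg _
    linarith
  · intro Ω x
    have hind := ind_iff hP Ω x
    have h0 : Lm (((fa y b Q).image un).filter (fun d => cp d ≠ 0)) cp Ω x =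
        Lm ((fa y b Q).image un) cp Ω x := hdrop b cp _
    rw [h0, Lm_lamf hP]
    have h1 := expand_pt (b := b) hP (fun j d => cm b j d) (∏ q ∈ Q with x % q ∈ Ω q, q)
    have h2 := prod_Xf hP Pool.Agent.Lib.MP_f75418_nt.Om (∏ q ∈ Q with x % q ∈ Ω q, q)
    simp only [Pool.Agent.Lib.MP_f75418_nt.mem_Om] at h2
    have h3 : ∏ j : Fin (NJ y), Xf y Q Pool.Agent.Lib.MP_f75418_nt.Om j
          (∏ q ∈ Q with x % q ∈ Ω q, q) ≤
        ∏ j : Fin (NJ y), Uf y b Q Pool.Agent.Lib.MP_f75418_nt.Om j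
          (∏ q ∈ Q with x % q ∈ Ω q, q) :=
      Finset.prod_le_prod (fun j _ => Xf_nonneg y Q Pool.Agent.Lib.MP_f75418_nt.Om j _)
        (fun j _ => Xf_le_Uf y b Q Pool.Agent.Lib.MP_f75418_nt.Om j _)
    rw [← h1]
    refine le_trans (le_of_eq ?_) h3
    rw [h2]
    by_cases h : ∀ q ∈ Q, x % q ∉ Ω q
    · rw [if_pos h, if_pos (hind.mp h)]
    · rw [if_neg h, if_neg (fun h2 => h (hind.mpr h2))]
  · intro g hg
    have h1 : Gm (((fa y b Q).image un).filter (fun d => cp d ≠ 0)) cp g =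
        Gm ((fa y b Q).image un) cp g := hdrop b cp _
    have h2 : Gm ((fa y b Q).image un) cp g = ∑ E ∈ fa y b Q, w2 E * ∏ q ∈ un E, g q := by
      unfold Gm
      exact lamf_push y b Q w2 (fun d => ∏ q ∈ d, g q)
    rw [h1, h2]
    exact main_upb hb he hnum hW hW2 hQ g hg

end Pool.Agent.Lib.MP_d06d57_nt
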