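import Pool.Agent.Lib.MP_d06d57_nt.Sharp2
import Pool.Agent.Lib.MP_d06d57_nt.Exp2
import Pool.Agent.Lib.MP_d06d57_nt.Mert

/-!
# MP_d06d57_nt, Wt: the weighted sieve

Weights `K - ∑ (1 - log q/log z)` over the primes `q` of `(y, z]` with `x % q ∈ Ω q`, `y = n^u`, `z = n^v`, on the `x`
without sieving primes up to `y`. Lower bound sieve of level `y^17` for the first term. For the second term the interval
`(y, z]` is cut at the points `n^(t j)`, and the `q` of `(n^(t j), n^(t (j+1))]` are treated with an upper bound sieve up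
to `n^δ`, `t (j+1) + (4 b + 4) δ < 1/2` (`interval`, `combine`).
-/

set_option autoImplicit false

open Finset

namespace Pool.Agent.Lib.MP_d06d57_nt

open Pool.Agent.Lib.MT Pool.Agent.Lib.MTR

/-- expansion for an indexed family of sets -/
theorem expand_ind (k : ℕ) (hk : 1 ≤ k) (δ θ ε : ℝ) (hδ : 0 < δ) (hε : 0 < ε) (hθ0 : 0 ≤ θ)
    (hθ : θ + 2 * ε ≤ 1 / 2) (hδ1 : δ ≤ 1) (A : ℕ) :
    ∃ X₀ : ℕ, ∀ X : ℕ, X₀ ≤ X → 2 ≤ yy δ X ∧
    ∀ Ω : ℕ → Finset ℕ, (∀ p, ∀ c ∈ Ω p, c < p) → (∀ p, 0 ∉ Ω p) → (∀ p, (Ω p).card ≤ k) →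
    ∀ L a : ℕ, L ∣ LL k → a < L → a.Coprime L →
    ∀ Y : ℕ, (Y : ℝ) ≤ (X : ℝ) ^ θ → ∀ (I : Finset (ℕ × Finset ℕ)) (s : ℕ × Finset ℕ → Finset ℕ)
      (c : ℕ × Finset ℕ → ℝ), Set.InjOn s I →
      (∀ i ∈ I, s i ⊆ QQ k (yy δ X) ∧ ∏ q ∈ s i, q ≤ Y) →
      (∀ i ∈ I, |c i| ≤ 2 + 2 * Real.log (yy δ X)) →
      |∑ x ∈ (Ioc X (2 * X)).filter (fun x => x % L = a),
          BV.th x * ∑ i ∈ I, c i * (if ∀ q ∈ s i, x % q ∈ Ω q then 1 else 0) -
        (∑ x ∈ Ioc X (2 * X), BV.th x) / L.totient * ∑ i ∈ I, c i * ∏ q ∈ s i, d2 Ω q| ≤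
        (X : ℝ) / (Real.log X) ^ A := by
  classical
  obtain ⟨X₀, hX₀⟩ := expand2 k hk δ θ ε hδ hε hθ0 hθ hδ1 A
  refine ⟨X₀, fun X hX => ?_⟩
  obtain ⟨hy2, hex⟩ := hX₀ X hX
  refine ⟨hy2, fun Ω hΩlt hΩ0 hΩk L a hLk ha haL Y hY I s c hinj hI hc => ?_⟩
  set c' : Finset ℕ → ℝ := fun e => ∑ i ∈ I with s i = e, c i with hc'
  have hpush : ∀ F : Finset ℕ → ℝ, ∑ e ∈ I.image s, c' e * F e = ∑ i ∈ I, c i * F (s i) := by
    intro F
    rw [← Finset.sum_fiberwise_of_maps_to (s := I) (t := I.image s) (g := s)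
      (fun i hi => mem_image_of_mem _ hi)]
    refine sum_congr rfl fun e _ => ?_
    rw [hc', sum_mul]
    refine sum_congr rfl fun i hi => ?_
    rw [(mem_filter.mp hi).2]
  have hval : ∀ i ∈ I, c' (s i) = c i := by
    intro i hi
    have h1 : I.filter (fun j => s j = s i) = {i} := by
      ext j
      rw [mem_filter, mem_singleton]
      constructor
      · rintro ⟨h2, h3⟩
        exact hinj (mem_coe.mpr h2) (mem_coe.mpr hi) h3
      · rintro rfl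
        exact ⟨hi, rfl⟩
    simp only [hc']
    rw [h1, sum_singleton]
  have h := hex Ω hΩlt hΩ0 hΩk L a hLk ha haL Y hY (I.image s) c' (by
    intro e he
    obtain ⟨i, hi, rfl⟩ := mem_image.1 he
    exact hI i hi) (by
    intro e he
    obtain ⟨i, hi, rfl⟩ := mem_image.1 he
    rw [hval i hi]
    exact hc i hi)
  have h1 : ∀ x, Lm (I.image s) c' Ω x =
      ∑ i ∈ I, c i * (if ∀ q ∈ s i, x % q ∈ Ω q then 1 else 0) := fun x =>
    hpush (fun d => if ∀ q ∈ d, x % q ∈ Ω q then 1 else 0)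
  have h2 : Gm (I.image s) c' (d2 Ω) = ∑ i ∈ I, c i * ∏ q ∈ s i, d2 Ω q :=
    hpush (fun d => ∏ q ∈ d, d2 Ω q)
  rw [h2] at h
  simp only [h1] at h
  exact h

/-- the sum of the weights over the primes of `(n^s, n^t]`, weights `1 - log q/log n^v` -/
noncomputable def wts (s t v : ℝ) (Ω : ℕ → Finset ℕ) (n x : ℕ) : ℝ :=
  ∑ q ∈ PP (yy s n) (yy t n),
    (1 - Real.log q / Real.log (yy v n)) * (if x % q ∈ Ω q then 1 else 0)

/-- the upper bound for the weighted sum over the `x` without sieving primes up to `n^u` -/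
def Ival (u v s t M : ℝ) (k : ℕ) : Prop := ∃ N₀ : ℕ, ∀ n : ℕ, N₀ ≤ n →
    ∀ Ω : ℕ → Finset ℕ, (∀ p, ∀ c ∈ Ω p, c < p) → (∀ p, 0 ∉ Ω p) → (∀ p, (Ω p).card ≤ 2) →
    ∀ L a : ℕ, L ∣ LL k → a < L → a.Coprime L →
      ∑ x ∈ (Ioc n (2 * n)).filter (fun x => x % L = a),
        BV.th x * (if ∀ p ∈ QQ k (yy u n), x % p ∉ Ω p then (1 : ℝ) else 0) * wts s t v Ω n x ≤
        (∑ x ∈ Ioc n (2 * n), BV.th x) / (L.totient : ℝ) *
          (M * ∏ p ∈ QQ k (yy u n), (1 - d2 Ω p)) + (n : ℝ) / (Real.log n) ^ 4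

private theorem V_nonneg {k : ℕ} (hk : 2 ≤ k) {Ω : ℕ → Finset ℕ} (hΩ2 : ∀ p, (Ω p).card ≤ 2)
    (t : ℕ) : 0 ≤ ∏ p ∈ QQ k t, (1 - d2 Ω p) := by
  refine prod_nonneg fun q hq => ?_
  obtain ⟨h1, h2, h3⟩ := mem_QQ hq
  have hO : ((Ω q).card : ℝ) ≤ 2 := by exact_mod_cast hΩ2 q
  have h5 : (12 : ℝ) ≤ q := by exact_mod_cast (by omega : 12 ≤ q)
  have h6 : d2 Ω q ≤ 1 := by
    unfold d2
    rw [div_le_one (by linarith)]
    linarith
  linarith

private theorem d2_le {Ω : ℕ → Finset ℕ} (hΩ2 : ∀ p, (Ω p).card ≤ 2) {q : ℕ} (hq : q.Prime) :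
    0 ≤ d2 Ω q ∧ d2 Ω q ≤ 2 / ((q : ℝ) - 1) := by
  have hO : ((Ω q).card : ℝ) ≤ 2 := by exact_mod_cast hΩ2 q
  have hq1 : (1 : ℝ) < q := by exact_mod_cast hq.one_lt
  unfold d2
  exact ⟨div_nonneg (Nat.cast_nonneg _) (by linarith), div_le_div_of_nonneg_right hO (by linarith)⟩

private theorem om_bd {s t v : ℝ} (hn1 : ∀ n : ℕ, 1 ≤ n → yy t n ≤ yy v n) {n : ℕ} (hn : 1 ≤ n)
    (hz : 2 ≤ yy v n) {q : ℕ} (hq : q ∈ PP (yy s n) (yy t n)) :
    0 ≤ 1 - Real.log q / Real.log (yy v n) ∧ 1 - Real.log q / Real.log (yy v n) ≤ 1 := by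
  obtain ⟨h1, h2, h3⟩ := mem_PP'.1 hq
  have hq0 : (0 : ℝ) < q := by exact_mod_cast h1.pos
  have hqz : (q : ℝ) ≤ yy v n := by exact_mod_cast h3.trans (hn1 n hn)
  have hlz : 0 < Real.log (yy v n) := Real.log_pos (by exact_mod_cast (by omega : 1 < yy v n))
  have h4 : Real.log q / Real.log (yy v n) ≤ 1 := by
    rw [div_le_one hlz]
    exact Real.log_le_log hq0 hqz
  have h5 : 0 ≤ Real.log q / Real.log (yy v n) := div_nonneg (Real.log_natCast_nonneg q) hlz.le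
  constructor <;> linarith

theorem yy_mono {s t : ℝ} (hst : s ≤ t) {n : ℕ} (hn : 1 ≤ n) : yy s n ≤ yy t n := by
  unfold yy
  have hnr : (1 : ℝ) ≤ n := by exact_mod_cast hn
  exact Nat.floor_le_floor (Real.rpow_le_rpow_of_exponent_le hnr hst)

theorem interval {b : ℕ} (hb : 2 ≤ b) {e : ℝ} (he : 0 ≤ e) (hnum : NumOk b e)
    (u v s t δ ε τ S C M : ℝ) (hδ : 0 < δ) (hδu : δ ≤ u) (hus : u ≤ s) (hst : s < t) (htv : t ≤ v)
    (hv1 : v ≤ 1) (hε : 0 < ε) (hτ : 0 < τ) (hτ1 : τ ≤ 1 / 2)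
    (hbud : t + (4 * b + 4 : ℕ) * δ + 2 * ε ≤ 1 / 2)
    (hS : 2 * (Real.log (t / s) - (t - s) / v) + τ ≤ S) (hS0 : 0 ≤ S)
    (hC : (1 + e) * (1 / (1 - e / 19)) ≤ C) (he1 : e < 1) (hM : S * C ≤ M * ((δ / u) ^ 2 * (1 - τ))) :
    ∃ w : ℕ, ∀ k : ℕ, w ≤ k → 2 ≤ k → Ival u v s t M k := by
  classical
  have hu : 0 < u := by linarith
  have hs : 0 < s := by linarith
  have ht : 0 < t := by linarith
  have hv : 0 < v := by linarith
  have hC0 : 0 ≤ C := le_trans (by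
    have : 0 < 1 - e / 19 := by linarith
    positivity) hC
  obtain ⟨w, hw⟩ := fupb hb he hnum
  refine ⟨w, fun k hkw hk2 => ?_⟩
  obtain ⟨X2, hX2⟩ := expand_ind k (by omega) t (t + (4 * b + 4 : ℕ) * δ) ε ht hε (by positivity)
    hbud (by linarith) 4
  obtain ⟨N1, hN1⟩ := wsumg s t v τ hs hst htv hτ (by linarith)
  obtain ⟨N2, hN2⟩ := vratiog δ u τ hδ hδu hτ (by linarith)
  obtain ⟨N5, hN5⟩ := log_yy δ (1 / 10) hδ (by norm_num) (4 * k + 4)
  refine ⟨max (max X2 N1) (max N2 (max N5 2)), fun n hn => ?_⟩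
  simp only [max_le_iff] at hn
  obtain ⟨⟨hn2, hn3⟩, hn4, hn7, hn8⟩ := hn
  obtain ⟨-, hex2⟩ := hX2 n hn2
  have hws := hN1 n hn3
  obtain ⟨-, hvr⟩ := hN2 n hn4
  obtain ⟨hvk, -, -⟩ := hN5 n hn7
  have hn0 : (0 : ℝ) < n := by exact_mod_cast (by omega : 0 < n)
  have hx2 : 2 ≤ yy δ n := by omega
  have hδy : yy δ n ≤ yy u n := yy_mono hδu (by omega)
  have hus' : yy u n ≤ yy s n := yy_mono hus (by omega)
  have hst' : yy s n ≤ yy t n := yy_mono hst.le (by omega)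
  have htv' : yy t n ≤ yy v n := yy_mono htv (by omega)
  intro Ω hΩlt hΩ0 hΩ2 L a hLk ha haL
  unfold wts
  have hom0 : ∀ q ∈ PP (yy s n) (yy t n), 0 ≤ 1 - Real.log q / Real.log (yy v n) ∧
      1 - Real.log q / Real.log (yy v n) ≤ 1 := fun q hq =>
    om_bd (fun m hm => yy_mono htv hm) (by omega) (by omega) hq
  have hfl1 : ((yy t n : ℕ) : ℝ) ≤ (n : ℝ) ^ t := by
    unfold yy
    exact Nat.floor_le (by positivity)
  have hfl2 : ((yy δ n : ℕ) : ℝ) ≤ (n : ℝ) ^ δ := by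
    unfold yy
    exact Nat.floor_le (by positivity)
  set om : ℕ → ℝ := fun q => 1 - Real.log q / Real.log (yy v n) with hom
  have hVy := V_nonneg hk2 hΩ2 (yy u n)
  have hVd := V_nonneg hk2 hΩ2 (yy δ n)
  have hQQ : ∀ m : ℕ, ∀ q ∈ QQ k m, q.Prime ∧ w ≤ q ∧ q ≤ m := by
    intro m q hq
    obtain ⟨h1, h2, h3⟩ := mem_QQ hq
    exact ⟨h1, by omega, h3⟩
  have hVr : ((δ / u) ^ 2 * (1 - τ)) * ∏ p ∈ QQ k (yy δ n), (1 - d2 Ω p) ≤
      ∏ p ∈ QQ k (yy u n), (1 - d2 Ω p) := by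
    have h1 : QQ k (yy u n) = QQ k (yy δ n) ∪ PP (yy δ n) (yy u n) := by
      ext q
      unfold QQ
      rw [mem_union, mem_PP', mem_PP', mem_PP']
      constructor
      · rintro ⟨h1, h2, h3⟩
        rcases Nat.lt_or_ge (yy δ n) q with h4 | h4
        · exact Or.inr ⟨h1, h4, h3⟩
        · exact Or.inl ⟨h1, h2, h4⟩
      · rintro (⟨h1, h2, h3⟩ | ⟨h1, h2, h3⟩)
        · exact ⟨h1, h2, by omega⟩
        · exact ⟨h1, by omega, h3⟩
    have h2 : Disjoint (QQ k (yy δ n)) (PP (yy δ n) (yy u n)) := by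
      rw [disjoint_left]
      intro q h3 h4
      have h5 := (mem_QQ h3).2.2
      have h6 := (mem_PP'.1 h4).2.1
      omega
    have h3 := hvr (d2 Ω) fun q hq => (d2_le hΩ2 (mem_PP'.1 hq).1).2
    rw [h1, prod_union h2, mul_comm]
    exact mul_le_mul_of_nonneg_left h3 hVd
  obtain ⟨D2, cp, hD2, hc2, hpt2, hGm2⟩ := hw (yy δ n) hx2 (QQ k (yy δ n)) (hQQ _)
  obtain ⟨hG20, hG2⟩ := hGm2 (d2 Ω) fun q hq => d2_le hΩ2 (mem_QQ hq).1
  have hC' : (1 + e) * Real.exp (e / 19) ≤ C := by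
    refine le_trans ?_ hC
    refine mul_le_mul_of_nonneg_left ?_ (by linarith)
    rw [le_div_iff₀ (by linarith)]
    have h2 := Real.add_one_le_exp (-(e / 19))
    have h3 : Real.exp (e / 19) * Real.exp (-(e / 19)) = 1 := by
      rw [← Real.exp_add]
      norm_num
    nlinarith [Real.exp_pos (e / 19)]
  set v' := yy δ n with hv'
  set y := yy s n with hy
  set z := yy t n with hz
  set T := (∑ x ∈ Ioc n (2 * n), BV.th x) / (L.totient : ℝ) with hT
  have hT0 : 0 ≤ T := div_nonneg (sum_nonneg fun x _ => th_nn x) (Nat.cast_nonneg _)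
  set W : ℕ → ℝ := fun x => ∑ q ∈ PP y z, om q * (if x % q ∈ Ω q then 1 else 0) with hW
  have hW0 : ∀ x, 0 ≤ W x := by
    intro x
    refine sum_nonneg fun q hq => mul_nonneg (hom0 q hq).1 ?_
    split_ifs <;> norm_num
  set B := (Ioc n (2 * n)).filter (fun x => x % L = a) with hB
  set I : Finset (ℕ × Finset ℕ) := PP y z ×ˢ D2 with hI
  set sx : ℕ × Finset ℕ → Finset ℕ := fun i => insert i.1 i.2 with hs
  have hd2v : ∀ d ∈ D2, ∀ p ∈ d, p ≤ v' := fun d hd p hp => (mem_QQ ((hD2 d hd).1 hp)).2.2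
  have hnot : ∀ i ∈ I, i.1 ∉ i.2 := by
    intro i hi h
    rw [hI, mem_product] at hi
    have h1 := hd2v i.2 hi.2 i.1 h
    have h2 := (mem_PP'.1 hi.1).2.1
    omega
  have hinj : Set.InjOn sx I := by
    intro i hi j hj hij
    have hi' := mem_coe.1 hi
    have hj' := mem_coe.1 hj
    have hi2 := hi'
    have hj2 := hj'
    rw [hI, mem_product] at hi2 hj2
    simp only [hs] at hij
    have h1 : i.1 = j.1 := by
      have h2 : i.1 ∈ insert j.1 j.2 := by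
        rw [← hij]
        exact mem_insert_self _ _
      rcases mem_insert.1 h2 with h3 | h3
      · exact h3
      · have h4 := hd2v j.2 hj2.2 i.1 h3
        have h5 := (mem_PP'.1 hi2.1).2.1
        omega
    have h2 : i.2 = j.2 := by
      rw [← erase_insert (hnot i hi'), ← erase_insert (hnot j hj'), hij, h1]
    exact Prod.ext h1 h2
  have hzv : ((z * v' ^ (4 * b + 4) : ℕ) : ℝ) ≤ (n : ℝ) ^ (t + (4 * b + 4 : ℕ) * δ) := by
    have h3 : (v' : ℝ) ^ (4 * b + 4) ≤ (n : ℝ) ^ ((4 * b + 4 : ℕ) * δ) := by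
      calc (v' : ℝ) ^ (4 * b + 4) ≤ ((n : ℝ) ^ δ) ^ (4 * b + 4) :=
            pow_le_pow_left₀ (Nat.cast_nonneg _) hfl2 _
        _ = (n : ℝ) ^ ((4 * b + 4 : ℕ) * δ) := by
            rw [← Real.rpow_natCast, ← Real.rpow_mul hn0.le, mul_comm]
    rw [Nat.cast_mul, Nat.cast_pow]
    calc (z : ℝ) * (v' : ℝ) ^ (4 * b + 4) ≤ (n : ℝ) ^ t * (n : ℝ) ^ ((4 * b + 4 : ℕ) * δ) :=
          mul_le_mul hfl1 h3 (by positivity) (by positivity)
      _ = _ := (Real.rpow_add hn0 _ _).symm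
  have hlvz : Real.log v' ≤ Real.log z := by
    apply Real.log_le_log
    · exact_mod_cast (by omega : 0 < v')
    · exact_mod_cast (by omega : v' ≤ z)
  have hp := hex2 Ω hΩlt hΩ0 (fun p => (hΩ2 p).trans hk2) L a hLk ha haL
    (z * v' ^ (4 * b + 4)) hzv I sx
    (fun i => om i.1 * cp i.2) hinj (by
      intro i hi
      have hi2 := hi
      rw [hI, mem_product] at hi2
      obtain ⟨h1, h2, h3⟩ := mem_PP'.1 hi2.1
      constructor
      · intro p hp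
        unfold QQ
        rw [mem_PP']
        rcases mem_insert.1 hp with rfl | hp
        · exact ⟨h1, by omega, h3⟩
        · obtain ⟨h4, h5, h6⟩ := mem_QQ ((hD2 i.2 hi2.2).1 hp)
          exact ⟨h4, h5, by omega⟩
      · simp only [hs]
        rw [prod_insert (hnot i hi)]
        exact Nat.mul_le_mul h3 (hD2 i.2 hi2.2).2) (by
      intro i hi
      have hi2 := hi
      rw [hI, mem_product] at hi2
      have h1 := hom0 i.1 hi2.1
      have h2 := hc2 i.2 hi2.2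
      rw [abs_mul, abs_of_nonneg h1.1]
      have h3 : om i.1 * |cp i.2| ≤ 1 * |cp i.2| :=
        mul_le_mul_of_nonneg_right h1.2 (abs_nonneg _)
      linarith)
  have hsplit : ∀ x, ∑ i ∈ I, om i.1 * cp i.2 *
      (if ∀ q ∈ sx i, x % q ∈ Ω q then (1 : ℝ) else 0) = W x * Lm D2 cp Ω x := by
    intro x
    simp only [hI, hW, hs]
    unfold Lm
    rw [sum_product, sum_mul_sum]
    refine sum_congr rfl fun q _ => sum_congr rfl fun d _ => ?_
    by_cases h1 : x % q ∈ Ω q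
    · by_cases h2 : ∀ p ∈ d, x % p ∈ Ω p
      · rw [if_pos h1, if_pos h2, if_pos (by
          intro p hp
          rcases mem_insert.1 hp with rfl | hp
          · exact h1
          · exact h2 p hp)]
        ring
      · rw [if_pos h1, if_neg h2, if_neg (fun h => h2 fun p hp => h p (mem_insert_of_mem hp))]
        ring
    · rw [if_neg h1, if_neg (fun h => h1 (h q (mem_insert_self _ _)))]
      ring
  have hmain : ∑ i ∈ I, om i.1 * cp i.2 * ∏ q ∈ sx i, d2 Ω q =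
      (∑ q ∈ PP y z, om q * d2 Ω q) * Gm D2 cp (d2 Ω) := by
    unfold Gm
    rw [sum_mul_sum, hI, sum_product]
    refine sum_congr rfl fun q hq => sum_congr rfl fun d hd => ?_
    simp only [hs]
    rw [prod_insert (hnot (q, d) (by rw [hI, mem_product]; exact ⟨hq, hd⟩))]
    ring
  rw [hmain] at hp
  simp only [hsplit] at hp
  have h1 : ∑ x ∈ B, BV.th x * (if ∀ p ∈ QQ k (yy u n), x % p ∉ Ω p then (1 : ℝ) else 0) * W x ≤
      ∑ x ∈ B, BV.th x * (W x * Lm D2 cp Ω x) := by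
    refine sum_le_sum fun x _ => ?_
    have h2 : (if ∀ p ∈ QQ k (yy u n), x % p ∉ Ω p then (1 : ℝ) else 0) ≤ Lm D2 cp Ω x := by
      refine le_trans ?_ (hpt2 Ω x)
      by_cases h : ∀ p ∈ QQ k (yy u n), x % p ∉ Ω p
      · rw [if_pos h, if_pos (by
          intro p hp
          refine h p ?_
          obtain ⟨h1, h2, h3⟩ := mem_QQ hp
          unfold QQ
          rw [mem_PP']
          exact ⟨h1, h2, by omega⟩)]
      · rw [if_neg h]
        split_ifs <;> norm_num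
    calc BV.th x * (if ∀ p ∈ QQ k (yy u n), x % p ∉ Ω p then (1 : ℝ) else 0) * W x =
        BV.th x * (W x * (if ∀ p ∈ QQ k (yy u n), x % p ∉ Ω p then (1 : ℝ) else 0)) := by ring
      _ ≤ _ := mul_le_mul_of_nonneg_left (mul_le_mul_of_nonneg_left h2 (hW0 x)) (th_nn x)
  have h2 := (abs_le.1 hp).2
  have h3 : ∑ q ∈ PP y z, om q * d2 Ω q ≤ S := by
    refine le_trans (sum_le_sum fun q hq => ?_) (hws.trans hS)
    exact mul_le_mul_of_nonneg_left (d2_le hΩ2 (mem_PP'.1 hq).1).2 (hom0 q hq).1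
  have h4 : (∑ q ∈ PP y z, om q * d2 Ω q) * Gm D2 cp (d2 Ω) ≤
      M * ∏ p ∈ QQ k (yy u n), (1 - d2 Ω p) := by
    have e1 : (∑ q ∈ PP y z, om q * d2 Ω q) * Gm D2 cp (d2 Ω) ≤
        S * (C * ∏ p ∈ QQ k v', (1 - d2 Ω p)) := by
      refine mul_le_mul h3 (hG2.trans ?_) hG20 hS0
      exact mul_le_mul_of_nonneg_right hC' hVd
    have hM0 : 0 ≤ M := by
      have h5 : 0 ≤ M * ((δ / u) ^ 2 * (1 - τ)) := le_trans (by positivity) hM
      have h6 : 0 < (δ / u) ^ 2 * (1 - τ) := mul_pos (by positivity) (by linarith)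
      exact nonneg_of_mul_nonneg_left h5 h6
    calc _ ≤ S * (C * ∏ p ∈ QQ k v', (1 - d2 Ω p)) := e1
      _ = (S * C) * ∏ p ∈ QQ k v', (1 - d2 Ω p) := by ring
      _ ≤ (M * ((δ / u) ^ 2 * (1 - τ))) * ∏ p ∈ QQ k v', (1 - d2 Ω p) :=
          mul_le_mul_of_nonneg_right hM hVd
      _ = M * (((δ / u) ^ 2 * (1 - τ)) * ∏ p ∈ QQ k v', (1 - d2 Ω p)) := by ring
      _ ≤ _ := mul_le_mul_of_nonneg_left hVr hM0
  have h5 := mul_le_mul_of_nonneg_left h4 hT0
  linarith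

/-- the weights over `(n^(t 0), n^(t J)]` are the sums of those over the `(n^(t j), n^(t (j+1))]` -/
theorem wts_split (v : ℝ) (t : ℕ → ℝ) (J : ℕ) (ht : ∀ j < J, t j ≤ t (j + 1)) (Ω : ℕ → Finset ℕ)
    (n x : ℕ) (hn : 1 ≤ n) :
    t 0 ≤ t J ∧ wts (t 0) (t J) v Ω n x = ∑ j ∈ range J, wts (t j) (t (j + 1)) v Ω n x := by
  classical
  induction J with
  | zero =>
    refine ⟨le_rfl, ?_⟩
    rw [sum_range_zero]
    unfold wts
    have : PP (yy (t 0) n) (yy (t 0) n) = ∅ := by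
      rw [eq_empty_iff_forall_notMem]
      intro q hq
      have := mem_PP'.1 hq
      omega
    rw [this, sum_empty]
  | succ J ih =>
    obtain ⟨h1, h2⟩ := ih fun j hj => ht j (by omega)
    have h3 := ht J (by omega)
    refine ⟨h1.trans h3, ?_⟩
    rw [sum_range_succ, ← h2]
    unfold wts
    have h4 := yy_mono h1 hn
    have h5 := yy_mono h3 hn
    have h6 : PP (yy (t 0) n) (yy (t (J + 1)) n) =
        PP (yy (t 0) n) (yy (t J) n) ∪ PP (yy (t J) n) (yy (t (J + 1)) n) := by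
      ext q
      rw [mem_union, mem_PP', mem_PP', mem_PP']
      constructor
      · rintro ⟨h1, h2, h3⟩
        rcases Nat.lt_or_ge (yy (t J) n) q with h4 | h4
        · exact Or.inr ⟨h1, h4, h3⟩
        · exact Or.inl ⟨h1, h2, h4⟩
      · rintro (⟨h1, h2, h3⟩ | ⟨h1, h2, h3⟩)
        · exact ⟨h1, h2, by omega⟩
        · exact ⟨h1, by omega, h3⟩
    have h7 : Disjoint (PP (yy (t 0) n) (yy (t J) n)) (PP (yy (t J) n) (yy (t (J + 1)) n)) := by
      rw [disjoint_left]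
      intro q h8 h9
      have h10 := (mem_PP'.1 h8).2.2
      have h11 := (mem_PP'.1 h9).2.1
      omega
    rw [h6, sum_union h7]

/-- **The weighted sieve.** -/
theorem combine (u v K : ℝ) (J : ℕ) (t M : ℕ → ℝ) (hu : 0 < u) (hu17 : u * 17 + 1 / 100 ≤ 1 / 2)
    (ht0 : t 0 = u) (htJ : t J = v) (ht : ∀ j < J, t j ≤ t (j + 1)) (hv1 : v ≤ 1)
    (hI : ∀ j < J, ∃ w : ℕ, ∀ k : ℕ, w ≤ k → 2 ≤ k → Ival u v (t j) (t (j + 1)) (M j) k)
    (hK0 : 0 < K) (hK : ∑ j ∈ range J, M j < 99 / 100 * K) :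
    ∃ k : ℕ, 2 ≤ k ∧ ∃ (c : ℝ) (N₀ : ℕ), 0 < c ∧ ∀ n : ℕ, N₀ ≤ n →
    ∀ Ω : ℕ → Finset ℕ, (∀ p, ∀ c ∈ Ω p, c < p) → (∀ p, 0 ∉ Ω p) → (∀ p, (Ω p).card ≤ 2) →
    ∀ L a : ℕ, L ∣ LL k → a < L → a.Coprime L →
      c * ((∑ x ∈ Ioc n (2 * n), BV.th x) / L.totient) *
          ∏ p ∈ QQ k (yy u n), (1 - d2 Ω p) - (n : ℝ) / (Real.log n) ^ 3 ≤
        ∑ x ∈ (Ioc n (2 * n)).filter (fun x => x % L = a ∧
          (∀ p ∈ QQ k (yy u n), x % p ∉ Ω p) ∧ wts u v v Ω n x < K), BV.th x := by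
  classical
  obtain ⟨w, hw⟩ := fl3
  choose! wj hwj using hI
  set k := max (max 2 w) (∑ j ∈ range J, wj j) with hk
  have hk2 : 2 ≤ k := (le_max_left _ _).trans (le_max_left _ _)
  have hkw : w ≤ k := (le_max_right _ _).trans (le_max_left _ _)
  have hkj : ∀ j < J, wj j ≤ k := fun j hj =>
    (single_le_sum (f := wj) (fun _ _ => Nat.zero_le _) (mem_range.2 hj)).trans (le_max_right _ _)
  have hIj : ∀ j < J, Ival u v (t j) (t (j + 1)) (M j) k := fun j hj => hwj j hj k (hkj j hj) hk2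
  unfold Ival at hIj
  choose! Nj hNj using hIj
  obtain ⟨X1, hX1⟩ := expand k (by omega) 17 u (1 / 200) hu (by norm_num)
    (by push_cast; linarith) (by linarith) 4
  have hlim3 : Filter.Tendsto (fun X : ℕ => Real.log (X : ℝ)) Filter.atTop Filter.atTop :=
    Real.tendsto_log_atTop.comp tendsto_natCast_atTop_atTop
  obtain ⟨N6, hN6⟩ := Filter.eventually_atTop.1
    (hlim3.eventually_ge_atTop (1 + J / K + 1))
  obtain ⟨N7, hN7⟩ := log_yy v (1 / 10) (by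
    have := (wts_split v t J ht (fun _ => ∅) 1 0 le_rfl).1
    rw [ht0, htJ] at this
    linarith) (by norm_num) 2
  refine ⟨k, hk2, 99 / 100 - (∑ j ∈ range J, M j) / K,
    max (max X1 (∑ j ∈ range J, Nj j)) (max N6 (max N7 2)), ?_, fun n hn => ?_⟩
  · have : (∑ j ∈ range J, M j) / K < 99 / 100 := by
      rw [div_lt_iff₀ hK0]
      exact hK
    linarith
  simp only [max_le_iff] at hn
  obtain ⟨⟨hn1, hn2⟩, hn3, hn4, hn5⟩ := hn
  have hnj : ∀ j < J, Nj j ≤ n := fun j hj =>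
    (single_le_sum (f := Nj) (fun _ _ => Nat.zero_le _) (mem_range.2 hj)).trans hn2
  obtain ⟨hy2, hex1⟩ := hX1 n hn1
  have hlogn := hN6 n hn3
  obtain ⟨hz2, -, -⟩ := hN7 n hn4
  intro Ω hΩlt hΩ0 hΩ2 L a hLk ha haL
  have hVy := V_nonneg hk2 hΩ2 (yy u n)
  set y := yy u n with hy
  obtain ⟨⟨D1, cn, hD1, hc1, hpt1, hGm1⟩, -⟩ := hw y hy2 (QQ k y) (by
    intro q hq
    obtain ⟨h1, h2, h3⟩ := mem_QQ hq
    exact ⟨h1, by omega, h3⟩)
  have hG1 := hGm1 (d2 Ω) fun q hq => d2_le hΩ2 (mem_QQ hq).1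
  set T := (∑ x ∈ Ioc n (2 * n), BV.th x) / (L.totient : ℝ) with hT
  have hT0 : 0 ≤ T := div_nonneg (sum_nonneg fun x _ => th_nn x) (Nat.cast_nonneg _)
  set V := ∏ p ∈ QQ k y, (1 - d2 Ω p) with hV
  set B := (Ioc n (2 * n)).filter (fun x => x % L = a) with hB
  set Sy : ℕ → Prop := fun x => ∀ p ∈ QQ k y, x % p ∉ Ω p with hSy
  set W : ℕ → ℝ := fun x => wts u v v Ω n x with hW
  set R : ℝ := (n : ℝ) / (Real.log n) ^ 4 with hR
  have hW0 : ∀ x, 0 ≤ W x := by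
    intro x
    simp only [hW]
    unfold wts
    refine sum_nonneg fun q hq => mul_nonneg
      (om_bd (fun m _ => le_rfl) (by omega) hz2 hq).1 ?_
    split_ifs <;> norm_num
  have hn' := hex1 Ω hΩlt hΩ0 (fun p => (hΩ2 p).trans hk2) L a hLk ha haL D1 cn hD1 hc1
  have hS0 : T * (99 / 100 * V) - R ≤ ∑ x ∈ B, BV.th x * (if Sy x then (1 : ℝ) else 0) := by
    have h1 : ∑ x ∈ B, BV.th x * Lm D1 cn Ω x ≤
        ∑ x ∈ B, BV.th x * (if Sy x then (1 : ℝ) else 0) :=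
      sum_le_sum fun x _ => mul_le_mul_of_nonneg_left (hpt1 Ω x) (th_nn x)
    have h2 := (abs_le.1 hn').1
    have h3 := mul_le_mul_of_nonneg_left hG1 hT0
    linarith
  have hS1 : ∑ x ∈ B, BV.th x * (if Sy x then (1 : ℝ) else 0) * W x ≤
      T * ((∑ j ∈ range J, M j) * V) + J * R := by
    have h1 : ∀ x, W x = ∑ j ∈ range J, wts (t j) (t (j + 1)) v Ω n x := by
      intro x
      have := (wts_split v t J ht Ω n x (by omega)).2
      rw [ht0, htJ] at this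
      exact this
    have h2 : ∑ x ∈ B, BV.th x * (if Sy x then (1 : ℝ) else 0) * W x =
        ∑ j ∈ range J, ∑ x ∈ B, BV.th x * (if Sy x then (1 : ℝ) else 0) *
          wts (t j) (t (j + 1)) v Ω n x := by
      rw [sum_comm]
      refine sum_congr rfl fun x _ => ?_
      rw [h1 x, mul_sum]
    rw [h2]
    have h3 : ∀ j ∈ range J, ∑ x ∈ B, BV.th x * (if Sy x then (1 : ℝ) else 0) *
          wts (t j) (t (j + 1)) v Ω n x ≤ T * (M j * V) + R := by
      intro j hj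
      have hj' := mem_range.1 hj
      exact hNj j hj' n (hnj j hj') Ω hΩlt hΩ0 hΩ2 L a hLk ha haL
    refine (sum_le_sum h3).trans (le_of_eq ?_)
    rw [sum_add_distrib, sum_const, card_range, nsmul_eq_mul, sum_mul, mul_sum]
  have hfin : ∑ x ∈ B, BV.th x * (if Sy x then (1 : ℝ) else 0) -
      1 / K * ∑ x ∈ B, BV.th x * (if Sy x then (1 : ℝ) else 0) * W x ≤
      ∑ x ∈ (Ioc n (2 * n)).filter (fun x => x % L = a ∧ Sy x ∧ W x < K), BV.th x := by
    have hR : ∑ x ∈ (Ioc n (2 * n)).filter (fun x => x % L = a ∧ Sy x ∧ W x < K),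
        BV.th x = ∑ x ∈ B, if Sy x ∧ W x < K then BV.th x else 0 := by
      rw [← filter_filter, sum_filter]
    rw [hR, mul_sum, ← sum_sub_distrib]
    refine sum_le_sum fun x _ => ?_
    have h0 := th_nn x
    have h1 := hW0 x
    have hK' : 0 < 1 / K := by positivity
    by_cases h2 : Sy x
    · rw [if_pos h2, mul_one]
      by_cases h3 : W x < K
      · rw [if_pos ⟨h2, h3⟩]
        have : 0 ≤ 1 / K * (BV.th x * W x) := by positivity
        linarith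
      · rw [if_neg (fun h => h3 h.2)]
        have h4 : K ≤ W x := not_lt.1 h3
        have h5 : BV.th x * K ≤ BV.th x * W x := mul_le_mul_of_nonneg_left h4 h0
        have h6 : 1 / K * (BV.th x * K) ≤ 1 / K * (BV.th x * W x) :=
          mul_le_mul_of_nonneg_left h5 hK'.le
        have h7 : 1 / K * (BV.th x * K) = BV.th x := by field_simp
        linarith
    · rw [if_neg h2, if_neg (fun h => h2 h.1)]
      simp
  refine le_trans ?_ hfin
  have hlog0 : 0 < Real.log n := by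
    have : 0 ≤ (J : ℝ) / K := by positivity
    linarith
  have hR0 : 0 ≤ R := by positivity
  have hl : (1 + J / K) * R ≤ (n : ℝ) / (Real.log n) ^ 3 := by
    have h1 : (n : ℝ) / (Real.log n) ^ 3 = R * Real.log n := by
      rw [hR, pow_succ (Real.log n) 3]
      field_simp
    rw [h1, mul_comm]
    refine mul_le_mul_of_nonneg_left ?_ hR0
    linarith
  have h8 : 1 / K * ∑ x ∈ B, BV.th x * (if Sy x then (1 : ℝ) else 0) * W x ≤
      1 / K * (T * ((∑ j ∈ range J, M j) * V) + J * R) :=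
    mul_le_mul_of_nonneg_left hS1 (by positivity)
  have h9 : 1 / K * (T * ((∑ j ∈ range J, M j) * V) + J * R) =
      (∑ j ∈ range J, M j) / K * T * V + J / K * R := by
    field_simp
  have h10 : (99 / 100 - (∑ j ∈ range J, M j) / K) * T * V =
      T * (99 / 100 * V) - (∑ j ∈ range J, M j) / K * T * V := by ring
  rw [h10]
  linarith

end Pool.Agent.Lib.MP_d06d57_nt
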